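import Mathlib

/-!
# MN-Bits: binary expansions

Induction on `A`.  `A = 0`: `q < 2`, `S = []` or `[0]`.  Step: if `q < 2^(A+1)` take `S` of the induction hypothesis
(`(A+1) q = A q + q ≤ (∑ + 2^(A+1)) + 2^(A+1)`); otherwise `q = 2^(A+1) + q'`, `S = (A+1) :: S q'`.
-/

namespace Pool.Agent.MN

theorem bits (A q : ℕ) (hq : q < 2 ^ (A + 1)) : ∃ S : List ℕ,
    (S.map (fun a => 2 ^ a)).sum = q ∧ A * q ≤ (S.map (fun a => a * 2 ^ a)).sum + 2 ^ (A + 1) ∧
    S.length ≤ A + 1 ∧ ∀ a ∈ S, a ≤ A := by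
  induction A generalizing q with
  | zero =>
    have h : q < 2 := by simpa using hq
    interval_cases q
    · exact ⟨[], by simp⟩
    · exact ⟨[0], by simp⟩
  | succ A ih =>
    have hp : 2 ^ (A + 1 + 1) = 2 ^ (A + 1) + 2 ^ (A + 1) := by rw [pow_succ 2 (A + 1)]; ring
    rcases lt_or_ge q (2 ^ (A + 1)) with h | h
    · obtain ⟨S, h1, h2, h3, h4⟩ := ih q h
      refine ⟨S, h1, ?_, by omega, fun a ha => (h4 a ha).trans (Nat.le_succ A)⟩
      rw [Nat.add_mul, one_mul, hp]
      omega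
    · obtain ⟨q', rfl⟩ := Nat.exists_eq_add_of_le h
      have hq' : q' < 2 ^ (A + 1) := by omega
      obtain ⟨S, h1, h2, h3, h4⟩ := ih q' hq'
      refine ⟨(A + 1) :: S, ?_, ?_, ?_, ?_⟩
      · simp [h1]
      · rw [List.map_cons, List.sum_cons, Nat.mul_add, hp, Nat.add_mul A 1 q', one_mul]
        omega
      · simp only [List.length_cons]
        omega
      · intro a ha
        rcases List.mem_cons.1 ha with rfl | ha
        · exact le_rfl
        · exact (h4 a ha).trans (Nat.le_succ A)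

end Pool.Agent.MN
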