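import Pool.Agent.MN.HomF

/-!
# MN-ChSum: the sums over the channel sets

* `msum_pos2`: `if (pos F && pos G) = true then κ else 0 = (1 + F) (1 + G) κ / 4` for sign functions.
* `chan_full`: `msum_pos` (file RowSum), `∑ κ = 0`, and `∑ (x,γ), sg (wb m i x) * chi δ γ * κ (x,γ) = ew m i (Tt κ δ)`.
* `chan_half`: `msum_pos2` with `F = sg (wb m i x) * chi δ γ`, `G = chi δ γ * chi (fun _ => 1) γ`: the four sums are `∑ κ = 0`,
  `ew m i (Tt κ δ)`, `∑ γ, chi δ γ * chi ρ γ * ∑ x, κ (x,γ) = 0` (coordinates `Sum.inr (Sum.inr γ)`), and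
  (`chi δ γ * chi δ γ = 1`) `ew m i (Tt κ ρ) = 0` because `nz ρ = 0` (`hom_iff`), `ρ = fun _ => 1`.
* `tt_lin`: `Tt` of a combination `κ (x, γ) = 4^(-k) * ∑ δ, chi δ γ * G δ x` is `G` (`sum_chi_chi'`).
-/

namespace Pool.Agent.MN

open Finset Pool.Agent.Helper42.Asum

variable {m k : ℕ}

private theorem pos_one' : pos 1 = true := by
  classical
  unfold pos
  rw [decide_eq_true_iff]

private theorem pos_neg' : pos (-1) = false := by
  classical
  unfold pos
  rw [decide_eq_false_iff_not]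
  norm_num

private theorem sg_sign (b : Bool) : sg b = 1 ∨ sg b = -1 := by
  unfold sg
  by_cases h : b = true
  · rw [if_pos h]
    exact Or.inl rfl
  · rw [if_neg h]
    exact Or.inr rfl

private theorem mul_sign {x y : ℝ} (hx : x = 1 ∨ x = -1) (hy : y = 1 ∨ y = -1) :
    x * y = 1 ∨ x * y = -1 := by
  rcases hx with rfl | rfl <;> rcases hy with rfl | rfl <;> norm_num

private theorem sum_split (κ : W m × Gm k → ℝ) (i : ℕ) (δ : Gm k) :
    ∑ a : W m × Gm k, sg (wb m i a.1) * chi δ a.2 * κ a = ew m i (Tt κ δ) := by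
  unfold ew Tt
  rw [Fintype.sum_prod_type]
  apply sum_congr rfl
  intro x _
  rw [Finset.mul_sum]
  apply sum_congr rfl
  intro γ _
  ring

private theorem hom_col (κ : W m × Gm k → ℝ) (hκ : Hom (bsf m k) κ) (γ : Gm k) :
    ∑ x, κ (x, γ) = 0 := by
  have h := hκ.2 (Sum.inr (Sum.inr γ))
  unfold msum at h
  rw [Fintype.sum_prod_type] at h
  rw [← h]
  apply sum_congr rfl
  intro x _
  rw [Finset.sum_eq_single γ]
  · rw [if_pos]
    exact decide_eq_true (show (x, γ).2 = γ from rfl)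
  · intro γ' _ hne
    rw [if_neg]
    intro h1
    exact hne (of_decide_eq_true h1)
  · intro h1
    exact absurd (mem_univ γ) h1

theorem msum_pos2 {B : Type*} [Fintype B] (F G : B → ℝ) (hF : ∀ x, F x = 1 ∨ F x = -1)
    (hG : ∀ x, G x = 1 ∨ G x = -1) (κ : B → ℝ) :
    msum (fun x => pos (F x) && pos (G x)) κ =
      (∑ x, κ x + ∑ x, F x * κ x + ∑ x, G x * κ x + ∑ x, F x * G x * κ x) / 4 := by
  unfold msum
  rw [← sum_add_distrib, ← sum_add_distrib, ← sum_add_distrib, Finset.sum_div]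
  apply sum_congr rfl
  intro x _
  change (if (pos (F x) && pos (G x)) = true then κ x else 0) = _
  rcases hF x with h1 | h1 <;> rcases hG x with h2 | h2 <;> rw [h1, h2]
  · rw [pos_one', Bool.and_self, if_pos rfl]
    ring
  · rw [pos_one', pos_neg', Bool.and_false, if_neg (by decide)]
    ring
  · rw [pos_one', pos_neg', Bool.false_and, if_neg (by decide)]
    ring
  · rw [pos_neg', Bool.false_and, if_neg (by decide)]
    ring

theorem chan_full (κ : W m × Gm k → ℝ) (hκ : Hom (bsf m k) κ) (i : ℕ) (δ : Gm k) :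
    msum (fun a : W m × Gm k => pos (sg (wb m i a.1) * chi δ a.2)) κ = ew m i (Tt κ δ) / 2 := by
  rw [msum_pos (fun a : W m × Gm k => sg (wb m i a.1) * chi δ a.2)
    (fun a => mul_sign (sg_sign _) (chi_sign _ _)) κ, hκ.1, zero_add, sum_split]

theorem chan_half (κ : W m × Gm k → ℝ) (hκ : Hom (bsf m k) κ) (i : ℕ) (δ : Gm k) :
    msum (fun a : W m × Gm k => pos (sg (wb m i a.1) * chi δ a.2) &&
      pos (chi δ a.2 * chi (fun _ => 1) a.2)) κ = ew m i (Tt κ δ) / 4 := by
  rw [msum_pos2 (fun a : W m × Gm k => sg (wb m i a.1) * chi δ a.2)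
    (fun a => chi δ a.2 * chi (fun _ => 1) a.2)
    (fun a => mul_sign (sg_sign _) (chi_sign _ _))
    (fun a => mul_sign (chi_sign _ _) (chi_sign _ _)) κ, hκ.1, zero_add, sum_split]
  have h1 : ∑ a : W m × Gm k, chi δ a.2 * chi (fun _ => 1) a.2 * κ a = 0 := by
    rw [Fintype.sum_prod_type, Finset.sum_comm]
    apply Finset.sum_eq_zero
    intro γ _
    have h9 : ∀ x : W m, chi δ (x, γ).2 * chi (fun _ => 1) (x, γ).2 * κ (x, γ) =
        (chi δ γ * chi (fun _ => 1) γ) * κ (x, γ) := fun x => rfl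
    rw [Finset.sum_congr rfl (fun x _ => h9 x), ← Finset.mul_sum, hom_col κ hκ γ, mul_zero]
  have h2 : ∑ a : W m × Gm k, sg (wb m i a.1) * chi δ a.2 * (chi δ a.2 * chi (fun _ => 1) a.2) *
      κ a = 0 := by
    have h3 : ∀ a : W m × Gm k, sg (wb m i a.1) * chi δ a.2 *
        (chi δ a.2 * chi (fun _ => 1) a.2) * κ a = sg (wb m i a.1) * chi (fun _ => 1) a.2 * κ a := by
      intro a
      have h4 : chi δ a.2 * chi δ a.2 = 1 := by
        rcases chi_sign δ a.2 with h5 | h5 <;> rw [h5] <;> norm_num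
      linear_combination (sg (wb m i a.1) * chi (fun _ => 1) a.2 * κ a) * h4
    rw [Finset.sum_congr rfl (fun a _ => h3 a), sum_split]
    have h6 : nz (fun _ => 1 : Gm k) ≤ 1 := by
      unfold nz
      rw [Finset.filter_false_of_mem]
      · rw [Finset.card_empty]
        exact Nat.zero_le _
      · intro j _ h7
        exact absurd (show (1 : Fin 4) = 0 from h7) (by decide)
    have h8 := ((hom_iff κ).1 hκ).1 (fun _ => 1) (Or.inl h6)
    unfold ew
    apply Finset.sum_eq_zero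
    intro x _
    rw [h8 x, mul_zero]
  rw [h1, h2]
  ring

theorem tt_inv (G : Gm k → W m → ℝ) (ε : Gm k) (x : W m) :
    Tt (fun a : W m × Gm k => (4 : ℝ)⁻¹ ^ k * ∑ δ : Gm k, chi δ a.2 * G δ a.1) ε x = G ε x := by
  unfold Tt
  have h1 : ∀ γ : Gm k, chi ε γ * ((4 : ℝ)⁻¹ ^ k * ∑ δ : Gm k, chi δ γ * G δ x) =
      ∑ δ : Gm k, (4 : ℝ)⁻¹ ^ k * G δ x * (chi ε γ * chi δ γ) := by
    intro γ
    rw [Finset.mul_sum, Finset.mul_sum]
    apply sum_congr rfl
    intro δ _
    ring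
  rw [Finset.sum_congr rfl (fun γ _ => h1 γ), Finset.sum_comm]
  have h2 : ∀ δ : Gm k, ∑ γ : Gm k, (4 : ℝ)⁻¹ ^ k * G δ x * (chi ε γ * chi δ γ) =
      if ε = δ then G δ x else 0 := by
    intro δ
    rw [← Finset.mul_sum, sum_chi_chi']
    by_cases h : ε = δ
    · rw [if_pos h, if_pos h, inv_pow]
      field_simp
    · rw [if_neg h, if_neg h, mul_zero]
  rw [Finset.sum_congr rfl (fun δ _ => h2 δ), Finset.sum_ite_eq, if_pos (mem_univ ε)]

end Pool.Agent.MN
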