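import Pool.Agent.MN.Rig
import Pool.Agent.MN.ChSum

/-!
# MN-BlkC: assembly of the concrete block

`K = Fintype.card (Ct k)`, `en : Fin K ≃ Ct k := (Fintype.equivFin (Ct k)).symm`.  For `l < K` let `δ = (en ⟨l, h⟩).1`,
`T δ` the solution of `exists_rec` for `L = lam δ` (`abs_lam`); for `l ≥ K` everything is `false` / `0` (use `dite`).
`B = W m × Gm k`, `I = BIx m k`, `bs = bsf m k`,
`cin l a = pos (sg (wb m 1 a.1) * chi δ a.2)`, `cout l a = pos (sg (wb m (2^m-1) a.1) * chi δ a.2)`,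
`cin' l a = cin l a && pos (chi δ a.2 * chi (fun _ => 1) a.2)`, `cout' l` similarly, `g l = ew m (2^m-1) (T δ)`.
* `sep`: if `γ ≠ γ'` use the coordinates `Sum.inr (Sum.inr γ)`, `Sum.inr (Sum.inr γ')`; if `γ = γ'`, `x ≠ x'` use
  `Sum.inr (Sum.inl (x, δ, s))` and `Sum.inr (Sum.inl (x', δ, s))` with `δ = fun _ => 1`, `s = pos (chi δ γ)`.
* `rig1`, `rig0`: `rig_one`, `rig_zero`.
* `hout`: by `hom_iff` `Tt κ δ` satisfies `Rec m (lam δ)`; `Tt κ δ - ew m 1 (Tt κ δ) • T δ` satisfies `Rec` with `ew m 1 = 0`,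
  so it is `0` (`rec_unique`), hence `ew m (2^m-1) (Tt κ δ) = g l * ew m 1 (Tt κ δ)`; `chan_full`.
* `hin'`, `hout'`: `chan_full`, `chan_half`.
* `inj`: `ew m 1 (Tt κ δ) = 0` for `δ` in `Ct k` (`chan_full`), so `Tt κ δ = 0` (`rec_unique`); for the other `δ`
  (`nz δ ≤ 1` or `δ = 0`) by `hom_iff`; then `eq_zero_of_chi` for every `x`.
* `ex`: `κ a = 4⁻¹^k * ∑ δ, chi δ a.2 * (if δ is the channel l then 2 * z l * T δ a.1 else 0)`, `tt_inv`, `hom_iff`, `chan_full`.
* the bound: `growth` for `T δ` with `ew m 1 (T δ) = 1`.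
* cards: `card_W`, `Fintype.card_prod`, `Fintype.card_sum`, `Fintype.card_fun`; `card (Ico 2 (2^m)) = 2^m - 2`.
(`0 < Fintype.card (Ct k)` is not needed here.)
-/

namespace Pool.Agent.MN

open Finset Pool.Agent.Helper42.Asum

private theorem ew_lin {m : ℕ} (i : ℕ) (c : ℝ) (T U : W m → ℝ) :
    ew m i (fun x => T x - c * U x) = ew m i T - c * ew m i U := by
  unfold ew
  rw [Finset.mul_sum, ← Finset.sum_sub_distrib]
  exact Finset.sum_congr rfl fun x _ => by ring

private theorem er_lin {m : ℕ} (i : ℕ) (c : ℝ) (T U : W m → ℝ) :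
    er m i (fun x => T x - c * U x) = er m i T - c * er m i U := by
  unfold er
  rw [Finset.mul_sum, ← Finset.sum_sub_distrib]
  exact Finset.sum_congr rfl fun x _ => by ring

private theorem rec_lin {m : ℕ} {L : ℝ} (c : ℝ) {T U : W m → ℝ} (hT : Rec m L T)
    (hU : Rec m L U) : Rec m L (fun x => T x - c * U x) := by
  refine ⟨?_, fun i h1 h2 => ?_⟩
  · rw [ew_lin, hT.1, hU.1]
    ring
  · have h3 := hT.2 i h1 h2
    have h4 := hU.2 i h1 h2
    unfold nn at h3 h4 ⊢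
    rw [er_lin, ew_lin]
    linear_combination h3 - c * h4

private theorem rec_zero {m : ℕ} (L : ℝ) : Rec m L (fun _ => 0) := by
  have h1 : ∀ i, ew m i (fun _ => 0) = 0 := by
    intro i
    unfold ew
    simp
  have h2 : ∀ i, er m i (fun _ => 0) = 0 := by
    intro i
    unfold er
    simp
  refine ⟨h1 0, fun i _ _ => ?_⟩
  unfold nn
  rw [h1, h2]
  ring

private theorem rec_smul {m : ℕ} {L : ℝ} (c : ℝ) {T : W m → ℝ} (hT : Rec m L T) :
    Rec m L (fun x => c * T x) := by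
  have h := rec_lin (-c) (rec_zero L) hT
  have e : (fun x => (0 : ℝ) - -c * T x) = fun x => c * T x := by
    funext x
    ring
  rwa [e] at h

private theorem ew_smul' {m : ℕ} (i : ℕ) (c : ℝ) (T : W m → ℝ) :
    ew m i (fun x => c * T x) = c * ew m i T := by
  unfold ew
  rw [Finset.mul_sum]
  exact Finset.sum_congr rfl fun x _ => by ring

private theorem rec_prop {m k : ℕ} (hm : 1 ≤ m) (hk : 2 ≤ k) {L : ℝ} (hL : |L| = 2 ^ k)
    {T U : W m → ℝ} (hT : Rec m L T) (hU : Rec m L U) (h1 : ew m 1 U = 1) (i : ℕ) :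
    ew m i T = ew m i U * ew m 1 T := by
  have h2 := rec_unique hm hk hL (rec_lin (ew m 1 T) hT hU) (by
    rw [ew_lin, h1]
    ring)
  have h3 : ew m i (fun x => T x - ew m 1 T * U x) = 0 := by
    rw [h2]
    unfold ew
    simp
  rw [ew_lin] at h3
  linarith

private theorem nz_one (k : ℕ) : nz (fun _ : Fin k => (1 : Fin 4)) ≤ 1 := by
  unfold nz
  have h : (univ.filter fun j : Fin k => (fun _ : Fin k => (1 : Fin 4)) j = 0) = ∅ := by
    rw [Finset.filter_eq_empty_iff]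
    intro j _
    show ¬ ((1 : Fin 4) = 0)
    decide
  rw [h]
  simp

private theorem bsf_sep (m k : ℕ) (x x' : W m × Gm k) (h : x ≠ x') :
    ∃ i i' : BIx m k, i ≠ i' ∧ bsf m k x i ≠ bsf m k x' i ∧ bsf m k x i' ≠ bsf m k x' i' := by
  by_cases h2 : x.2 = x'.2
  · have h1 : x.1 ≠ x'.1 := fun h1 => h (Prod.ext h1 h2)
    obtain ⟨d, hd⟩ : ∃ d : Rt k, d = ⟨fun _ => 1, nz_one k⟩ := ⟨_, rfl⟩
    refine ⟨Sum.inr (Sum.inl (x.1, d, pos (chi d.1 x.2))),
      Sum.inr (Sum.inl (x'.1, d, pos (chi d.1 x.2))), ?_, ?_, ?_⟩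
    · intro h3
      apply h1
      have h4 := Sum.inl_injective (Sum.inr_injective h3)
      exact (Prod.mk.inj h4).1
    · show (decide (x.1 = x.1) && (pos (chi d.1 x.2) == pos (chi d.1 x.2))) ≠
        (decide (x'.1 = x.1) && (pos (chi d.1 x'.2) == pos (chi d.1 x.2)))
      rw [decide_eq_true rfl, decide_eq_false (Ne.symm h1), beq_self_eq_true]
      simp
    · show (decide (x.1 = x'.1) && (pos (chi d.1 x.2) == pos (chi d.1 x.2))) ≠
        (decide (x'.1 = x'.1) && (pos (chi d.1 x'.2) == pos (chi d.1 x.2)))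
      rw [← h2, decide_eq_true rfl, decide_eq_false h1, beq_self_eq_true]
      simp
  · refine ⟨Sum.inr (Sum.inr x.2), Sum.inr (Sum.inr x'.2), ?_, ?_, ?_⟩
    · intro h3
      exact h2 (Sum.inr_injective (Sum.inr_injective h3))
    · show decide (x.2 = x.2) ≠ decide (x'.2 = x.2)
      rw [decide_eq_true rfl, decide_eq_false (Ne.symm h2)]
      simp
    · show decide (x.2 = x'.2) ≠ decide (x'.2 = x'.2)
      rw [decide_eq_true rfl, decide_eq_false h2]
      simp

theorem exists_blk (m k : ℕ) (hm : 1 ≤ m) (hk : 2 ≤ k) :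
    ∃ S : Blk (Fintype.card (Ct k)), Fintype.card S.B = 2 ^ m * 4 ^ k ∧
      Fintype.card S.I = (2 ^ m - 2) * 4 ^ k + (2 ^ m * (Fintype.card (Rt k) * 2) + 4 ^ k) ∧
      ∀ l < Fintype.card (Ct k), gr m k ≤ |S.g l| := by
  obtain ⟨en, -⟩ : ∃ en : Ct k ≃ Fin (Fintype.card (Ct k)), en = en := ⟨Fintype.equivFin _, rfl⟩
  obtain ⟨ch, hch⟩ : ∃ ch : ℕ → Gm k, ∀ δ : Ct k, ch (en δ).val = δ.1 := by
    refine ⟨fun l => if h : l < Fintype.card (Ct k) then (en.symm ⟨l, h⟩).1 else 0, fun δ => ?_⟩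
    show (if h : (en δ).val < Fintype.card (Ct k) then (en.symm ⟨(en δ).val, h⟩).1 else 0) = δ.1
    rw [dif_pos (en δ).2]
    exact congrArg Subtype.val (en.symm_apply_apply δ)
  have hsurj : ∀ l < Fintype.card (Ct k), ∃ δ : Ct k, (en δ).val = l := by
    intro l hl
    refine ⟨en.symm ⟨l, hl⟩, ?_⟩
    rw [en.apply_symm_apply]
  choose T hT hT1 using fun l : ℕ => exists_rec hm hk (abs_lam (ch l))
  have hneW : Nonempty (W m) := by
    rw [← Fintype.card_pos_iff, card_W]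
    positivity
  have hTt : ∀ κ : W m × Gm k → ℝ, Hom (bsf m k) κ → ∀ δ, Rec m (lam δ) (Tt κ δ) :=
    fun κ hκ δ => ((hom_iff κ).1 hκ).2 δ
  refine ⟨{
    B := W m × Gm k
    I := BIx m k
    bs := bsf m k
    cin := fun l a => pos (sg (wb m 1 a.1) * chi (ch l) a.2)
    cout := fun l a => pos (sg (wb m (2 ^ m - 1) a.1) * chi (ch l) a.2)
    cin' := fun l a => pos (sg (wb m 1 a.1) * chi (ch l) a.2) &&
      pos (chi (ch l) a.2 * chi (fun _ => 1) a.2)
    cout' := fun l a => pos (sg (wb m (2 ^ m - 1) a.1) * chi (ch l) a.2) &&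
      pos (chi (ch l) a.2 * chi (fun _ => 1) a.2)
    g := fun l => ew m (2 ^ m - 1) (T l)
    fB := inferInstance
    fI := inferInstance
    dB := Classical.decEq _
    dI := Classical.decEq _
    ne := inferInstance
    sep := bsf_sep m k
    rig1 := fun t => rig_one t
    rig0 := fun t => rig_zero t
    hout := ?_
    hin' := ?_
    hout' := ?_
    inj := ?_
    ex := ?_ }, ?_, ?_, ?_⟩
  · intro κ hκ l _
    rw [chan_full κ hκ, chan_full κ hκ,
      rec_prop hm hk (abs_lam (ch l)) (hTt κ hκ (ch l)) (hT l) (hT1 l) (2 ^ m - 1)]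
    ring
  · intro κ hκ l _
    rw [chan_full κ hκ, chan_half κ hκ]
    ring
  · intro κ hκ l _
    rw [chan_full κ hκ, chan_half κ hκ]
    ring
  · intro κ hκ h
    have h0 : ∀ δ : Gm k, ∀ x, Tt κ δ x = 0 := by
      intro δ x
      by_cases hδ : nz δ ≤ 1 ∨ δ = 0
      · exact ((hom_iff κ).1 hκ).1 δ hδ x
      · rw [not_or, not_le] at hδ
        have h1 := h (en ⟨δ, hδ.1, hδ.2⟩).val (en ⟨δ, hδ.1, hδ.2⟩).2
        rw [chan_full κ hκ, hch] at h1
        have h2 : ew m 1 (Tt κ δ) = 0 := by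
          have h3 : ew m 1 (Tt κ δ) / 2 = 0 := h1
          linarith
        have h3 := rec_unique hm hk (abs_lam δ) (hTt κ hκ δ) h2
        rw [h3]
        rfl
    funext a
    obtain ⟨x, γ⟩ := a
    have h1 := eq_zero_of_chi (fun γ => κ (x, γ)) (fun δ => h0 δ x)
    exact congrFun h1 γ
  · intro z
    obtain ⟨G, hG⟩ : ∃ G : Gm k → W m → ℝ, ∀ δ x, G δ x = if h : 2 ≤ nz δ ∧ δ ≠ 0 then
        2 * z (en ⟨δ, h⟩).val * T (en ⟨δ, h⟩).val x else 0 := ⟨_, fun _ _ => rfl⟩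
    have hGpos : ∀ δ : Ct k, G δ.1 = fun x => 2 * z (en δ).val * T (en δ).val x := by
      intro δ
      funext x
      rw [hG, dif_pos δ.2]
    have hGneg : ∀ δ : Gm k, ¬ (2 ≤ nz δ ∧ δ ≠ 0) → G δ = fun _ => 0 := by
      intro δ hδ
      funext x
      rw [hG, dif_neg hδ]
    obtain ⟨κ, hκ⟩ : ∃ κ : W m × Gm k → ℝ,
        κ = fun a : W m × Gm k => (4 : ℝ)⁻¹ ^ k * ∑ δ : Gm k, chi δ a.2 * G δ a.1 := ⟨_, rfl⟩
    have hTG : ∀ δ, Tt κ δ = G δ := by
      intro δ
      funext x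
      rw [hκ]
      exact tt_inv G δ x
    have hHom : Hom (bsf m k) κ := by
      rw [hom_iff]
      refine ⟨fun δ hδ x => ?_, fun δ => ?_⟩
      · rw [hTG, hGneg δ]
        rintro ⟨h1, h2⟩
        rcases hδ with h3 | h3
        · omega
        · exact h2 h3
      · rw [hTG]
        by_cases h : 2 ≤ nz δ ∧ δ ≠ 0
        · rw [hGpos ⟨δ, h⟩]
          have h1 := hT (en ⟨δ, h⟩).val
          rw [hch] at h1
          exact rec_smul _ h1
        · rw [hGneg δ h]
          exact rec_zero _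
    refine ⟨κ, hHom, fun l hl => ?_⟩
    obtain ⟨δ, rfl⟩ := hsurj l hl
    rw [chan_full κ hHom, hch, hTG, hGpos, ew_smul', hT1]
    ring
  · show Fintype.card (W m × Gm k) = 2 ^ m * 4 ^ k
    rw [Fintype.card_prod, card_W]
    simp
  · show Fintype.card (BIx m k) = _
    rw [Fintype.card_sum, Fintype.card_sum, Fintype.card_prod, Fintype.card_prod,
      Fintype.card_prod, card_W]
    simp
  · intro l _
    have h := growth hm hk (abs_lam (ch l)) (hT l)
    rw [hT1, abs_one, mul_one] at h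
    exact h

end Pool.Agent.MN
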