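import Pool.Agent.MN.Defs

/-!
# Project MN: the coordinates of the concrete block
-/

namespace Pool.Agent.MN

open Finset Pool.Agent.Helper42.Asum

/-- the sign function of the row `(i, β)` -/
noncomputable def rowf {m k : ℕ} (i : ℕ) (β : Gm k) (a : W m × Gm k) : ℝ :=
  if a.2 = β then - sg (rr m i a.1) else sg (wb m (i - 1) a.1) * Hh β a.2

/-- the coordinates of the block -/
abbrev BIx (m k : ℕ) : Type :=
  (↥(Finset.Ico 2 (2 ^ m)) × Gm k) ⊕ (W m × Rt k × Bool) ⊕ Gm k

/-- the incidences of the block -/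
noncomputable def bsf (m k : ℕ) : W m × Gm k → BIx m k → Bool
  | a, Sum.inl (i, β) => pos (rowf i.1 β a)
  | a, Sum.inr (Sum.inl (x, δ, s)) => decide (a.1 = x) && (pos (chi δ.1 a.2) == s)
  | a, Sum.inr (Sum.inr γ) => decide (a.2 = γ)

/-- Walsh transform in the second variable -/
noncomputable def Tt {m k : ℕ} (κ : W m × Gm k → ℝ) (δ : Gm k) (x : W m) : ℝ :=
  ∑ γ : Gm k, chi δ γ * κ (x, γ)

end Pool.Agent.MN
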