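import Pool.Agent.MN.Defs

/-!
# Project MN: the alternating chain of blocks (definitions)

`s ≥ 2` blocks, `K ≥ 1` channels each.  Position `p < K * s` is the channel `p / s` of the block `p % s`; link `q < K * s - 1`
joins the output of position `q` with the input of position `q + 1` (different blocks: `q % s ≠ (q + 1) % s`).
Coordinates `CJ S`: the coordinates of the blocks, the `s` block masses, and two coordinates for every link.
-/

namespace Pool.Agent.MN

open Finset Pool.Agent.Helper42.Asum

variable {s K : ℕ}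

/-- atoms -/
abbrev CA (S : Fin s → Blk K) : Type := (ω : Fin s) × (S ω).B

/-- coordinates -/
abbrev CJ (S : Fin s → Blk K) : Type :=
  ((ω : Fin s) × (S ω).I) ⊕ (Fin s) ⊕ (Fin (K * s - 1) × Bool)

/-- incidences -/
noncomputable def cv (S : Fin s → Blk K) : CA S → CJ S → Bool
  | ⟨ω, x⟩, Sum.inl ⟨ω', i⟩ => if h : ω' = ω then (S ω).bs x (h ▸ i) else false
  | ⟨ω, _⟩, Sum.inr (Sum.inl ω') => decide (ω = ω')
  | ⟨ω, x⟩, Sum.inr (Sum.inr (q, true)) =>
      (decide (ω.val = q.val % s) && (S ω).cout (q.val / s) x) ||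
      (decide (ω.val = (q.val + 1) % s) && (S ω).cin ((q.val + 1) / s) x)
  | ⟨ω, x⟩, Sum.inr (Sum.inr (q, false)) =>
      (decide (ω.val = q.val % s) && (S ω).cout' (q.val / s) x) ||
      (decide (ω.val = (q.val + 1) % s) && (S ω).cin' ((q.val + 1) / s) x)

end Pool.Agent.MN
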