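import Pool.Agent.MN.ChMs

/-!
# MN-ChLarge: every integral relation of the chain is large

Real version `κr a = (κ a : ℝ)`: all `ms (cv S) κr j = 0` (cast), so by `ms_blk`, `ms_mass` every restriction `κr ω` is
homogeneous.  `z p := msum ((S ω).cin (p / s)) (κr ω)` with `ω = p % s`, for `p < K * s`.  Full links and `hout`:
`g q * z q + z (q + 1) = 0` for `q < K * s - 1`, `g q = (S (q % s)).g (q / s)`.
If `z 0 = 0`, all `z p = 0` (`p < K * s`), so `msum (cin l) (κr ω) = z (l * s + ω) = 0` for all `l < K` and all `ω`, and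
`κr = 0` by `inj`, contradiction.  `z 0` is the cast of an integer, so `1 ≤ |z 0|`.  By induction
`|z p| = |z 0| * ∏ r < p, |g r|`; the output of the last position `P = K * s - 1` is `|g P * z P| = |z 0| * ∏ r < K * s, |g r|`,
and `∏ r ∈ range (K * s), |g r| = ∏ ω, ∏ l ∈ range K, |(S ω).g l|` (`Finset.prod_comm`, bijection
`(l, ω) ↦ l * s + ω`; e.g. `Finset.prod_range_mul`-style induction on `K`: `∏ r ∈ range ((K+1) * s) = (∏ r ∈ range (K * s)) *
∏ j ∈ range s, ...` with `Finset.prod_range_add`, and `Finset.prod_range`).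
It is at most `∑ x, |κr ⟨ω, x⟩| ≤ ∑ a, |κr a| ≤ (∑ ω, card (S ω).B) * max |κ a|`; if all `|κ a| < Kr` then it is
`< Kr * ∑ ω, card (S ω).B`, contradiction to `hKr` (if `Kr = 0` take any `a`; atoms exist, `(S ω).ne`).
-/

namespace Pool.Agent.MN

open Finset Pool.Agent.Helper42.Asum

variable {s K : ℕ}

private theorem prod_grid (s : ℕ) (G : ℕ → ℕ → ℝ) (K : ℕ) :
    ∏ r ∈ range (K * s), G (r % s) (r / s) = ∏ w ∈ range s, ∏ l ∈ range K, G w l := by
  induction K with
  | zero => simp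
  | succ K ih =>
    rw [Nat.succ_mul, Finset.prod_range_add, ih, ← Finset.prod_mul_distrib]
    refine Finset.prod_congr rfl fun w hw => ?_
    rw [Finset.prod_range_succ]
    have hw' : w < s := Finset.mem_range.mp hw
    have h1 : (K * s + w) % s = w := by
      rw [Nat.add_comm, Nat.add_mul_mod_self_right, Nat.mod_eq_of_lt hw']
    have h2 : (K * s + w) / s = K := by
      rw [Nat.add_comm, Nat.add_mul_div_right _ _ (by omega), Nat.div_eq_of_lt hw', zero_add]
    rw [h1, h2]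

theorem chain_large (S : Fin s → Blk K) (hs : 2 ≤ s) (hK : 1 ≤ K) (Kr : ℕ)
    (hKr : (Kr : ℝ) * (∑ ω, (Fintype.card (S ω).B : ℝ)) ≤ ∏ ω, ∏ l ∈ range K, |(S ω).g l|)
    (κ : CA S → ℤ) (hj : ∀ j, (∑ a, if cv S a j = true then κ a else 0) = 0)
    (hne : κ ≠ 0) : ∃ a, (Kr : ℤ) ≤ |κ a| := by
  have hs0 : 0 < s := by omega
  have hKs : 2 ≤ K * s := by nlinarith
  obtain ⟨κr, hκr⟩ : ∃ κr : CA S → ℝ, ∀ a, κr a = (κ a : ℝ) := ⟨fun a => (κ a : ℝ), fun _ => rfl⟩
  have hms : ∀ j, ms (cv S) κr j = 0 := by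
    intro j
    have h1 := hj j
    have h2 : ((∑ a, if cv S a j = true then κ a else 0 : ℤ) : ℝ) = 0 := by
      rw [h1]
      exact Int.cast_zero
    rw [Int.cast_sum] at h2
    unfold ms
    refine Eq.trans ?_ h2
    refine Finset.sum_congr rfl fun a _ => ?_
    rw [hκr]
    by_cases hc : cv S a j = true
    · rw [if_pos hc, if_pos hc]
    · rw [if_neg hc, if_neg hc, Int.cast_zero]
  have hhom : ∀ ω : Fin s, Hom (S ω).bs (fun x => κr ⟨ω, x⟩) := by
    intro ω
    refine ⟨?_, ?_⟩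
    · rw [← ms_mass S κr ω]
      exact hms _
    · intro i
      rw [← ms_blk S κr ω i]
      exact hms _
  -- inputs
  obtain ⟨Z, hZ⟩ : ∃ Z : Fin s → ℕ → ℝ, ∀ ω l, Z ω l =
      msum ((S ω).cin l) (fun x => κr ⟨ω, x⟩) := ⟨fun ω l => _, fun _ _ => rfl⟩
  obtain ⟨Y, hY⟩ : ∃ Y : Fin s → ℕ → ℝ, ∀ ω l, Y ω l =
      msum ((S ω).cout l) (fun x => κr ⟨ω, x⟩) := ⟨fun ω l => _, fun _ _ => rfl⟩
  obtain ⟨G, hG⟩ : ∃ G : ℕ → ℕ → ℝ, ∀ (ω : Fin s) l, G ω.val l = |(S ω).g l| := by
    refine ⟨fun w l => if h : w < s then |(S ⟨w, h⟩).g l| else 1, ?_⟩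
    intro ω l
    change (if h : ω.val < s then |(S ⟨ω.val, h⟩).g l| else 1) = |(S ω).g l|
    rw [dif_pos ω.isLt]
  have hYZ : ∀ (ω : Fin s) (l : ℕ), l < K → |Y ω l| = G ω.val l * |Z ω l| := by
    intro ω l hl
    rw [hY, (S ω).hout _ (hhom ω) l hl, abs_mul, hG, hZ]
  obtain ⟨o, ho⟩ : ∃ o : ℕ → Fin s, ∀ p, (o p).val = p % s :=
    ⟨fun p => ⟨p % s, Nat.mod_lt _ hs0⟩, fun _ => rfl⟩
  have hlink : ∀ q, q < K * s - 1 → |Z (o (q + 1)) ((q + 1) / s)| = |Y (o q) (q / s)| := by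
    intro q hq
    have h1 := ms_linkt S hs κr ⟨q, hq⟩ (o q) (o (q + 1)) (ho q) (ho (q + 1))
    rw [hms] at h1
    change 0 = msum ((S (o q)).cout (q / s)) (fun x => κr ⟨o q, x⟩) +
      msum ((S (o (q + 1))).cin ((q + 1) / s)) (fun x => κr ⟨o (q + 1), x⟩) at h1
    rw [← hY, ← hZ] at h1
    have h2 : Z (o (q + 1)) ((q + 1) / s) = - Y (o q) (q / s) := by linarith
    rw [h2, abs_neg]
  have hdiv : ∀ q, q < K * s → q / s < K := fun q hq =>
    (Nat.div_lt_iff_lt_mul hs0).mpr hq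
  have hYp : ∀ q, q < K * s → |Y (o q) (q / s)| = G (q % s) (q / s) * |Z (o q) (q / s)| := by
    intro q hq
    rw [hYZ _ _ (hdiv q hq), ho]
  have hzp : ∀ p, p < K * s → |Z (o p) (p / s)| =
      |Z (o 0) 0| * ∏ r ∈ range p, G (r % s) (r / s) := by
    intro p
    induction p with
    | zero =>
      intro _
      rw [Finset.prod_range_zero, mul_one, Nat.zero_div]
    | succ p ih =>
      intro hp
      rw [hlink p (by omega), hYp p (by omega), ih (by omega), Finset.prod_range_succ]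
      ring
  have hz0 : Z (o 0) 0 ≠ 0 := by
    intro h0
    apply hne
    have hall : ∀ p, p < K * s → Z (o p) (p / s) = 0 := by
      intro p hp
      have h1 := hzp p hp
      rw [h0, abs_zero, zero_mul] at h1
      exact abs_eq_zero.mp h1
    have hω : ∀ (ω : Fin s) (l : ℕ), l < K → Z ω l = 0 := by
      intro ω l hl
      have h1 : l * s + ω.val < K * s := by
        have h2 : (l + 1) * s ≤ K * s := Nat.mul_le_mul_right _ hl
        have h3 := ω.isLt
        rw [Nat.succ_mul] at h2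
        omega
      have h2 := hall _ h1
      have h3 : o (l * s + ω.val) = ω := by
        apply Fin.ext
        rw [ho, Nat.add_comm, Nat.add_mul_mod_self_right, Nat.mod_eq_of_lt ω.isLt]
      have h4 : (l * s + ω.val) / s = l := by
        rw [Nat.add_comm, Nat.add_mul_div_right _ _ hs0, Nat.div_eq_of_lt ω.isLt, zero_add]
      rwa [h3, h4] at h2
    funext a
    obtain ⟨ω, x⟩ := a
    have h5 := (S ω).inj _ (hhom ω) (fun l hl => by rw [← hZ]; exact hω ω l hl)
    have h6 : κr ⟨ω, x⟩ = 0 := congrFun h5 x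
    rw [hκr] at h6
    exact_mod_cast h6
  have hz1 : 1 ≤ |Z (o 0) 0| := by
    have h1 : Z (o 0) 0 = ((∑ x, if (S (o 0)).cin 0 x = true then κ ⟨o 0, x⟩ else 0 : ℤ) : ℝ) := by
      rw [hZ, Int.cast_sum]
      unfold msum
      refine Finset.sum_congr rfl fun x _ => ?_
      by_cases hc : (S (o 0)).cin 0 x = true
      · rw [if_pos hc, if_pos hc]
        exact hκr _
      · rw [if_neg hc, if_neg hc, Int.cast_zero]
    rw [h1] at hz0 ⊢
    have h2 : (∑ x, if (S (o 0)).cin 0 x = true then κ ⟨o 0, x⟩ else 0 : ℤ) ≠ 0 := by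
      intro h
      apply hz0
      rw [h]
      exact Int.cast_zero
    have h3 := Int.one_le_abs h2
    exact_mod_cast h3
  by_contra hcon
  push Not at hcon
  have hprod : ∏ r ∈ range (K * s), G (r % s) (r / s) = ∏ ω, ∏ l ∈ range K, |(S ω).g l| := by
    rw [prod_grid, Finset.prod_range]
    refine Finset.prod_congr rfl fun ω _ => Finset.prod_congr rfl fun l _ => hG ω l
  have hP : K * s - 1 < K * s := by omega
  have hlast : |Y (o (K * s - 1)) ((K * s - 1) / s)| =
      |Z (o 0) 0| * ∏ r ∈ range (K * s), G (r % s) (r / s) := by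
    have h1 : K * s = (K * s - 1) + 1 := by omega
    rw [hYp _ hP, hzp _ hP]
    conv_rhs => rw [h1, Finset.prod_range_succ]
    ring
  have hup : |Y (o (K * s - 1)) ((K * s - 1) / s)| ≤ ∑ a, |κr a| := by
    rw [hY]
    unfold msum
    refine (Finset.abs_sum_le_sum_abs _ _).trans ?_
    have h1 : ∑ x, |if (S (o (K * s - 1))).cout ((K * s - 1) / s) x = true then
        κr ⟨o (K * s - 1), x⟩ else 0| ≤ ∑ x, |κr ⟨o (K * s - 1), x⟩| := by
      refine Finset.sum_le_sum fun x _ => ?_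
      split_ifs
      · exact le_rfl
      · rw [abs_zero]
        exact abs_nonneg _
    refine h1.trans ?_
    rw [Fintype.sum_sigma]
    exact Finset.single_le_sum (f := fun ω : Fin s => ∑ x, |κr ⟨ω, x⟩|)
      (fun ω _ => Finset.sum_nonneg fun x _ => abs_nonneg _) (Finset.mem_univ _)
  have hlt : ∑ a, |κr a| < (Kr : ℝ) * (∑ ω, (Fintype.card (S ω).B : ℝ)) := by
    have h1 : (Kr : ℝ) * (∑ ω, (Fintype.card (S ω).B : ℝ)) = ∑ _a : CA S, (Kr : ℝ) := by
      rw [Finset.sum_const, Finset.card_univ, Fintype.card_sigma, nsmul_eq_mul, Nat.cast_sum]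
      ring
    rw [h1]
    have hnon : (Finset.univ : Finset (CA S)).Nonempty := by
      obtain ⟨x⟩ := (S ⟨0, hs0⟩).ne
      exact ⟨⟨⟨0, hs0⟩, x⟩, Finset.mem_univ _⟩
    refine Finset.sum_lt_sum_of_nonempty hnon fun a _ => ?_
    rw [hκr]
    have h2 := hcon a
    exact_mod_cast h2
  have hnn : 0 ≤ ∏ ω, ∏ l ∈ range K, |(S ω).g l| :=
    Finset.prod_nonneg fun ω _ => Finset.prod_nonneg fun l _ => abs_nonneg _
  rw [hprod] at hlast
  nlinarith [mul_le_mul_of_nonneg_right hz1 hnn]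

end Pool.Agent.MN
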