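import Pool.Agent.MN.ChDefs

/-!
# MN-ChMs: the sums of the chain

`ms v t j = ∑ a, if v a j = true then t a else 0` (file `Pool/Agent/Helper42/Asum/Flat.lean`).  Split the sum with
`Fintype.sum_sigma`; for a block coordinate only the summand `ω` of the outer sum is nonzero
(`Finset.sum_eq_single ω`, `dif_pos rfl`, `dif_neg`).  Masses: the same.  Links: `q % s ≠ (q + 1) % s` because `2 ≤ s`
(if `q % s + 1 < s` then `(q+1) % s = q % s + 1`, else `(q+1) % s = 0 ≠ q % s = s - 1`), so the outer sum has exactly the two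
nonzero terms `ω`, `ω'` (`Finset.sum_eq_add_of_mem` or `Finset.sum_eq_add`).
`chain_sep`: different blocks: the two mass coordinates; same block: `(S ω).sep`.
-/

namespace Pool.Agent.MN

open Finset Pool.Agent.Helper42.Asum

variable {s K : ℕ}

theorem mod_ne (s q : ℕ) (hs : 2 ≤ s) : q % s ≠ (q + 1) % s := by
  intro h
  have h1 : q ≡ q + 1 [MOD s] := h
  rw [Nat.modEq_iff_dvd' (Nat.le_succ q)] at h1
  have h2 : q + 1 - q = 1 := by omega
  rw [h2, Nat.dvd_one] at h1
  omega

private theorem cv_blk_same (S : Fin s → Blk K) (ω : Fin s) (x : (S ω).B) (i : (S ω).I) :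
    cv S ⟨ω, x⟩ (Sum.inl ⟨ω, i⟩) = (S ω).bs x i := by
  show (if h : ω = ω then (S ω).bs x (h ▸ i) else false) = (S ω).bs x i
  rw [dif_pos rfl]

private theorem cv_blk_ne (S : Fin s → Blk K) {ω ω' : Fin s} (h : ω' ≠ ω) (x : (S ω).B)
    (i : (S ω').I) : cv S ⟨ω, x⟩ (Sum.inl ⟨ω', i⟩) = false := by
  show (if h : ω' = ω then (S ω).bs x (h ▸ i) else false) = false
  rw [dif_neg h]

private theorem cv_mass (S : Fin s → Blk K) (ω ω' : Fin s) (x : (S ω).B) :
    cv S ⟨ω, x⟩ (Sum.inr (Sum.inl ω')) = decide (ω = ω') := rfl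

private theorem cv_linkt (S : Fin s → Blk K) (ω : Fin s) (x : (S ω).B) (q : Fin (K * s - 1)) :
    cv S ⟨ω, x⟩ (Sum.inr (Sum.inr (q, true))) =
      ((decide (ω.val = q.val % s) && (S ω).cout (q.val / s) x) ||
      (decide (ω.val = (q.val + 1) % s) && (S ω).cin ((q.val + 1) / s) x)) := rfl

private theorem cv_linkf (S : Fin s → Blk K) (ω : Fin s) (x : (S ω).B) (q : Fin (K * s - 1)) :
    cv S ⟨ω, x⟩ (Sum.inr (Sum.inr (q, false))) =
      ((decide (ω.val = q.val % s) && (S ω).cout' (q.val / s) x) ||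
      (decide (ω.val = (q.val + 1) % s) && (S ω).cin' ((q.val + 1) / s) x)) := rfl

private theorem ms_sum (S : Fin s → Blk K) (t : CA S → ℝ) (j : CJ S) :
    ms (cv S) t j = ∑ ω, msum (fun x => cv S ⟨ω, x⟩ j) (fun x => t ⟨ω, x⟩) := by
  unfold ms msum
  rw [Fintype.sum_sigma]

private theorem msum_false {B : Type*} [Fintype B] (κ : B → ℝ) {S : B → Bool}
    (h : ∀ x, S x = false) : msum S κ = 0 := by
  unfold msum
  apply Finset.sum_eq_zero
  intro x _
  rw [h x]
  simp

theorem ms_blk (S : Fin s → Blk K) (t : CA S → ℝ) (ω : Fin s) (i : (S ω).I) :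
    ms (cv S) t (Sum.inl ⟨ω, i⟩) = msum (fun x => (S ω).bs x i) (fun x => t ⟨ω, x⟩) := by
  rw [ms_sum, Finset.sum_eq_single ω]
  · simp only [cv_blk_same]
  · intro ω' _ hne
    exact msum_false _ (fun x => cv_blk_ne S hne.symm x i)
  · intro h
    exact absurd (Finset.mem_univ ω) h

theorem ms_mass (S : Fin s → Blk K) (t : CA S → ℝ) (ω : Fin s) :
    ms (cv S) t (Sum.inr (Sum.inl ω)) = ∑ x, t ⟨ω, x⟩ := by
  rw [ms_sum, Finset.sum_eq_single ω]
  · unfold msum
    apply Finset.sum_congr rfl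
    intro x _
    beta_reduce
    rw [cv_mass]
    simp
  · intro ω' _ hne
    exact msum_false _ (fun x => by rw [cv_mass]; simpa using hne)
  · intro h
    exact absurd (Finset.mem_univ ω) h

theorem ms_linkt (S : Fin s → Blk K) (hs : 2 ≤ s) (t : CA S → ℝ) (q : Fin (K * s - 1)) (ω ω' : Fin s)
    (hω : ω.val = q.val % s) (hω' : ω'.val = (q.val + 1) % s) :
    ms (cv S) t (Sum.inr (Sum.inr (q, true))) =
      msum ((S ω).cout (q.val / s)) (fun x => t ⟨ω, x⟩) +
      msum ((S ω').cin ((q.val + 1) / s)) (fun x => t ⟨ω', x⟩) := by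
  have hmn := mod_ne s q.val hs
  have hne : ω ≠ ω' := by
    intro h
    apply hmn
    rw [← hω, ← hω', h]
  rw [ms_sum, Fintype.sum_eq_add ω ω' hne]
  · congr 1
    · unfold msum
      apply Finset.sum_congr rfl
      intro x _
      beta_reduce
      rw [cv_linkt, hω]
      simp [hmn]
    · unfold msum
      apply Finset.sum_congr rfl
      intro x _
      beta_reduce
      rw [cv_linkt, hω']
      simp [hmn.symm]
  · rintro ω'' ⟨h1, h2⟩
    apply msum_false
    intro x
    have e1 : ω''.val ≠ q.val % s := fun h => h1 (Fin.ext (by rw [h, hω]))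
    have e2 : ω''.val ≠ (q.val + 1) % s := fun h => h2 (Fin.ext (by rw [h, hω']))
    rw [cv_linkt]
    simp [e1, e2]

theorem ms_linkf (S : Fin s → Blk K) (hs : 2 ≤ s) (t : CA S → ℝ) (q : Fin (K * s - 1)) (ω ω' : Fin s)
    (hω : ω.val = q.val % s) (hω' : ω'.val = (q.val + 1) % s) :
    ms (cv S) t (Sum.inr (Sum.inr (q, false))) =
      msum ((S ω).cout' (q.val / s)) (fun x => t ⟨ω, x⟩) +
      msum ((S ω').cin' ((q.val + 1) / s)) (fun x => t ⟨ω', x⟩) := by
  have hmn := mod_ne s q.val hs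
  have hne : ω ≠ ω' := by
    intro h
    apply hmn
    rw [← hω, ← hω', h]
  rw [ms_sum, Fintype.sum_eq_add ω ω' hne]
  · congr 1
    · unfold msum
      apply Finset.sum_congr rfl
      intro x _
      beta_reduce
      rw [cv_linkf, hω]
      simp [hmn]
    · unfold msum
      apply Finset.sum_congr rfl
      intro x _
      beta_reduce
      rw [cv_linkf, hω']
      simp [hmn.symm]
  · rintro ω'' ⟨h1, h2⟩
    apply msum_false
    intro x
    have e1 : ω''.val ≠ q.val % s := fun h => h1 (Fin.ext (by rw [h, hω]))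
    have e2 : ω''.val ≠ (q.val + 1) % s := fun h => h2 (Fin.ext (by rw [h, hω']))
    rw [cv_linkf]
    simp [e1, e2]

theorem card_CJ (S : Fin s → Blk K) :
    Fintype.card (CJ S) = (∑ ω, Fintype.card (S ω).I) + (s + (K * s - 1) * 2) := by
  rw [Fintype.card_sum, Fintype.card_sum, Fintype.card_sigma, Fintype.card_prod, Fintype.card_fin,
    Fintype.card_fin, Fintype.card_bool]

theorem chain_sep (S : Fin s → Blk K) : Sep (cv S) := by
  rintro ⟨ω, x⟩ ⟨ω', x'⟩ hne
  by_cases h : ω = ω'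
  · subst h
    have hx : x ≠ x' := fun hx => hne (by rw [hx])
    obtain ⟨i, i', h1, h2, h3⟩ := (S ω).sep x x' hx
    refine ⟨Sum.inl ⟨ω, i⟩, Sum.inl ⟨ω, i'⟩, ?_, ?_, ?_⟩
    · intro h4
      apply h1
      have h5 := Sum.inl_injective h4
      simpa using h5
    · rw [cv_blk_same, cv_blk_same]
      exact h2
    · rw [cv_blk_same, cv_blk_same]
      exact h3
  · refine ⟨Sum.inr (Sum.inl ω), Sum.inr (Sum.inl ω'), ?_, ?_, ?_⟩
    · intro h4
      exact h (Sum.inl_injective (Sum.inr_injective h4))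
    · rw [cv_mass, cv_mass]
      simp [Ne.symm h]
    · rw [cv_mass, cv_mass]
      simp [h]

end Pool.Agent.MN
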