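import Pool.Agent.MN.ChMs

/-!
# MN-ChRel: the relation of the chain

`g p := if h : p % s < s then (S ⟨p % s, h⟩).g (p / s) else 0` (`s > 0`).  `z : ℕ → ℝ`, `z 0 = 1`, `z (p+1) = - g p * z p`.
For every block `ω` take `κ ω` from `(S ω).ex (fun l => z (l * s + ω))`: homogeneous, `msum (cin l) (κ ω) = z (l * s + ω)` for
`l < K`.  `c ⟨ω, x⟩ = κ ω x`.  `∑ c = 0` (`Fintype.sum_sigma`, `Hom`), block coordinates and masses vanish (`ms_blk`,
`ms_mass`), links: with `q = (q / s) * s + q % s` (`Nat.div_add_mod'`) and `q / s < K`, `(q + 1) / s < K` (`q + 1 < K * s`,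
`Nat.div_lt_iff_lt_mul`) the full link is `g q * z q + z (q + 1) = 0` (`hout`), the half link is half of it (`hin'`, `hout'`).
`c ≠ 0` because `msum (cin 0) (κ 0) = z 0 = 1` (position `0`, `K ≥ 1`, `s ≥ 1`); a nonzero function with sum `0` has a
negative value.
-/

namespace Pool.Agent.MN

open Finset Pool.Agent.Helper42.Asum

variable {s K : ℕ}

theorem chain_rel (S : Fin s → Blk K) (hs : 2 ≤ s) (hK : 1 ≤ K) :
    ∃ c : CA S → ℝ, ∑ a, c a = 0 ∧ (∀ j, ms (cv S) c j = 0) ∧ ∃ a, c a < 0 := by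
  have hs0 : 0 < s := by omega
  set g : ℕ → ℝ := fun p => (S ⟨p % s, Nat.mod_lt p hs0⟩).g (p / s) with hg
  set z : ℕ → ℝ := fun n => Nat.rec (motive := fun _ => ℝ) 1 (fun p zp => - g p * zp) n with hz
  have hz0 : z 0 = 1 := rfl
  have hzs : ∀ p, z (p + 1) = - g p * z p := fun p => rfl
  choose κ hκ hκ2 using fun ω : Fin s => (S ω).ex (fun l => z (l * s + ω))
  have hin : ∀ (p : ℕ) (hp : p < K * s),
      msum ((S ⟨p % s, Nat.mod_lt p hs0⟩).cin (p / s)) (κ ⟨p % s, Nat.mod_lt p hs0⟩) = z p := by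
    intro p hp
    rw [hκ2 _ (p / s) ((Nat.div_lt_iff_lt_mul hs0).2 hp)]
    simp only
    rw [Nat.div_add_mod']
  have hout : ∀ (p : ℕ) (hp : p < K * s),
      msum ((S ⟨p % s, Nat.mod_lt p hs0⟩).cout (p / s)) (κ ⟨p % s, Nat.mod_lt p hs0⟩) =
        g p * z p := by
    intro p hp
    rw [(S ⟨p % s, Nat.mod_lt p hs0⟩).hout _ (hκ _) (p / s) ((Nat.div_lt_iff_lt_mul hs0).2 hp),
      hin p hp]
  refine ⟨fun a => κ a.1 a.2, ?_, ?_, ?_⟩
  · rw [Fintype.sum_sigma]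
    exact Finset.sum_eq_zero fun ω _ => (hκ ω).1
  · rintro (⟨ω, i⟩ | ω | ⟨q, b⟩)
    · rw [ms_blk]
      exact (hκ ω).2 i
    · rw [ms_mass]
      exact (hκ ω).1
    · have hq : q.val + 1 < K * s := by
        have := q.2
        omega
      cases b
      · rw [ms_linkf S hs _ q ⟨q.val % s, Nat.mod_lt _ hs0⟩ ⟨(q.val + 1) % s, Nat.mod_lt _ hs0⟩ rfl rfl]
        have h1 := (S ⟨q.val % s, Nat.mod_lt _ hs0⟩).hout' _ (hκ _) (q.val / s)
          ((Nat.div_lt_iff_lt_mul hs0).2 (by omega))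
        have h2 := (S ⟨(q.val + 1) % s, Nat.mod_lt _ hs0⟩).hin' _ (hκ _) ((q.val + 1) / s)
          ((Nat.div_lt_iff_lt_mul hs0).2 hq)
        rw [hout q.val (by omega)] at h1
        rw [hin (q.val + 1) hq, hzs] at h2
        show msum ((S ⟨q.val % s, Nat.mod_lt _ hs0⟩).cout' (q.val / s))
            (κ ⟨q.val % s, Nat.mod_lt _ hs0⟩) +
          msum ((S ⟨(q.val + 1) % s, Nat.mod_lt _ hs0⟩).cin' ((q.val + 1) / s))
            (κ ⟨(q.val + 1) % s, Nat.mod_lt _ hs0⟩) = 0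
        rw [h1, h2]
        ring
      · rw [ms_linkt S hs _ q ⟨q.val % s, Nat.mod_lt _ hs0⟩ ⟨(q.val + 1) % s, Nat.mod_lt _ hs0⟩ rfl rfl]
        have h1 := hout q.val (by omega)
        have h2 := hin (q.val + 1) hq
        rw [hzs] at h2
        show msum ((S ⟨q.val % s, Nat.mod_lt _ hs0⟩).cout (q.val / s))
            (κ ⟨q.val % s, Nat.mod_lt _ hs0⟩) +
          msum ((S ⟨(q.val + 1) % s, Nat.mod_lt _ hs0⟩).cin ((q.val + 1) / s))
            (κ ⟨(q.val + 1) % s, Nat.mod_lt _ hs0⟩) = 0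
        rw [h1, h2]
        ring
  · by_contra hcon
    push Not at hcon
    have hsum : ∑ a : CA S, κ a.1 a.2 = 0 := by
      rw [Fintype.sum_sigma]
      exact Finset.sum_eq_zero fun ω _ => (hκ ω).1
    have hall := (Finset.sum_eq_zero_iff_of_nonneg (fun a _ => hcon a)).1 hsum
    have h1 := hκ2 ⟨0, hs0⟩ 0 (by omega)
    simp only [zero_mul, zero_add] at h1
    rw [hz0] at h1
    have h2 : msum ((S ⟨0, hs0⟩).cin 0) (κ ⟨0, hs0⟩) = 0 := by
      unfold msum
      apply Finset.sum_eq_zero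
      intro x _
      have h3 := hall ⟨⟨0, hs0⟩, x⟩ (Finset.mem_univ _)
      simp only at h3
      rw [h3]
      simp
    rw [h2] at h1
    exact zero_ne_one h1

end Pool.Agent.MN
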