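import Pool.Agent.MN.ChMs

/-!
# MN-ChRig: rigidity of the chain

`Rigid v` (file Flat.lean): for `t` with `∑ t = 1` and all `ms v t j ∈ {0, 1}` there is `a₀` with
`ms v t j = if v a₀ j = true then 1 else 0` for all `j`.
The block masses are `0` or `1` (`ms_mass`) with sum `1` (`Fintype.sum_sigma`): exactly one `ω₀` has mass `1`.  By `rig0` the
restriction `κ ω = t ω` is homogeneous for `ω ≠ ω₀`; by `rig1` there is `x₀`, and `κ ω₀ = t ω₀ - point mass at x₀` is
homogeneous (`ms_blk`).  `a₀ = ⟨ω₀, x₀⟩`, `κ = t - point mass at a₀`.  Block coordinates and masses: clear.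
Links: let `D = msum (cout) (κ ω) + msum (cin) (κ ω')`; by `ms_linkt`, linearity: `ms v t j = (value of the point mass, which
is if v a₀ j then 1 else 0) + D`, so `D ∈ {-1, 0, 1}`; by `ms_linkf`, `hin'`, `hout'`: `D / 2 ∈ {-1, 0, 1}`; so `D = 0`.
(`q / s < K`, `(q + 1) / s < K` since `q + 1 < K * s`.)  The value of the point mass: `ms v (point mass at a₀) j =
if v a₀ j = true then 1 else 0` (`Finset.sum_ite_eq`-type; there is `ms_unit` in `Pool/Agent/Helper42/Asum/Array.lean`,
and `ms_add'`; copy them as private lemmas).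
-/

namespace Pool.Agent.MN

open Finset Pool.Agent.Helper42.Asum

variable {s K : ℕ}

private theorem msum_sub {B : Type*} [Fintype B] (P : B → Bool) (t t' : B → ℝ) :
    msum P (fun x => t x - t' x) = msum P t - msum P t' := by
  unfold msum
  rw [← Finset.sum_sub_distrib]
  refine Finset.sum_congr rfl fun x _ => ?_
  split_ifs
  · rfl
  · ring

private theorem msum_unit {B : Type*} [Fintype B] [DecidableEq B] (P : B → Bool) (x₀ : B) :
    msum P (fun x => if x = x₀ then (1 : ℝ) else 0) = if P x₀ = true then 1 else 0 := by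
  unfold msum
  rw [Finset.sum_eq_single x₀]
  · simp
  · intro x _ h
    simp [h]
  · intro h
    exact absurd (Finset.mem_univ _) h

private theorem ms_sub_aux {A J : Type*} [Fintype A] (v : A → J → Bool) (t t' : A → ℝ) (j : J) :
    ms v (fun a => t a - t' a) j = ms v t j - ms v t' j := by
  unfold ms
  rw [← Finset.sum_sub_distrib]
  refine Finset.sum_congr rfl fun x _ => ?_
  split_ifs
  · rfl
  · ring

private theorem ms_unit_aux {A J : Type*} [Fintype A] [DecidableEq A] (v : A → J → Bool) (a₀ : A)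
    (j : J) : ms v (fun a => if a = a₀ then (1 : ℝ) else 0) j = if v a₀ j = true then 1 else 0 := by
  unfold ms
  rw [Finset.sum_eq_single a₀]
  · simp
  · intro a _ h
    simp [h]
  · intro h
    exact absurd (Finset.mem_univ _) h

/-- numbers in `{0,1}` with sum one: exactly one of them is one -/
private theorem one_of_sum {n : ℕ} (f : Fin n → ℝ) (hf : ∀ i, f i = 0 ∨ f i = 1)
    (hs : ∑ i, f i = 1) : ∃ i₀, f i₀ = 1 ∧ ∀ i, i ≠ i₀ → f i = 0 := by
  have hnn : ∀ i, 0 ≤ f i := fun i => by rcases hf i with h | h <;> rw [h]; norm_num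
  have hex : ∃ i₀, f i₀ = 1 := by
    by_contra hno
    push Not at hno
    have : ∑ i, f i = 0 := Finset.sum_eq_zero fun i _ => (hf i).resolve_right (hno i)
    rw [this] at hs
    norm_num at hs
  obtain ⟨i₀, h0⟩ := hex
  refine ⟨i₀, h0, fun i hi => ?_⟩
  rcases hf i with h | h
  · exact h
  · exfalso
    have h2 : f i₀ + f i ≤ ∑ i, f i := by
      have h3 : ∑ j ∈ ({i₀, i} : Finset (Fin n)), f j = f i₀ + f i :=
        Finset.sum_pair (Ne.symm hi)
      rw [← h3]
      exact Finset.sum_le_sum_of_subset_of_nonneg (Finset.subset_univ _) fun j _ _ => hnn j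
    rw [h0, h, hs] at h2
    norm_num at h2

theorem chain_rigid (S : Fin s → Blk K) (hs : 2 ≤ s) : Rigid (cv S) := by
  intro t ht1 ht
  -- masses
  have hm : ∀ ω : Fin s, ∑ x, t ⟨ω, x⟩ = 0 ∨ ∑ x, t ⟨ω, x⟩ = 1 := fun ω => by
    have := ht (Sum.inr (Sum.inl ω))
    rwa [ms_mass] at this
  have hsum : ∑ ω : Fin s, ∑ x, t ⟨ω, x⟩ = 1 := by
    rw [← ht1, Fintype.sum_sigma]
  obtain ⟨ω₀, h1, h0⟩ := one_of_sum _ hm hsum
  have hb : ∀ (ω : Fin s) (i : (S ω).I),
      msum (fun x => (S ω).bs x i) (fun x => t ⟨ω, x⟩) = 0 ∨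
      msum (fun x => (S ω).bs x i) (fun x => t ⟨ω, x⟩) = 1 := fun ω i => by
    have := ht (Sum.inl ⟨ω, i⟩)
    rwa [ms_blk] at this
  obtain ⟨x₀, hx₀⟩ := (S ω₀).rig1 (fun x => t ⟨ω₀, x⟩) h1 (hb ω₀)
  let a₀ : CA S := ⟨ω₀, x₀⟩
  let κ : CA S → ℝ := fun a => t a - if a = a₀ then (1 : ℝ) else 0
  have hhom : ∀ ω, Hom (S ω).bs (fun x => κ ⟨ω, x⟩) := by
    intro ω
    by_cases hω : ω = ω₀
    · subst hω
      have e1 : ∀ x : (S ω).B, κ ⟨ω, x⟩ = t ⟨ω, x⟩ - if x = x₀ then (1 : ℝ) else 0 := by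
        intro x
        show t ⟨ω, x⟩ - (if (⟨ω, x⟩ : CA S) = ⟨ω, x₀⟩ then (1 : ℝ) else 0) = _
        by_cases hx : x = x₀
        · rw [hx, if_pos rfl, if_pos rfl]
        · rw [if_neg hx, if_neg]
          intro h
          apply hx
          have := Sigma.mk.inj_iff.1 h
          exact eq_of_heq this.2
      simp only [e1]
      refine ⟨?_, fun i => ?_⟩
      · rw [Finset.sum_sub_distrib, h1, Finset.sum_ite_eq' Finset.univ x₀, if_pos (Finset.mem_univ _),
          sub_self]
      · rw [msum_sub, msum_unit, hx₀ i, sub_self]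
    · have e1 : ∀ x : (S ω).B, κ ⟨ω, x⟩ = t ⟨ω, x⟩ := by
        intro x
        show t ⟨ω, x⟩ - (if (⟨ω, x⟩ : CA S) = ⟨ω₀, x₀⟩ then (1 : ℝ) else 0) = _
        rw [if_neg, sub_zero]
        intro h
        exact hω (Sigma.mk.inj_iff.1 h).1
      simp only [e1]
      exact (S ω).rig0 _ (h0 ω hω) (hb ω)
  have hκ : ∀ j, ms (cv S) κ j = ms (cv S) t j - if cv S a₀ j = true then 1 else 0 := by
    intro j
    show ms (cv S) (fun a => t a - if a = a₀ then (1 : ℝ) else 0) j = _
    rw [ms_sub_aux, ms_unit_aux]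
  have hκr : ∀ j, ms (cv S) κ j = -1 ∨ ms (cv S) κ j = 0 ∨ ms (cv S) κ j = 1 := by
    intro j
    rw [hκ]
    rcases ht j with h | h <;> rw [h] <;> split_ifs <;> norm_num
  have hlink : ∀ q : Fin (K * s - 1), ms (cv S) κ (Sum.inr (Sum.inr (q, true))) = 0 ∧
      ms (cv S) κ (Sum.inr (Sum.inr (q, false))) = 0 := by
    intro q
    have hs0 : 0 < s := by omega
    have hq := q.2
    let ω : Fin s := ⟨q.val % s, Nat.mod_lt _ hs0⟩
    let ω' : Fin s := ⟨(q.val + 1) % s, Nat.mod_lt _ hs0⟩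
    have hl : q.val / s < K := by
      rw [Nat.div_lt_iff_lt_mul hs0]
      omega
    have hl' : (q.val + 1) / s < K := by
      rw [Nat.div_lt_iff_lt_mul hs0]
      omega
    have e1 := ms_linkt S hs κ q ω ω' rfl rfl
    have e2 := ms_linkf S hs κ q ω ω' rfl rfl
    rw [(S ω).hout' _ (hhom ω) _ hl, (S ω').hin' _ (hhom ω') _ hl'] at e2
    have e3 : ms (cv S) κ (Sum.inr (Sum.inr (q, false))) =
        ms (cv S) κ (Sum.inr (Sum.inr (q, true))) / 2 := by
      rw [e1, e2]; ring
    have r1 := hκr (Sum.inr (Sum.inr (q, true)))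
    have r2 := hκr (Sum.inr (Sum.inr (q, false)))
    rw [e3] at r2 ⊢
    have r3 : ms (cv S) κ (Sum.inr (Sum.inr (q, true))) = 0 := by
      rcases r1 with r1 | r1 | r1
      · rw [r1] at r2
        norm_num at r2
      · exact r1
      · rw [r1] at r2
        norm_num at r2
    rw [r3]
    norm_num
  refine ⟨a₀, fun j => ?_⟩
  have hz : ms (cv S) κ j = 0 := by
    rcases j with ⟨ω, i⟩ | ω | ⟨q, b⟩
    · rw [ms_blk]
      exact (hhom ω).2 i
    · rw [ms_mass]
      exact (hhom ω).1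
    · cases b
      · exact (hlink q).2
      · exact (hlink q).1
  have := hκ j
  rw [hz] at this
  linarith

end Pool.Agent.MN
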