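import Pool.Agent.MN.Defs

/-!
# MN-Chan: the scalar recursion of one channel

`Rec m L T`: `ew m 0 T = 0` and `2 * nn m i T = L * ew m (i-1) T` for `2 ≤ i < 2^m`
(`nn m i T = (er m i T + ew m (i-1) T) / 2`, file `Pool/Agent/Helper42/Asum/Walsh.lean`).

`growth`: put `A i = |ew m i T|`.  By `growth_ineq m i` (for `2 ≤ i < 2^m`):
`|2^(pc m i) * nn m i T - ew m i T - ew m (i-1) T| ≤ ∑ s ∈ range (i-1), A s`, and `2 * nn = L * ew (i-1)`, `|L| = 2^k`,
so `A i ≥ 2^(pc m i) * 2^k / 2 * A (i-1) - A (i-1) - ∑ s ∈ range (i-1), A s`.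
Induction on `i ≥ 1`: `∑ s ∈ range i, A s ≤ A i` (i = 1: `A 0 = 0`; step: the sum over `range i` is at most `2 * A (i-1)`,
and `2^(pc m i) * 2^k / 2 - 2 ≥ 2` because `pc m i ≥ 1` for `i ≥ 1` (prove `1 ≤ pc m i` for `1 ≤ i < 2^m` by
induction on `m`) and `k ≥ 2`).  Hence `A i ≥ (2^(pc m i) * 2^k / 2 - 2) * A (i-1)` for `2 ≤ i < 2^m`, and the product.

`rec_unique`: if `Rec m L T` and `ew m 1 T = 0` then all `ew m i T = 0` (same induction: `A i ≤ ...`; more simply use
the upper bound `A i ≤ (2^(pc m i) * 2^k / 2 + 1) * A (i-1) + ∑ s ∈ range (i-1), A s` and strong induction), so `T = 0`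
by `ew_injective`.  For `m = 0` there is nothing (we assume `1 ≤ m`).

`exists_rec`: the linear map `(W m → ℝ) → (Fin (2^m) → ℝ)`, `T ↦ (i ↦ if i = 0 then ew m 0 T else if i = 1 then ew m 1 T
else 2 * nn m i T - L * ew m (i-1) T)` is injective by `rec_unique`, source and target have dimension `2^m`
(`card_W`), so it is surjective (`LinearMap.injective_iff_surjective_of_finrank_eq_finrank`); take the preimage of the
unit vector at `1`.  Linearity of `ew`, `er`: `ew_add`, `er_add` and `Finset.mul_sum`.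
-/

namespace Pool.Agent.MN

open Finset Pool.Agent.Helper42.Asum

/-- the recursion of one channel -/
def Rec (m : ℕ) (L : ℝ) (T : W m → ℝ) : Prop :=
  ew m 0 T = 0 ∧ ∀ i, 2 ≤ i → i < 2 ^ m → 2 * nn m i T = L * ew m (i - 1) T

/-- lower bound for the growth of one channel -/
noncomputable def gr (m k : ℕ) : ℝ :=
  ∏ i ∈ Finset.Ico 2 (2 ^ m), ((2 : ℝ) ^ (pc m i) * 2 ^ k / 2 - 2)

theorem one_le_pc (m : ℕ) (i : ℕ) (h1 : 1 ≤ i) (h2 : i < 2 ^ m) : 1 ≤ pc m i := by
  induction m generalizing i with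
  | zero => simp at h2; omega
  | succ m ih =>
    rw [pc]
    split_ifs with h
    · exact ih i h1 h
    · omega

private theorem cst_ge {m k : ℕ} (hk : 2 ≤ k) (i : ℕ) (h1 : 1 ≤ i) (h2 : i < 2 ^ m) :
    (4 : ℝ) ≤ (2 : ℝ) ^ (pc m i) * 2 ^ k / 2 := by
  have e1 : (2 : ℝ) ^ 1 ≤ 2 ^ (pc m i) :=
    pow_le_pow_right₀ (by norm_num) (one_le_pc m i h1 h2)
  have e2 : (2 : ℝ) ^ 2 ≤ 2 ^ k := pow_le_pow_right₀ (by norm_num) hk
  have e3 : (2 : ℝ) ^ 1 * 2 ^ 2 ≤ 2 ^ (pc m i) * 2 ^ k :=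
    mul_le_mul e1 e2 (by positivity) (by positivity)
  linarith

/-- both consequences of `growth_ineq` -/
private theorem step_bd {m k : ℕ} {L : ℝ} (hL : |L| = 2 ^ k) {T : W m → ℝ}
    (hT : Rec m L T) (i : ℕ) (h2 : 2 ≤ i) (hi : i < 2 ^ m) :
    (2 : ℝ) ^ (pc m i) * 2 ^ k / 2 * |ew m (i - 1) T| - |ew m (i - 1) T| -
      ∑ s ∈ range (i - 1), |ew m s T| ≤ |ew m i T| ∧
    |ew m i T| ≤ (2 : ℝ) ^ (pc m i) * 2 ^ k / 2 * |ew m (i - 1) T| + |ew m (i - 1) T| +
      ∑ s ∈ range (i - 1), |ew m s T| := by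
  have h := growth_ineq m i (by omega) hi T
  have hr := hT.2 i h2 hi
  have hX : |(2 : ℝ) ^ (pc m i) * nn m i T| =
      (2 : ℝ) ^ (pc m i) * 2 ^ k / 2 * |ew m (i - 1) T| := by
    have e1 : (2 : ℝ) ^ (pc m i) * nn m i T = (2 : ℝ) ^ (pc m i) / 2 * (L * ew m (i - 1) T) := by
      rw [← hr]; ring
    rw [e1, abs_mul, abs_mul, hL, abs_of_nonneg (by positivity)]
    ring
  rw [← hX]
  have a1 := abs_le.1 h
  constructor
  · have b1 : |(2 : ℝ) ^ (pc m i) * nn m i T| ≤
        |(2 : ℝ) ^ (pc m i) * nn m i T - ew m i T - ew m (i - 1) T| + |ew m i T| +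
          |ew m (i - 1) T| := by
      have e2 : (2 : ℝ) ^ (pc m i) * nn m i T =
        ((2 : ℝ) ^ (pc m i) * nn m i T - ew m i T - ew m (i - 1) T) + ew m i T +
          ew m (i - 1) T := by ring
      calc |(2 : ℝ) ^ (pc m i) * nn m i T| = |((2 : ℝ) ^ (pc m i) * nn m i T - ew m i T -
            ew m (i - 1) T) + ew m i T + ew m (i - 1) T| := by rw [← e2]
        _ ≤ _ := (abs_add_le _ _).trans (add_le_add_left (abs_add_le _ _) _)
    linarith
  · have b1 : |ew m i T| ≤ |(2 : ℝ) ^ (pc m i) * nn m i T| + |ew m (i - 1) T| +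
        |(2 : ℝ) ^ (pc m i) * nn m i T - ew m i T - ew m (i - 1) T| := by
      have e2 : ew m i T = (2 : ℝ) ^ (pc m i) * nn m i T + (-ew m (i - 1) T) +
        (-((2 : ℝ) ^ (pc m i) * nn m i T - ew m i T - ew m (i - 1) T)) := by ring
      calc |ew m i T| = |(2 : ℝ) ^ (pc m i) * nn m i T + (-ew m (i - 1) T) +
            (-((2 : ℝ) ^ (pc m i) * nn m i T - ew m i T - ew m (i - 1) T))| := by rw [← e2]
        _ ≤ _ := by
          refine (abs_add_le _ _).trans ?_
          rw [abs_neg]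
          refine add_le_add_left ?_ _
          refine (abs_add_le _ _).trans ?_
          rw [abs_neg]
    linarith

private theorem sum_le {m k : ℕ} (hk : 2 ≤ k) {L : ℝ} (hL : |L| = 2 ^ k) {T : W m → ℝ}
    (hT : Rec m L T) (i : ℕ) (h1 : 1 ≤ i) (hi : i < 2 ^ m) :
    ∑ s ∈ range i, |ew m s T| ≤ |ew m i T| := by
  induction i with
  | zero => omega
  | succ i ih =>
    rcases Nat.eq_zero_or_pos i with h0 | h0
    · subst h0
      rw [zero_add, Finset.sum_range_one, hT.1, abs_zero]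
      exact abs_nonneg _
    · have hIH := ih h0 (by omega)
      have hs := (step_bd hL hT (i + 1) (by omega) hi).1
      rw [Nat.add_sub_cancel] at hs
      have hc := cst_ge (m := m) hk (i + 1) (by omega) hi
      rw [Finset.sum_range_succ]
      have h3 := mul_le_mul_of_nonneg_right hc (abs_nonneg (ew m i T))
      linarith

private theorem step_low {m k : ℕ} (hk : 2 ≤ k) {L : ℝ} (hL : |L| = 2 ^ k) {T : W m → ℝ}
    (hT : Rec m L T) (i : ℕ) (h2 : 2 ≤ i) (hi : i < 2 ^ m) :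
    ((2 : ℝ) ^ (pc m i) * 2 ^ k / 2 - 2) * |ew m (i - 1) T| ≤ |ew m i T| := by
  have hs := (step_bd hL hT i h2 hi).1
  have h3 := sum_le hk hL hT (i - 1) (by omega) (by omega)
  linarith

private theorem growth_aux {m k : ℕ} (hk : 2 ≤ k) {L : ℝ} (hL : |L| = 2 ^ k) {T : W m → ℝ}
    (hT : Rec m L T) (j : ℕ) (h1 : 1 ≤ j) (hj : j < 2 ^ m) :
    (∏ i ∈ Finset.Ico 2 (j + 1), ((2 : ℝ) ^ (pc m i) * 2 ^ k / 2 - 2)) * |ew m 1 T| ≤
      |ew m j T| := by
  induction j with
  | zero => omega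
  | succ j ih =>
    rcases Nat.eq_zero_or_pos j with h0 | h0
    · subst h0
      simp
    · have hIH := ih h0 (by omega)
      have hs := step_low hk hL hT (j + 1) (by omega) hj
      rw [Nat.add_sub_cancel] at hs
      have hc := cst_ge (m := m) hk (j + 1) (by omega) hj
      rw [Finset.prod_Ico_succ_top (by omega)]
      have h3 := mul_le_mul_of_nonneg_left hIH
        (by linarith : (0 : ℝ) ≤ (2 : ℝ) ^ (pc m (j + 1)) * 2 ^ k / 2 - 2)
      calc _ = ((2 : ℝ) ^ (pc m (j + 1)) * 2 ^ k / 2 - 2) *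
            ((∏ i ∈ Finset.Ico 2 (j + 1), ((2 : ℝ) ^ (pc m i) * 2 ^ k / 2 - 2)) * |ew m 1 T|) := by
            ring
        _ ≤ _ := h3.trans hs

theorem growth {m k : ℕ} (hm : 1 ≤ m) (hk : 2 ≤ k) {L : ℝ} (hL : |L| = 2 ^ k) {T : W m → ℝ}
    (hT : Rec m L T) : gr m k * |ew m 1 T| ≤ |ew m (2 ^ m - 1) T| := by
  have h2 : 2 ^ 1 ≤ 2 ^ m := Nat.pow_le_pow_right (by norm_num) hm
  have h := growth_aux hk hL hT (2 ^ m - 1) (by omega) (by omega)
  have h3 : 2 ^ m - 1 + 1 = 2 ^ m := by omega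
  rw [h3] at h
  exact h

theorem rec_unique {m k : ℕ} (hm : 1 ≤ m) (hk : 2 ≤ k) {L : ℝ} (hL : |L| = 2 ^ k) {T : W m → ℝ}
    (hT : Rec m L T) (h1 : ew m 1 T = 0) : T = 0 := by
  have key : ∀ i, i < 2 ^ m → ew m i T = 0 := by
    intro i
    induction i using Nat.strong_induction_on with
    | _ i ih =>
      intro hi
      rcases Nat.lt_or_ge i 2 with h | h
      · interval_cases i
        · exact hT.1
        · exact h1
      · have hs := (step_bd hL hT i h hi).2
        rw [ih (i - 1) (by omega) (by omega), abs_zero, mul_zero, add_zero, zero_add,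
          Finset.sum_eq_zero] at hs
        · exact abs_nonpos_iff.1 hs
        · intro s hs'
          rw [Finset.mem_range] at hs'
          rw [ih s (by omega) (by omega), abs_zero]
  funext x
  exact ew_injective m T key x

private theorem ew_smul (m i : ℕ) (c : ℝ) (T : W m → ℝ) :
    ew m i (c • T) = c * ew m i T := by
  unfold ew
  rw [Finset.mul_sum]
  refine Finset.sum_congr rfl fun x _ => ?_
  rw [Pi.smul_apply, smul_eq_mul]
  ring

private theorem er_smul (m i : ℕ) (c : ℝ) (T : W m → ℝ) :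
    er m i (c • T) = c * er m i T := by
  unfold er
  rw [Finset.mul_sum]
  refine Finset.sum_congr rfl fun x _ => ?_
  rw [Pi.smul_apply, smul_eq_mul]
  ring

theorem exists_rec {m k : ℕ} (hm : 1 ≤ m) (hk : 2 ≤ k) {L : ℝ} (hL : |L| = 2 ^ k) :
    ∃ T : W m → ℝ, Rec m L T ∧ ew m 1 T = 1 := by
  have h2 : 2 ^ 1 ≤ 2 ^ m := Nat.pow_le_pow_right (by norm_num) hm
  let Φ : (W m → ℝ) →ₗ[ℝ] (Fin (2 ^ m) → ℝ) :=
    { toFun := fun T i => if i.val = 0 then ew m 0 T else if i.val = 1 then ew m 1 T else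
        2 * nn m i.val T - L * ew m (i.val - 1) T
      map_add' := fun T T' => by
        funext i
        have ea : ∀ j, ew m j (T + T') = ew m j T + ew m j T' := fun j => ew_add m j T T'
        have en : ∀ j, nn m j (T + T') = nn m j T + nn m j T' := fun j => nn_add m j T T'
        simp only [Pi.add_apply, ea, en]
        split_ifs <;> ring
      map_smul' := fun c T => by
        funext i
        have en : ∀ j, nn m j (c • T) = c * nn m j T := fun j => by
          unfold nn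
          rw [er_smul, ew_smul]
          ring
        simp only [Pi.smul_apply, smul_eq_mul, RingHom.id_apply, ew_smul, en]
        split_ifs <;> ring }
  have hΦ : ∀ (T : W m → ℝ) (i : Fin (2 ^ m)), Φ T i =
    if i.val = 0 then ew m 0 T else if i.val = 1 then ew m 1 T else
        2 * nn m i.val T - L * ew m (i.val - 1) T := fun T i => rfl
  have hinj : Function.Injective Φ := by
    rw [injective_iff_map_eq_zero]
    intro T hT0
    have hz : ∀ i : Fin (2 ^ m), Φ T i = 0 := fun i => by rw [hT0]; rfl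
    have h0 := hz ⟨0, by omega⟩
    have h1 := hz ⟨1, by omega⟩
    rw [hΦ, if_pos rfl] at h0
    rw [hΦ, if_neg (by norm_num), if_pos rfl] at h1
    refine rec_unique hm hk hL ⟨h0, fun i hi1 hi2 => ?_⟩ h1
    have h3 := hz ⟨i, hi2⟩
    rw [hΦ, if_neg (by show ¬ i = 0; omega), if_neg (by show ¬ i = 1; omega)] at h3
    linarith
  have hfr : Module.finrank ℝ (W m → ℝ) = Module.finrank ℝ (Fin (2 ^ m) → ℝ) := by
    rw [Module.finrank_fintype_fun_eq_card, Module.finrank_fintype_fun_eq_card, card_W,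
      Fintype.card_fin]
  have hsurj : Function.Surjective Φ :=
    (LinearMap.injective_iff_surjective_of_finrank_eq_finrank hfr).1 hinj
  obtain ⟨T, hT⟩ := hsurj (fun i => if i.val = 1 then 1 else 0)
  have hz : ∀ i : Fin (2 ^ m), Φ T i = if i.val = 1 then 1 else 0 := fun i => by rw [hT]
  refine ⟨T, ⟨?_, fun i hi1 hi2 => ?_⟩, ?_⟩
  · have h0 := hz ⟨0, by omega⟩
    rw [hΦ, if_pos rfl, if_neg (by norm_num)] at h0
    exact h0
  · have h3 := hz ⟨i, hi2⟩
    rw [hΦ, if_neg (by show ¬ i = 0; omega), if_neg (by show ¬ i = 1; omega),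
      if_neg (by show ¬ i = 1; omega)] at h3
    linarith
  · have h1 := hz ⟨1, by omega⟩
    rw [hΦ, if_neg (by norm_num), if_pos rfl, if_pos rfl] at h1
    exact h1

end Pool.Agent.MN
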