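import Pool.Agent.MN.Defs

/-!
# MN-Cnt: cardinalities

`card_Rt_le`: `{δ | nz δ ≤ 1}` is contained in the union over `j : Fin k` of `{δ | ∀ i ≠ j, δ i ≠ 0}` (k ≥ 1; if `nz δ = 0` any
`j` works), and each of these sets is `Fintype.piFinset (fun i => if i = j then univ else univ \ {0})` with
`4 * 3 ^ (k - 1)` elements (`Fintype.card_piFinset`, `Finset.prod_ite_eq`-type computation).
`card_Ct`: the three classes `nz δ ≤ 1`, `δ = 0`, and the rest are disjoint (k ≥ 2: `nz 0 = k ≥ 2`), total `4 ^ k`.
`ct_pos`: for `k ≥ 3` the word with exactly two zero digits.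
-/

namespace Pool.Agent.MN

open Finset

theorem card_Rt_le (k : ℕ) (hk : 1 ≤ k) : Fintype.card (Rt k) ≤ k * (4 * 3 ^ (k - 1)) := by
  classical
  haveI : Nonempty (Fin k) := ⟨⟨0, hk⟩⟩
  rw [Fintype.card_subtype]
  calc (univ.filter (fun δ : Gm k => nz δ ≤ 1)).card
      ≤ ((univ : Finset (Fin k)).biUnion (fun j => Fintype.piFinset
          (fun i : Fin k => if i = j then (univ : Finset (Fin 4)) else univ.erase 0))).card := by
        apply Finset.card_le_card
        intro δ hδ
        rw [mem_filter] at hδ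
        obtain ⟨j, hj⟩ := Finset.card_le_one_iff_subset_singleton.1 hδ.2
        rw [mem_biUnion]
        refine ⟨j, mem_univ j, ?_⟩
        rw [Fintype.mem_piFinset]
        intro i
        by_cases hi : i = j
        · rw [if_pos hi]
          exact mem_univ _
        · rw [if_neg hi, mem_erase]
          refine ⟨?_, mem_univ _⟩
          intro h0
          have h1 : i ∈ univ.filter (fun j => δ j = 0) := mem_filter.2 ⟨mem_univ _, h0⟩
          exact hi (mem_singleton.1 (hj h1))
    _ ≤ ∑ j : Fin k, (Fintype.piFinset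
          (fun i : Fin k => if i = j then (univ : Finset (Fin 4)) else univ.erase 0)).card :=
        Finset.card_biUnion_le
    _ = ∑ _j : Fin k, 4 * 3 ^ (k - 1) := by
        apply Finset.sum_congr rfl
        intro j _
        rw [Fintype.card_piFinset, ← Finset.mul_prod_erase univ _ (mem_univ j), if_pos rfl]
        have h1 : ∀ x ∈ univ.erase j, (if x = j then (univ : Finset (Fin 4)) else univ.erase 0).card
            = 3 := by
          intro x hx
          rw [if_neg (ne_of_mem_erase hx)]
          rfl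
        rw [Finset.prod_congr rfl h1, Finset.prod_const, Finset.card_erase_of_mem (mem_univ j)]
        simp
    _ = k * (4 * 3 ^ (k - 1)) := by
        rw [Finset.sum_const, Finset.card_univ, Fintype.card_fin, smul_eq_mul]

theorem card_Ct (k : ℕ) (hk : 2 ≤ k) : Fintype.card (Ct k) + Fintype.card (Rt k) + 1 = 4 ^ k := by
  classical
  rw [Fintype.card_subtype, Fintype.card_subtype]
  have h0 : nz (0 : Gm k) = k := by
    unfold nz
    simp
  have h1 : (univ.filter (fun δ : Gm k => 2 ≤ nz δ ∧ δ ≠ 0)) =
      (univ.filter (fun δ : Gm k => ¬ nz δ ≤ 1)).erase 0 := by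
    ext δ
    simp only [mem_filter, mem_univ, true_and, mem_erase]
    constructor
    · rintro ⟨h, h'⟩
      exact ⟨h', by omega⟩
    · rintro ⟨h, h'⟩
      exact ⟨by omega, h⟩
  have h2 : (0 : Gm k) ∈ univ.filter (fun δ : Gm k => ¬ nz δ ≤ 1) := by
    rw [mem_filter, h0]
    exact ⟨mem_univ _, by omega⟩
  have h3 : (univ.filter (fun δ : Gm k => nz δ ≤ 1)).card +
      (univ.filter (fun δ : Gm k => ¬ nz δ ≤ 1)).card = 4 ^ k := by
    rw [Finset.card_filter_add_card_filter_not, Finset.card_univ]
    simp
  have h4 : 0 < (univ.filter (fun δ : Gm k => ¬ nz δ ≤ 1)).card := Finset.card_pos.2 ⟨_, h2⟩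
  rw [h1, Finset.card_erase_of_mem h2]
  omega

end Pool.Agent.MN
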