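import Pool.Agent.Helper42.Asum.Walsh
import Pool.Agent.Helper42.Asum.Flat

/-!
# Project MN (MP_96963f_co): definitions

`M n = n ^ (n / 2) * 2 ^ (-Theta n)`.  Atoms of a block are the pairs `(x, γ)`, `x` in the cube `W m`,
`γ` a word of length `k` over four letters.
-/

namespace Pool.Agent.MN

open Finset Pool.Agent.Helper42.Asum

/-- Walsh functions of order four -/
def e4 : Fin 4 → Fin 4 → ℤ :=
  ![![1, 1, 1, 1], ![1, 1, -1, -1], ![1, -1, 1, -1], ![1, -1, -1, 1]]

/-- the real Walsh functions of order four -/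
noncomputable def e (a s : Fin 4) : ℝ := (e4 a s : ℝ)

/-- words of length `k` over four letters -/
abbrev Gm (k : ℕ) : Type := Fin k → Fin 4

/-- Walsh functions on words -/
noncomputable def chi {k : ℕ} (δ γ : Gm k) : ℝ := ∏ j, e (δ j) (γ j)

/-- the sign `(-1) ^ (Hamming distance)` -/
noncomputable def Hh {k : ℕ} (β γ : Gm k) : ℝ := ∏ j, if β j = γ j then (1 : ℝ) else -1

/-- eigenvalues of `Hh` -/
noncomputable def lam {k : ℕ} (δ : Gm k) : ℝ := ∏ j, if δ j = 0 then (-2 : ℝ) else 2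

/-- number of zero digits -/
def nz {k : ℕ} (δ : Gm k) : ℕ := (univ.filter (fun j => δ j = 0)).card

/-- words with at most one zero digit -/
abbrev Rt (k : ℕ) : Type := {δ : Gm k // nz δ ≤ 1}

/-- the free Walsh functions (channels): at least two zero digits, not all digits zero -/
abbrev Ct (k : ℕ) : Type := {δ : Gm k // 2 ≤ nz δ ∧ δ ≠ 0}

open Classical in
/-- the set where a sign function is `+1` -/
noncomputable def pos (x : ℝ) : Bool := decide (x = 1)

/-- sum over a set given by a Boolean function -/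
noncomputable def msum {B : Type*} [Fintype B] (S : B → Bool) (κ : B → ℝ) : ℝ :=
  ∑ x, if S x = true then κ x else 0

/-- all sums over the given sets vanish, total sum included -/
def Hom {B I : Type*} [Fintype B] (bs : B → I → Bool) (κ : B → ℝ) : Prop :=
  ∑ x, κ x = 0 ∧ ∀ i, msum (fun x => bs x i) κ = 0

/-- An abstract block with `K` channels. -/
structure Blk (K : ℕ) where
  B : Type
  I : Type
  [fB : Fintype B]
  [dB : DecidableEq B]
  [fI : Fintype I]
  [dI : DecidableEq I]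
  bs : B → I → Bool
  cin : ℕ → B → Bool
  cout : ℕ → B → Bool
  cin' : ℕ → B → Bool
  cout' : ℕ → B → Bool
  g : ℕ → ℝ
  ne : Nonempty B
  sep : ∀ x x' : B, x ≠ x' → ∃ i i' : I, i ≠ i' ∧ bs x i ≠ bs x' i ∧ bs x i' ≠ bs x' i'
  rig1 : ∀ t : B → ℝ, ∑ x, t x = 1 →
    (∀ i, msum (fun x => bs x i) t = 0 ∨ msum (fun x => bs x i) t = 1) →
    ∃ x₀, ∀ i, msum (fun x => bs x i) t = if bs x₀ i = true then 1 else 0
  rig0 : ∀ t : B → ℝ, ∑ x, t x = 0 →
    (∀ i, msum (fun x => bs x i) t = 0 ∨ msum (fun x => bs x i) t = 1) → Hom bs t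
  hout : ∀ κ : B → ℝ, Hom bs κ → ∀ l < K, msum (cout l) κ = g l * msum (cin l) κ
  hin' : ∀ κ : B → ℝ, Hom bs κ → ∀ l < K, msum (cin' l) κ = msum (cin l) κ / 2
  hout' : ∀ κ : B → ℝ, Hom bs κ → ∀ l < K, msum (cout' l) κ = msum (cout l) κ / 2
  inj : ∀ κ : B → ℝ, Hom bs κ → (∀ l < K, msum (cin l) κ = 0) → κ = 0
  ex : ∀ z : ℕ → ℝ, ∃ κ : B → ℝ, Hom bs κ ∧ ∀ l < K, msum (cin l) κ = z l

attribute [instance] Blk.fB Blk.dB Blk.fI Blk.dI

end Pool.Agent.MN
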