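import Pool.Agent.MN.Defs

/-!
# MN-Gam: Walsh functions on words of length `k` over four letters

Plan.  Digits: `e a s ∈ {1,-1}`, `∑ a, e a s * e a t = if s = t then 4 else 0`,
`∑ s, e a s * e b s = if a = b then 4 else 0`, `∑ s, e a s * (if s = t then 1 else -1) = (if a = 0 then -2 else 2) * e a t`
by `fin_cases` / `decide` on the integer table `e4` (`unfold e; norm_cast; revert ..; decide`).
Words: products, `Finset.prod_univ_sum` (`∏ j, ∑ a ∈ t j, f j a = ∑ δ ∈ Fintype.piFinset t, ∏ j, f j (δ j)`,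
`Fintype.piFinset_univ`) and `Finset.prod_ite_zero` / `Finset.prod_eq_zero`.
`eq_zero_of_chi`: multiply by `chi δ β`, sum over `δ`, use `sum_chi_chi`.
-/

namespace Pool.Agent.MN

open Finset Pool.Agent.Helper42.Asum

variable {k : ℕ}

private theorem sum_prod_words {k : ℕ} (f : Fin k → Fin 4 → ℝ) :
    ∑ δ : Gm k, ∏ j, f j (δ j) = ∏ j, ∑ a, f j a := by
  rw [Finset.prod_univ_sum, Fintype.piFinset_univ]

private theorem prod_ite_words {k : ℕ} (β γ : Gm k) :
    (∏ j, if β j = γ j then (4 : ℝ) else 0) = if β = γ then (4 : ℝ) ^ k else 0 := by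
  by_cases h : β = γ
  · subst h
    simp
  · rw [if_neg h]
    obtain ⟨j, hj⟩ := Function.ne_iff.1 h
    exact Finset.prod_eq_zero (mem_univ j) (if_neg hj)

private theorem sum_e_left (s t : Fin 4) :
    ∑ a, e a s * e a t = if s = t then (4 : ℝ) else 0 := by
  fin_cases s <;> fin_cases t <;> simp [Fin.sum_univ_four, e, e4] <;> norm_num

private theorem sum_e_right (a b : Fin 4) :
    ∑ s, e a s * e b s = if a = b then (4 : ℝ) else 0 := by
  fin_cases a <;> fin_cases b <;> simp [Fin.sum_univ_four, e, e4] <;> norm_num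

private theorem sum_e_ite (a t : Fin 4) :
    ∑ s, e a s * (if s = t then (1 : ℝ) else -1) = (if a = 0 then (-2 : ℝ) else 2) * e a t := by
  fin_cases a <;> fin_cases t <;> simp [Fin.sum_univ_four, e, e4] <;> norm_num

theorem e_sign (a s : Fin 4) : e a s = 1 ∨ e a s = -1 := by
  fin_cases a <;> fin_cases s <;> simp [e, e4]

private theorem sign_prod {k : ℕ} (f : Fin k → ℝ) (h : ∀ j, f j = 1 ∨ f j = -1) :
    ∏ j, f j = 1 ∨ ∏ j, f j = -1 := by
  refine Finset.prod_induction f (fun x => x = 1 ∨ x = -1) ?_ (Or.inl rfl) (fun j _ => h j)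
  rintro x y (hx | hx) (hy | hy) <;> simp [hx, hy]

theorem chi_sign (δ γ : Gm k) : chi δ γ = 1 ∨ chi δ γ = -1 :=
  sign_prod _ (fun j => e_sign (δ j) (γ j))

theorem Hh_sign (β γ : Gm k) : Hh β γ = 1 ∨ Hh β γ = -1 := by
  refine sign_prod _ (fun j => ?_)
  by_cases h : β j = γ j
  · exact Or.inl (if_pos h)
  · exact Or.inr (if_neg h)

theorem Hh_self (γ : Gm k) : Hh γ γ = 1 := by
  simp [Hh]

theorem chi_zero (γ : Gm k) : chi 0 γ = 1 := by
  refine Finset.prod_eq_one (fun j _ => ?_)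
  have h : ∀ s : Fin 4, e 0 s = 1 := by
    intro s
    fin_cases s <;> simp [e, e4]
  exact h (γ j)

theorem sum_chi_chi (β γ : Gm k) :
    ∑ δ : Gm k, chi δ β * chi δ γ = if β = γ then (4 : ℝ) ^ k else 0 := by
  have h : ∀ δ : Gm k, chi δ β * chi δ γ = ∏ j, (fun j a => e a (β j) * e a (γ j)) j (δ j) := by
    intro δ
    unfold chi
    rw [← Finset.prod_mul_distrib]
  rw [Finset.sum_congr rfl (fun δ _ => h δ),
    sum_prod_words (fun j a => e a (β j) * e a (γ j)), ← prod_ite_words]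
  exact Finset.prod_congr rfl (fun j _ => sum_e_left (β j) (γ j))

theorem sum_chi_chi' (δ ε : Gm k) :
    ∑ γ : Gm k, chi δ γ * chi ε γ = if δ = ε then (4 : ℝ) ^ k else 0 := by
  have h : ∀ γ : Gm k, chi δ γ * chi ε γ = ∏ j, (fun j s => e (δ j) s * e (ε j) s) j (γ j) := by
    intro γ
    unfold chi
    rw [← Finset.prod_mul_distrib]
  rw [Finset.sum_congr rfl (fun γ _ => h γ),
    sum_prod_words (fun j s => e (δ j) s * e (ε j) s), ← prod_ite_words]
  exact Finset.prod_congr rfl (fun j _ => sum_e_right (δ j) (ε j))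

theorem sum_chi_Hh (δ γ : Gm k) : ∑ β : Gm k, chi δ β * Hh β γ = lam δ * chi δ γ := by
  have h : ∀ β : Gm k, chi δ β * Hh β γ
      = ∏ j, (fun j s => e (δ j) s * (if s = γ j then (1 : ℝ) else -1)) j (β j) := by
    intro β
    unfold chi Hh
    rw [← Finset.prod_mul_distrib]
  rw [Finset.sum_congr rfl (fun β _ => h β),
    sum_prod_words (fun j s => e (δ j) s * (if s = γ j then (1 : ℝ) else -1))]
  unfold lam chi
  rw [← Finset.prod_mul_distrib]
  exact Finset.prod_congr rfl (fun j _ => sum_e_ite (δ j) (γ j))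

theorem abs_lam (δ : Gm k) : |lam δ| = 2 ^ k := by
  unfold lam
  rw [Finset.abs_prod]
  have h : ∀ j : Fin k, |if δ j = 0 then (-2 : ℝ) else 2| = 2 := by
    intro j
    split_ifs <;> simp
  rw [Finset.prod_congr rfl (fun j _ => h j)]
  simp

theorem eq_zero_of_chi (u : Gm k → ℝ) (h : ∀ δ : Gm k, ∑ γ : Gm k, chi δ γ * u γ = 0) : u = 0 := by
  funext β
  have h1 : ∑ δ : Gm k, chi δ β * ∑ γ : Gm k, chi δ γ * u γ = 0 :=
    Finset.sum_eq_zero (fun δ _ => by rw [h δ, mul_zero])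
  have h2 : ∑ δ : Gm k, chi δ β * ∑ γ : Gm k, chi δ γ * u γ
      = ∑ γ : Gm k, (∑ δ : Gm k, chi δ β * chi δ γ) * u γ := by
    simp only [Finset.mul_sum, Finset.sum_mul]
    rw [Finset.sum_comm]
    refine Finset.sum_congr rfl (fun γ _ => Finset.sum_congr rfl (fun δ _ => ?_))
    ring
  rw [h2] at h1
  simp only [sum_chi_chi] at h1
  simp only [ite_mul, zero_mul, Finset.sum_ite_eq, mem_univ, if_true] at h1
  have h4 : ((4 : ℝ) ^ k) ≠ 0 := by positivity
  simpa [h4] using h1

end Pool.Agent.MN
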