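import Pool.Agent.MN.RowSum
import Pool.Agent.MN.Chan

/-!
# MN-HomF: the homogeneous solutions of the block in terms of the transforms

`(→)`: `T δ x1 = msum over (x1, δ, true) - msum over (x1, δ, false) = 0` for `nz δ ≤ 1` (`chi δ γ = ±1`), and their sum is
`Tt κ 0 x1` (`chi_zero`; take `δ = fun _ => 1`, `nz = 0`), so `Tt κ 0 x1 = 0`.  `ew m 0 T = ∑ x, T x` (`ew_zero`) and
`∑ x, Tt κ δ x = ∑ γ, chi δ γ * ∑ x, κ (x, γ) = 0` by the coordinates `Sum.inr (Sum.inr γ)`.  Rows: `msum_pos`,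
`rowf_sign` give `∑ a, rowf i β a * κ a = 0` for every `β`, and `sum_rowf` gives
`lam δ * ew m (i-1) (Tt κ δ) - 2 * nn m i (Tt κ δ) = 0` (unfold `ew`, `er`, `nn`).
`(←)`: the same formulas backwards; rows: `u β := ∑ a, rowf i β a * κ a` satisfies `∑ β, chi δ β * u β = 0` for all `δ`
by `sum_rowf` and `Rec`, so `u = 0` by `eq_zero_of_chi`; similarly `∑ x, κ (x, γ) = 0` for every `γ`.
(For `i ∈ Finset.Ico 2 (2^m)`.)
-/

namespace Pool.Agent.MN

open Finset Pool.Agent.Helper42.Asum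

variable {m k : ℕ}

private theorem mB (κ : W m × Gm k → ℝ) (x : W m) (δ : Rt k) (s : Bool) :
    msum (fun a => bsf m k a (Sum.inr (Sum.inl (x, δ, s)))) κ =
      ∑ γ : Gm k, if (pos (chi δ.1 γ) == s) = true then κ (x, γ) else 0 := by
  unfold msum
  rw [Fintype.sum_prod_type, Finset.sum_eq_single x]
  · refine Finset.sum_congr rfl fun γ _ => ?_
    simp [bsf]
  · intro x' _ hx
    refine Finset.sum_eq_zero fun γ _ => ?_
    simp [bsf, hx]
  · intro h
    exact absurd (Finset.mem_univ _) h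

private theorem mC (κ : W m × Gm k → ℝ) (γ : Gm k) :
    msum (fun a => bsf m k a (Sum.inr (Sum.inr γ))) κ = ∑ x : W m, κ (x, γ) := by
  unfold msum
  rw [Fintype.sum_prod_type]
  refine Finset.sum_congr rfl fun x _ => ?_
  rw [Finset.sum_eq_single γ]
  · simp [bsf]
  · intro γ' _ h
    simp [bsf, h]
  · intro h
    exact absurd (Finset.mem_univ _) h

private theorem mA (κ : W m × Gm k → ℝ) (i : ↥(Finset.Ico 2 (2 ^ m))) (β : Gm k) :
    msum (fun a => bsf m k a (Sum.inl (i, β))) κ =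
      (∑ a, κ a + ∑ a, rowf i.1 β a * κ a) / 2 :=
  msum_pos (rowf i.1 β) (rowf_sign i.1 β) κ

private theorem pos_one : pos (1 : ℝ) = true := by simp [pos]

private theorem pos_neg_one : pos (-1 : ℝ) = false := by
  simp only [pos, decide_eq_false_iff_not]
  norm_num

private theorem mB_add (κ : W m × Gm k → ℝ) (x : W m) (δ : Rt k) :
    msum (fun a => bsf m k a (Sum.inr (Sum.inl (x, δ, true)))) κ +
      msum (fun a => bsf m k a (Sum.inr (Sum.inl (x, δ, false)))) κ = Tt κ 0 x := by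
  rw [mB, mB, Tt, ← Finset.sum_add_distrib]
  refine Finset.sum_congr rfl fun γ _ => ?_
  rw [chi_zero]
  rcases chi_sign δ.1 γ with h | h
  · rw [h, pos_one]; simp
  · rw [h, pos_neg_one]; simp

private theorem mB_sub (κ : W m × Gm k → ℝ) (x : W m) (δ : Rt k) :
    msum (fun a => bsf m k a (Sum.inr (Sum.inl (x, δ, true)))) κ -
      msum (fun a => bsf m k a (Sum.inr (Sum.inl (x, δ, false)))) κ = Tt κ δ.1 x := by
  rw [mB, mB, Tt, ← Finset.sum_sub_distrib]
  refine Finset.sum_congr rfl fun γ _ => ?_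
  rcases chi_sign δ.1 γ with h | h
  · rw [h, pos_one]; simp
  · rw [h, pos_neg_one]; simp

private theorem sum_Tt (κ : W m × Gm k → ℝ) (δ : Gm k) :
    ew m 0 (Tt κ δ) = ∑ γ : Gm k, chi δ γ * ∑ x : W m, κ (x, γ) := by
  rw [ew_zero]
  unfold Tt
  rw [Finset.sum_comm]
  exact Finset.sum_congr rfl fun γ _ => (Finset.mul_sum _ _ _).symm

private theorem sum_rowf' (κ : W m × Gm k → ℝ) (i : ℕ) (δ : Gm k) :
    ∑ β : Gm k, chi δ β * (∑ a, rowf i β a * κ a) =
      lam δ * ew m (i - 1) (Tt κ δ) - 2 * nn m i (Tt κ δ) := by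
  rw [sum_rowf]
  unfold nn er ew
  rw [mul_div_cancel₀ _ (two_ne_zero), ← Finset.sum_add_distrib, Finset.mul_sum,
    ← Finset.sum_sub_distrib]
  exact Finset.sum_congr rfl fun x _ => by ring

private def oneRt (k : ℕ) : Rt k := ⟨fun _ => 1, by
  unfold nz
  rw [Finset.filter_false_of_mem]
  · simp
  · intro j _
    exact one_ne_zero⟩

theorem hom_iff (κ : W m × Gm k → ℝ) :
    Hom (bsf m k) κ ↔ (∀ δ : Gm k, (nz δ ≤ 1 ∨ δ = 0) → ∀ x, Tt κ δ x = 0) ∧
      ∀ δ : Gm k, Rec m (lam δ) (Tt κ δ) := by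
  constructor
  · rintro ⟨h0, h⟩
    refine ⟨?_, fun δ => ⟨?_, fun i hi1 hi2 => ?_⟩⟩
    · rintro δ (hδ | hδ) x
      · rw [show δ = (⟨δ, hδ⟩ : Rt k).1 from rfl, ← mB_sub, h, h, sub_zero]
      · rw [hδ, ← mB_add κ x (oneRt k), h, h, add_zero]
    · rw [sum_Tt]
      refine Finset.sum_eq_zero fun γ _ => ?_
      rw [← mC, h, mul_zero]
    · have h1 := sum_rowf' κ i δ
      have h2 : ∀ β : Gm k, ∑ a, rowf i β a * κ a = 0 := by
        intro β
        have h3 := h (Sum.inl (⟨i, Finset.mem_Ico.2 ⟨hi1, hi2⟩⟩, β))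
        rw [mA, h0] at h3
        linarith
      simp only [h2, mul_zero, Finset.sum_const_zero] at h1
      linarith
  · rintro ⟨hz, hR⟩
    have hu : ∀ γ : Gm k, ∑ x : W m, κ (x, γ) = 0 := by
      intro γ
      have := eq_zero_of_chi (fun γ => ∑ x : W m, κ (x, γ)) (fun δ => by
        rw [← sum_Tt]
        exact (hR δ).1)
      exact congrFun this γ
    have h0 : ∑ a, κ a = 0 := by
      rw [Fintype.sum_prod_type, Finset.sum_comm]
      exact Finset.sum_eq_zero fun γ _ => hu γ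
    refine ⟨h0, ?_⟩
    rintro (⟨i, β⟩ | ⟨x, δ, s⟩ | γ)
    · have h1 : ∀ β : Gm k, ∑ a, rowf i.1 β a * κ a = 0 := by
        intro β
        have := eq_zero_of_chi (fun β => ∑ a, rowf i.1 β a * κ a) (fun δ => by
          rw [sum_rowf', (hR δ).2 i.1 (Finset.mem_Ico.1 i.2).1 (Finset.mem_Ico.1 i.2).2, sub_self])
        exact congrFun this β
      rw [mA, h0, h1]
      norm_num
    · have h1 := mB_add κ x δ
      have h2 := mB_sub κ x δ
      rw [hz 0 (Or.inr rfl)] at h1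
      rw [hz δ.1 (Or.inl δ.2)] at h2
      cases s
      · linarith
      · linarith
    · rw [mC]
      exact hu γ

end Pool.Agent.MN
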