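import Pool.Agent.MN.Chan
import Pool.Agent.Helper42.Asum.BaseSys

/-!
# MN-LogGr: lower bound for the logarithm of the growth

`gr m k = ∏ i ∈ Ico 2 (2^m), (2^(pc m i) * 2^k / 2 - 2)`.  Each factor is `≥ 2^(pc m i) * 2^k / 2 * (1 - 2 / 2^k)` because
`pc m i ≥ 1` (`one_le_pc`); its logarithm (base 2) is `≥ pc m i + (k - 1) - 4 / 2^k` (`logb 2 (1 - x) ≥ - 2 x` for
`0 ≤ x ≤ 1/2`: `Real.log_le_sub_one_of_pos` for `1/(1-x)`: `- log (1 - x) ≤ x / (1 - x) ≤ 2 x`... note `log 2 < 1`, so use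
`- log (1 - x) ≤ x + x^2` or: it is enough that `- log (1-x) ≤ 2 * log 2 * x` for `0 ≤ x ≤ 1/4`, from
`- log (1 - x) ≤ x / (1 - x) ≤ 4/3 x ≤ 2 * log 2 * x` (`log 2 > 0.69`); here `x = 2 / 2^k ≤ 1/4`).
Sum over `i ∈ Ico 2 (2^m)` (`2^m - 2` terms): `∑ pc m i = m * 2^m / 2 - 1` by `sum_pc_Ico` in
`Pool/Agent/Helper42/Asum/BaseSys.lean`.  All factors are positive (`Real.logb_prod`).
-/

namespace Pool.Agent.MN

open Finset Pool.Agent.Helper42.Asum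

private theorem fac_pos {p k : ℕ} (hp : 1 ≤ p) (hk : 3 ≤ k) :
    (2 : ℝ) ^ p * 2 ^ k / 2 * (1 - 2 / 2 ^ k) ≤ (2 : ℝ) ^ p * 2 ^ k / 2 - 2 ∧
      (2 : ℝ) / 2 ^ k ≤ 1 / 4 := by
  have h1 : (2 : ℝ) ≤ 2 ^ p := by
    calc (2 : ℝ) = 2 ^ 1 := by norm_num
      _ ≤ 2 ^ p := pow_le_pow_right₀ (by norm_num) hp
  have h2 : (8 : ℝ) ≤ 2 ^ k := by
    calc (8 : ℝ) = 2 ^ 3 := by norm_num
      _ ≤ 2 ^ k := pow_le_pow_right₀ (by norm_num) hk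
  have h3 : (0 : ℝ) < 2 ^ k := by positivity
  constructor
  · have h4 : (2 : ℝ) ^ p * 2 ^ k / 2 * (1 - 2 / 2 ^ k) = (2 : ℝ) ^ p * 2 ^ k / 2 - 2 ^ p := by
      field_simp
    rw [h4]
    linarith
  · rw [div_le_div_iff₀ h3 (by norm_num)]
    linarith

private theorem logb_aux {x : ℝ} (hx0 : 0 < x) (hx : x ≤ 1 / 4) :
    - (2 * x) ≤ Real.logb 2 (1 - x) := by
  have h1 : 0 < 1 - x := by linarith
  have h2 := Real.one_sub_inv_le_log_of_pos h1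
  have h3 := Real.log_two_gt_d9
  have h4 : (1 - x)⁻¹ ≤ 1 + 4 / 3 * x := by
    rw [inv_eq_one_div, div_le_iff₀ h1]
    nlinarith
  unfold Real.logb
  rw [le_div_iff₀ (by linarith)]
  nlinarith

private theorem fac_log {p k : ℕ} (hp : 1 ≤ p) (hk : 3 ≤ k) :
    0 < (2 : ℝ) ^ p * 2 ^ k / 2 - 2 ∧
      (p : ℝ) + ((k - 1) - 4 / 2 ^ k) ≤ Real.logb 2 ((2 : ℝ) ^ p * 2 ^ k / 2 - 2) := by
  obtain ⟨h1, h2⟩ := fac_pos hp hk
  have h3 : (0 : ℝ) < 2 ^ k := by positivity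
  have h4 : (0 : ℝ) < 2 ^ p * 2 ^ k / 2 := by positivity
  have hx0 : (0 : ℝ) < 2 / 2 ^ k := by positivity
  have h5 : (0 : ℝ) < 1 - 2 / 2 ^ k := by linarith
  have h6 : (0 : ℝ) < 2 ^ p * 2 ^ k / 2 * (1 - 2 / 2 ^ k) := mul_pos h4 h5
  refine ⟨lt_of_lt_of_le h6 h1, ?_⟩
  have h7 : Real.logb 2 ((2 : ℝ) ^ p * 2 ^ k / 2 * (1 - 2 / 2 ^ k))
      ≤ Real.logb 2 ((2 : ℝ) ^ p * 2 ^ k / 2 - 2) :=
    Real.logb_le_logb_of_le (by norm_num) h6 h1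
  have h8 : Real.logb 2 ((2 : ℝ) ^ p * 2 ^ k / 2 * (1 - 2 / 2 ^ k))
      = (p : ℝ) + (k - 1) + Real.logb 2 (1 - 2 / 2 ^ k) := by
    rw [Real.logb_mul h4.ne' h5.ne', Real.logb_div (by positivity) (by norm_num),
      Real.logb_mul (by positivity) (by positivity), Real.logb_pow, Real.logb_pow,
      Real.logb_self_eq_one (by norm_num)]
    ring
  have h9 := logb_aux hx0 h2
  have h10 : 2 * ((2 : ℝ) / 2 ^ k) = 4 / 2 ^ k := by ring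
  rw [h10] at h9
  linarith

theorem gr_pos (m k : ℕ) (hk : 3 ≤ k) : 0 < gr m k := by
  unfold gr
  apply Finset.prod_pos
  intro i hi
  rw [Finset.mem_Ico] at hi
  exact (fac_log (one_le_pc m i (by omega) hi.2) hk).1

theorem log_gr (m k : ℕ) (hm : 1 ≤ m) (hk : 3 ≤ k) :
    (m : ℝ) / 2 * 2 ^ m + (k - 1) * 2 ^ m - 4 / 2 ^ k * 2 ^ m - 2 * k ≤ Real.logb 2 (gr m k) := by
  unfold gr
  rw [Real.logb_prod]
  · have h1 : ∑ i ∈ Finset.Ico 2 (2 ^ m), ((pc m i : ℝ) + (((k : ℝ) - 1) - 4 / 2 ^ k))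
        ≤ ∑ i ∈ Finset.Ico 2 (2 ^ m), Real.logb 2 ((2 : ℝ) ^ (pc m i) * 2 ^ k / 2 - 2) := by
      apply Finset.sum_le_sum
      intro i hi
      rw [Finset.mem_Ico] at hi
      exact (fac_log (one_le_pc m i (by omega) hi.2) hk).2
    refine le_trans ?_ h1
    rw [Finset.sum_add_distrib, Finset.sum_const, Nat.card_Ico, nsmul_eq_mul]
    have h2 : (2 : ℕ) ≤ 2 ^ m := by
      calc 2 = 2 ^ 1 := by norm_num
        _ ≤ 2 ^ m := Nat.pow_le_pow_right (by norm_num) hm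
    have h3 := sum_pc_Ico hm
    have h4 : 2 * (∑ s ∈ Finset.Ico 2 (2 ^ m), (pc m s : ℝ)) + 2 = m * 2 ^ m := by
      exact_mod_cast h3
    rw [Nat.cast_sub h2]
    push_cast
    have h5 : (0 : ℝ) < 8 / 2 ^ k := by positivity
    have h6 : (8 : ℝ) / 2 ^ k = 2 * (4 / 2 ^ k) := by ring
    nlinarith
  · intro i hi
    rw [Finset.mem_Ico] at hi
    exact (fac_log (one_le_pc m i (by omega) hi.2) hk).1.ne'

end Pool.Agent.MN
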