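import Pool.Agent.MN.Gam

/-!
# MN-Pat: positive combinations with the legitimate sign patterns

`thick`: `P β = ∏ j, (if β j = γ j then 3 else -1)`; since `(if s = t then 3 else -1) = ∑ a ≠ 0, e a s * e a t`
(a ranges over 1, 2, 3), `P β = ∑ δ, chi δ γ * chi δ β` over the words `δ` without zero digit
(`Finset.prod_univ_sum`), and `P β * Hh β γ = ∏ j, (if β j = γ j then 3 else 1) > 0`.

`thin`: `P' β = P β * (D β - 1/2)`, `D β = ∑ j, (if β j = γ j then 0 else 1)` (Hamming distance, `≥ 1` if `β ≠ γ`,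
`= 0` if `β = γ`).  Then `P' β * (if γ = β then -1 else Hh β γ) > 0`.  For each `j` the function
`β ↦ (if β j = γ j then 0 else 1) * P β = ∏ i, q i (β i)` with `q i s = (if s = γ i then 3 else -1)` for `i ≠ j` and
`q j s = (if s = γ j then 0 else -1) = (1/4) ∑ a ≠ 0, e a s * e a (γ j) - 3/4`, hence it is
`∑ δ, (∏ i, c i (δ i)) * chi δ β` with `c i 0 = 0`, `c i a = e a (γ i)` for `i ≠ j`, and `c j 0 = -3/4`,
`c j a = e a (γ j) / 4`: only words `δ` with at most one zero digit (the digit `j`) occur.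
Weights: `w δ = ` sum of all these coefficients.  To pass from all words to `Rt k` use
`Finset.sum_subtype` / `Finset.sum_filter` (coefficients vanish if `nz δ > 1`).
-/

namespace Pool.Agent.MN

open Finset Pool.Agent.Helper42.Asum

variable {k : ℕ}

private noncomputable def cc (γ : Gm k) (i : Fin k) (a : Fin 4) : ℝ :=
  if a = 0 then 0 else e a (γ i)

private noncomputable def dd (γ : Gm k) (j i : Fin k) (a : Fin 4) : ℝ :=
  if i = j then (if a = 0 then -(3 / 4) else e a (γ j) / 4) else cc γ i a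

private noncomputable def PP (γ β : Gm k) : ℝ := ∏ j, if β j = γ j then (3 : ℝ) else -1

private noncomputable def DD (γ β : Gm k) : ℝ := ∑ j, if β j = γ j then (0 : ℝ) else 1

private theorem e_zero (s : Fin 4) : e 0 s = 1 := by
  have h : ∀ s : Fin 4, e4 0 s = 1 := by decide
  unfold e
  exact_mod_cast h s

private theorem dig1 (s t : Fin 4) :
    ∑ a : Fin 4, (if a = 0 then (0 : ℝ) else e a t) * e a s = if s = t then 3 else -1 := by
  have h : ∀ s t : Fin 4, (∑ a : Fin 4, (if a = 0 then (0 : ℤ) else e4 a t) * e4 a s) =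
      if s = t then 3 else -1 := by decide
  unfold e
  exact_mod_cast h s t

private theorem dig2 (s t : Fin 4) :
    ∑ a : Fin 4, (if a = 0 then (-(3 / 4) : ℝ) else e a t / 4) * e a s =
      if s = t then 0 else -1 := by
  have h1 := dig1 s t
  rw [Fin.sum_univ_four] at h1 ⊢
  rw [if_pos rfl, if_neg (by decide), if_neg (by decide), if_neg (by decide)] at h1 ⊢
  rw [e_zero]
  by_cases h : s = t
  · rw [if_pos h] at h1 ⊢
    linarith
  · rw [if_neg h] at h1 ⊢
    linarith

private theorem prod_sum (c : Fin k → Fin 4 → ℝ) (β : Gm k) :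
    ∑ δ : Gm k, (∏ i, c i (δ i)) * chi δ β = ∏ i, ∑ a, c i a * e a (β i) := by
  rw [Finset.prod_univ_sum, Fintype.piFinset_univ]
  apply sum_congr rfl
  intro δ _
  unfold chi
  rw [← prod_mul_distrib]

private theorem pat_gen (W : Gm k → ℝ) (hW : ∀ δ, ¬ nz δ ≤ 1 → W δ = 0) (β : Gm k) :
    ∑ δ : Rt k, W δ.1 * chi δ.1 β = ∑ δ : Gm k, W δ * chi δ β := by
  rw [← Finset.sum_subtype (univ.filter (fun δ : Gm k => nz δ ≤ 1)) (p := fun δ => nz δ ≤ 1)
    (by intro x; rw [mem_filter]; exact ⟨fun h => h.2, fun h => ⟨mem_univ _, h⟩⟩)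
    (fun δ => W δ * chi δ β)]
  apply Finset.sum_subset (filter_subset _ _)
  intro δ _ hδ
  have h1 : ¬ nz δ ≤ 1 := fun h => hδ (by rw [mem_filter]; exact ⟨mem_univ _, h⟩)
  rw [hW δ h1, zero_mul]

private theorem cc_sum (γ β : Gm k) :
    ∑ δ : Gm k, (∏ i, cc γ i (δ i)) * chi δ β = PP γ β := by
  rw [prod_sum]
  unfold PP cc
  apply prod_congr rfl
  intro i _
  rw [dig1]

private theorem dd_sum (γ β : Gm k) (j : Fin k) :
    ∑ δ : Gm k, (∏ i, dd γ j i (δ i)) * chi δ β =
      (if β j = γ j then (0 : ℝ) else 1) * PP γ β := by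
  rw [prod_sum]
  unfold PP
  rw [← Finset.mul_prod_erase univ _ (mem_univ j),
    ← Finset.mul_prod_erase univ (fun j => if β j = γ j then (3 : ℝ) else -1) (mem_univ j)]
  have h1 : ∑ a : Fin 4, dd γ j j a * e a (β j) =
      (if β j = γ j then (0 : ℝ) else 1) * (if β j = γ j then (3 : ℝ) else -1) := by
    unfold dd
    simp only [if_true]
    rw [dig2]
    by_cases h : β j = γ j
    · rw [if_pos h, if_pos h, if_pos h, zero_mul]
    · rw [if_neg h, if_neg h, if_neg h, one_mul]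
  rw [h1, mul_assoc]
  congr 2
  apply prod_congr rfl
  intro i hi
  have hij := ne_of_mem_erase hi
  have h2 : ∀ a, dd γ j i a = if a = 0 then 0 else e a (γ i) := by
    intro a
    unfold dd cc
    rw [if_neg hij]
  simp only [h2]
  rw [dig1]

private theorem cc_zero (γ : Gm k) (δ : Gm k) (h : ¬ nz δ ≤ 1) : ∏ i, cc γ i (δ i) = 0 := by
  have h1 : 0 < nz δ := by omega
  obtain ⟨i, hi⟩ := Finset.card_pos.1 h1
  apply Finset.prod_eq_zero (mem_univ i)
  unfold cc
  rw [if_pos (mem_filter.1 hi).2]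

private theorem dd_zero (γ : Gm k) (j : Fin k) (δ : Gm k) (h : ¬ nz δ ≤ 1) :
    ∏ i, dd γ j i (δ i) = 0 := by
  have h1 : 1 < nz δ := by omega
  obtain ⟨i, hi, hij⟩ := Finset.exists_mem_ne h1 j
  apply Finset.prod_eq_zero (mem_univ i)
  unfold dd cc
  rw [if_neg hij, if_pos (mem_filter.1 hi).2]

private theorem PP_Hh (γ β : Gm k) : 0 < PP γ β * Hh β γ := by
  unfold PP Hh
  rw [← prod_mul_distrib]
  apply Finset.prod_pos
  intro j _
  by_cases h : β j = γ j
  · rw [if_pos h, if_pos h]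
    norm_num
  · rw [if_neg h, if_neg h]
    norm_num

theorem thick (γ : Gm k) : ∃ w : Rt k → ℝ, ∀ β : Gm k,
    0 < (∑ δ : Rt k, w δ * chi δ.1 β) * Hh β γ := by
  refine ⟨fun δ => ∏ i, cc γ i (δ.1 i), fun β => ?_⟩
  rw [pat_gen (fun δ => ∏ i, cc γ i (δ i)) (cc_zero γ) β, cc_sum]
  exact PP_Hh γ β

theorem thin (γ : Gm k) : ∃ w : Rt k → ℝ, ∀ β : Gm k,
    0 < (∑ δ : Rt k, w δ * chi δ.1 β) * (if γ = β then (-1 : ℝ) else Hh β γ) := by
  refine ⟨fun δ => (∑ j, ∏ i, dd γ j i (δ.1 i)) - 1 / 2 * ∏ i, cc γ i (δ.1 i), fun β => ?_⟩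
  rw [pat_gen (fun δ => (∑ j, ∏ i, dd γ j i (δ i)) - 1 / 2 * ∏ i, cc γ i (δ i)) ?_ β]
  · have h1 : ∑ δ : Gm k, ((∑ j, ∏ i, dd γ j i (δ i)) - 1 / 2 * ∏ i, cc γ i (δ i)) * chi δ β =
        (DD γ β - 1 / 2) * PP γ β := by
      have h2 : ∀ δ : Gm k, ((∑ j, ∏ i, dd γ j i (δ i)) - 1 / 2 * ∏ i, cc γ i (δ i)) * chi δ β =
          (∑ j, (∏ i, dd γ j i (δ i)) * chi δ β) - 1 / 2 * ((∏ i, cc γ i (δ i)) * chi δ β) := by
        intro δ
        rw [sub_mul, Finset.sum_mul, mul_assoc]
      rw [Finset.sum_congr rfl (fun δ _ => h2 δ), Finset.sum_sub_distrib, ← Finset.mul_sum,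
        cc_sum, Finset.sum_comm, Finset.sum_congr rfl (fun j _ => dd_sum γ β j),
        ← Finset.sum_mul, sub_mul]
      rfl
    rw [h1]
    have hP := PP_Hh γ β
    by_cases h : γ = β
    · rw [if_pos h]
      subst h
      have hD : DD γ γ = 0 := by
        unfold DD
        apply Finset.sum_eq_zero
        intro j _
        rw [if_pos rfl]
      have hH : Hh γ γ = 1 := by
        unfold Hh
        apply Finset.prod_eq_one
        intro j _
        rw [if_pos rfl]
      rw [hH, mul_one] at hP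
      rw [hD]
      linarith
    · rw [if_neg h]
      obtain ⟨j, hj⟩ : ∃ j, β j ≠ γ j := by
        by_contra hc
        apply h
        funext j
        by_contra hne
        exact hc ⟨j, fun h2 => hne h2.symm⟩
      have hD : 1 ≤ DD γ β := by
        unfold DD
        have h3 : (if β j = γ j then (0 : ℝ) else 1) ≤ ∑ j, if β j = γ j then (0 : ℝ) else 1 :=
          Finset.single_le_sum (f := fun j => if β j = γ j then (0 : ℝ) else 1)
            (fun i _ => by split_ifs <;> norm_num) (mem_univ j)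
        rwa [if_neg hj] at h3
      have h4 : (DD γ β - 1 / 2) * PP γ β * Hh β γ = (DD γ β - 1 / 2) * (PP γ β * Hh β γ) := by
        ring
      rw [h4]
      exact mul_pos (by linarith) hP
  · intro δ hδ
    rw [cc_zero γ δ hδ, mul_zero, sub_zero]
    apply Finset.sum_eq_zero
    intro j _
    exact dd_zero γ j δ hδ

end Pool.Agent.MN
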