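import Pool.Agent.MN.RowSum
import Pool.Agent.MN.Pat

/-!
# MN-Rig: rigidity of the block by positivity

Common facts.  Write `E (x, δ, s) = msum over the coordinate Sum.inr (Sum.inl (x, δ, s))`, in `{0, 1}`.
For `nz δ ≤ 1`: `E (x, δ, true) + E (x, δ, false) = τ x := ∑ γ, t (x, γ) ≥ 0`,
`E (x, δ, true) - E (x, δ, false) = Tt t δ x` (`chi δ γ = ±1`).  `∑ x, τ x = ∑ t`.

`rig_zero` (`∑ t = 0`): all `τ x = 0` (nonnegative numbers with sum `0`; take `δ = fun _ => 1`), so all `E = 0`.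
The masses `msum over Sum.inr (Sum.inr γ)` are in `{0,1}` with sum `0`, so they vanish.  Rows: by `msum_pos`
`y β := msum (row i β) = (∑ a, rowf i β a * t a) / 2 ∈ {0,1}`; `sum_rowf` with `δ = 0` (`chi_zero`) and `Tt t 0 x = τ x = 0`
gives `∑ β, y β = 0`, so all `y β = 0`.

`rig_one` (`∑ t = 1`): `τ x` is a sum of two numbers in `{0,1}`, all `τ x ≥ 0` are integers with sum `1`, so there is `x₀`
with `τ x₀ = 1` and `τ x = 0` otherwise; hence `E (x, δ, s) = 0` for `x ≠ x₀` and `Tt t δ x = 0` there.  The masses give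
`γ₀` with `∑ x, t (x, γ) = if γ = γ₀ then 1 else 0`.  For `nz δ ≤ 1`: `Tt t δ x₀ = ∑ x, Tt t δ x =
∑ γ, chi δ γ * ∑ x, t (x, γ) = chi δ γ₀`, so `E (x₀, δ, s)` is right.  Rows: by `msum_pos` `Y β := ∑ a, rowf i β a * t a`
is `±1`; for `nz δ ≤ 1` `sum_rowf` for `t` and for the point mass at `(x₀, γ₀)` gives
`∑ β, chi δ β * Y β = ∑ β, chi δ β * rowf i β (x₀, γ₀)`.  So `∑ β, ν β * (Y β - rowf i β (x₀, γ₀)) = 0` for all
`ν β = ∑ δ : Rt k, w δ * chi δ.1 β`.  Choose `w` from `thick` or `thin` (and the sign `sg (wb m (i-1) x₀)`) such that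
`0 < ν β * rowf i β (x₀, γ₀)` for all `β` (if `-sg (rr m i x₀) = sg (wb m (i-1) x₀)` use `thick`, with `Hh_self`; else
`thin`).  Each term is `≤ 0`, with equality only if `Y β = rowf i β (x₀, γ₀)`.
-/

namespace Pool.Agent.MN

open Finset Pool.Agent.Helper42.Asum

variable {m k : ℕ}

private theorem rig_E (t : W m × Gm k → ℝ) (x : W m) (δ : Rt k) :
    msum (fun a => bsf m k a (Sum.inr (Sum.inl (x, δ, true)))) t =
      ((∑ γ, t (x, γ)) + Tt t δ.1 x) / 2 ∧
    msum (fun a => bsf m k a (Sum.inr (Sum.inl (x, δ, false)))) t =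
      ((∑ γ, t (x, γ)) - Tt t δ.1 x) / 2 := by
  have h : ∀ s : Bool, msum (fun a => bsf m k a (Sum.inr (Sum.inl (x, δ, s)))) t =
      ∑ γ, if (pos (chi δ.1 γ) == s) = true then t (x, γ) else 0 := by
    intro s
    unfold msum
    rw [Fintype.sum_prod_type, Finset.sum_eq_single x]
    · refine Finset.sum_congr rfl (fun γ _ => ?_)
      simp only [bsf, decide_true, Bool.true_and]
    · intro x' _ hx'
      refine Finset.sum_eq_zero (fun γ _ => ?_)
      simp only [bsf, hx', decide_false, Bool.false_and]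
      simp
    · intro hx
      exact absurd (Finset.mem_univ x) hx
  constructor
  · rw [h, Tt, ← Finset.sum_add_distrib, Finset.sum_div]
    refine Finset.sum_congr rfl (fun γ _ => ?_)
    rcases chi_sign δ.1 γ with h1 | h1
    · rw [h1]
      simp [pos]
    · rw [h1]
      have h2 : ¬ ((-1 : ℝ) = 1) := by norm_num
      simp [pos, h2]
  · rw [h, Tt, ← Finset.sum_sub_distrib, Finset.sum_div]
    refine Finset.sum_congr rfl (fun γ _ => ?_)
    rcases chi_sign δ.1 γ with h1 | h1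
    · rw [h1]
      simp [pos]
    · rw [h1]
      have h2 : ¬ ((-1 : ℝ) = 1) := by norm_num
      simp [pos, h2]

private theorem rig_M (t : W m × Gm k → ℝ) (γ : Gm k) :
    msum (fun a => bsf m k a (Sum.inr (Sum.inr γ))) t = ∑ x, t (x, γ) := by
  unfold msum
  rw [Fintype.sum_prod_type]
  refine Finset.sum_congr rfl (fun x _ => ?_)
  rw [Finset.sum_eq_single γ]
  · simp [bsf]
  · intro γ' _ hγ'
    simp [bsf, hγ']
  · intro hx
    exact absurd (Finset.mem_univ γ) hx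

private theorem rig_R (t : W m × Gm k → ℝ) (i : ↥(Finset.Ico 2 (2 ^ m))) (β : Gm k) :
    msum (fun a => bsf m k a (Sum.inl (i, β))) t =
      (∑ a, t a + ∑ a, rowf i.1 β a * t a) / 2 :=
  msum_pos (rowf i.1 β) (rowf_sign i.1 β) t

private def rigδ (k : ℕ) : Rt k := ⟨fun _ => 1, by
  unfold nz
  rw [Finset.filter_false_of_mem]
  · simp
  · intro j _
    exact Fin.zero_ne_one.symm⟩

private theorem rig_sumx (t : W m × Gm k → ℝ) : ∑ x, ∑ γ, t (x, γ) = ∑ a, t a :=
  (Fintype.sum_prod_type t).symm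

private theorem rig_sumγ (t : W m × Gm k → ℝ) : ∑ γ, ∑ x, t (x, γ) = ∑ a, t a := by
  rw [Finset.sum_comm, rig_sumx]

private theorem rig_pick {ι : Type*} [Fintype ι] [DecidableEq ι] (f : ι → ℝ)
    (hf : ∀ i, f i = 0 ∨ 1 ≤ f i) (hs : ∑ i, f i = 1) :
    ∃ i0, f i0 = 1 ∧ ∀ i, i ≠ i0 → f i = 0 := by
  have h0 : ∃ i0, f i0 ≠ 0 := by
    by_contra hcon
    push Not at hcon
    rw [Finset.sum_eq_zero (fun i _ => hcon i)] at hs
    exact one_ne_zero hs.symm
  obtain ⟨i0, hi0⟩ := h0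
  have h1 : 1 ≤ f i0 := (hf i0).resolve_left hi0
  have hnn : ∀ i, 0 ≤ f i := fun i => by
    rcases hf i with h | h <;> linarith
  have h2 := Finset.add_sum_erase Finset.univ f (Finset.mem_univ i0)
  rw [hs] at h2
  have h3 : 0 ≤ ∑ i ∈ Finset.univ.erase i0, f i := Finset.sum_nonneg (fun i _ => hnn i)
  have h4 : ∑ i ∈ Finset.univ.erase i0, f i = 0 := by linarith
  refine ⟨i0, by linarith, fun i hi => ?_⟩
  exact (Finset.sum_eq_zero_iff_of_nonneg (fun i _ => hnn i)).1 h4 i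
    (Finset.mem_erase.2 ⟨hi, Finset.mem_univ i⟩)

private theorem rig_01 {a : ℝ} (h : a = 0 ∨ a = 1) : 0 ≤ a := by
  rcases h with h | h <;> rw [h] <;> norm_num

private theorem rig_Tt0 (t : W m × Gm k → ℝ) (x : W m) : Tt t 0 x = ∑ γ, t (x, γ) := by
  unfold Tt
  refine Finset.sum_congr rfl (fun γ _ => ?_)
  rw [chi_zero, one_mul]

private theorem rig_row (i : ℕ) (x₀ : W m) (γ₀ : Gm k) : ∃ w : Rt k → ℝ, ∀ β : Gm k,
    0 < (∑ δ : Rt k, w δ * chi δ.1 β) * rowf i β (x₀, γ₀) := by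
  have hA : sg (wb m (i - 1) x₀) = 1 ∨ sg (wb m (i - 1) x₀) = -1 := by
    unfold sg
    split_ifs
    · exact Or.inl rfl
    · exact Or.inr rfl
  have hR : sg (rr m i x₀) = 1 ∨ sg (rr m i x₀) = -1 := by
    unfold sg
    split_ifs
    · exact Or.inl rfl
    · exact Or.inr rfl
  have hAA : sg (wb m (i - 1) x₀) * sg (wb m (i - 1) x₀) = 1 := by
    rcases hA with h | h <;> rw [h] <;> norm_num
  have hcase : - sg (rr m i x₀) = sg (wb m (i - 1) x₀) ∨
      - sg (rr m i x₀) = - sg (wb m (i - 1) x₀) := by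
    rcases hA with h | h <;> rcases hR with h' | h' <;> rw [h, h'] <;> norm_num
  rcases hcase with hc | hc
  · obtain ⟨w, hw⟩ := thick (k := k) γ₀
    refine ⟨fun δ => sg (wb m (i - 1) x₀) * w δ, fun β => ?_⟩
    have h1 : rowf i β (x₀, γ₀) = sg (wb m (i - 1) x₀) * Hh β γ₀ := by
      unfold rowf
      split_ifs with h
      · have h' : γ₀ = β := h
        rw [← h', Hh_self, mul_one]
        exact hc
      · rfl
    have h2 : ∑ δ : Rt k, sg (wb m (i - 1) x₀) * w δ * chi δ.1 β =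
        sg (wb m (i - 1) x₀) * ∑ δ : Rt k, w δ * chi δ.1 β := by
      rw [Finset.mul_sum]
      exact Finset.sum_congr rfl (fun δ _ => by ring)
    rw [h1, h2]
    have h3 : sg (wb m (i - 1) x₀) * (∑ δ : Rt k, w δ * chi δ.1 β) *
        (sg (wb m (i - 1) x₀) * Hh β γ₀) = (sg (wb m (i - 1) x₀) * sg (wb m (i - 1) x₀)) *
        ((∑ δ : Rt k, w δ * chi δ.1 β) * Hh β γ₀) := by ring
    rw [h3, hAA, one_mul]
    exact hw β
  · obtain ⟨w, hw⟩ := thin (k := k) γ₀
    refine ⟨fun δ => sg (wb m (i - 1) x₀) * w δ, fun β => ?_⟩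
    have h1 : rowf i β (x₀, γ₀) =
        sg (wb m (i - 1) x₀) * (if γ₀ = β then (-1 : ℝ) else Hh β γ₀) := by
      unfold rowf
      by_cases h : γ₀ = β
      · rw [if_pos h, if_pos h]
        show - sg (rr m i x₀) = _
        rw [hc]
        ring
      · rw [if_neg h, if_neg h]
    have h2 : ∑ δ : Rt k, sg (wb m (i - 1) x₀) * w δ * chi δ.1 β =
        sg (wb m (i - 1) x₀) * ∑ δ : Rt k, w δ * chi δ.1 β := by
      rw [Finset.mul_sum]
      exact Finset.sum_congr rfl (fun δ _ => by ring)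
    rw [h1, h2]
    have h3 : sg (wb m (i - 1) x₀) * (∑ δ : Rt k, w δ * chi δ.1 β) *
        (sg (wb m (i - 1) x₀) * (if γ₀ = β then (-1 : ℝ) else Hh β γ₀)) =
        (sg (wb m (i - 1) x₀) * sg (wb m (i - 1) x₀)) *
        ((∑ δ : Rt k, w δ * chi δ.1 β) * (if γ₀ = β then (-1 : ℝ) else Hh β γ₀)) := by ring
    rw [h3, hAA, one_mul]
    exact hw β

theorem rig_zero (t : W m × Gm k → ℝ) (h0 : ∑ x, t x = 0)
    (h : ∀ i, msum (fun x => bsf m k x i) t = 0 ∨ msum (fun x => bsf m k x i) t = 1) :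
    Hom (bsf m k) t := by
  have hE : ∀ x (δ : Rt k) s, 0 ≤ msum (fun a => bsf m k a (Sum.inr (Sum.inl (x, δ, s)))) t :=
    fun x δ s => rig_01 (h _)
  have hsum : ∀ x (δ : Rt k), msum (fun a => bsf m k a (Sum.inr (Sum.inl (x, δ, true)))) t +
      msum (fun a => bsf m k a (Sum.inr (Sum.inl (x, δ, false)))) t = ∑ γ, t (x, γ) := by
    intro x δ
    rw [(rig_E t x δ).1, (rig_E t x δ).2]
    ring
  have hτ : ∀ x, ∑ γ, t (x, γ) = 0 := by
    intro x
    have h1 : ∀ x ∈ (Finset.univ : Finset (W m)), 0 ≤ ∑ γ, t (x, γ) := by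
      intro x _
      rw [← hsum x (rigδ k)]
      exact add_nonneg (hE _ _ _) (hE _ _ _)
    refine (Finset.sum_eq_zero_iff_of_nonneg h1).1 ?_ x (Finset.mem_univ x)
    rw [rig_sumx, h0]
  refine ⟨h0, ?_⟩
  rintro (⟨i, β⟩ | ⟨x, δ, s⟩ | γ)
  · have h1 : ∀ β ∈ (Finset.univ : Finset (Gm k)),
        0 ≤ msum (fun a => bsf m k a (Sum.inl (i, β))) t := fun β _ => rig_01 (h _)
    refine (Finset.sum_eq_zero_iff_of_nonneg h1).1 ?_ β (Finset.mem_univ β)
    have h2 := sum_rowf (m := m) (k := k) i.1 0 t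
    have h3 : ∀ β : Gm k, msum (fun a => bsf m k a (Sum.inl (i, β))) t =
        (chi 0 β * ∑ a, rowf i.1 β a * t a) / 2 := by
      intro β
      rw [rig_R, h0, chi_zero, zero_add, one_mul]
    rw [Finset.sum_congr rfl (fun β _ => h3 β), ← Finset.sum_div, h2]
    rw [Finset.sum_eq_zero, zero_div]
    intro x _
    rw [rig_Tt0, hτ, mul_zero]
  · have h1 := hsum x δ
    rw [hτ] at h1
    have h2 := hE x δ true
    have h3 := hE x δ false
    rcases s with _ | _
    · linarith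
    · linarith
  · have h1 : ∀ γ ∈ (Finset.univ : Finset (Gm k)),
        0 ≤ msum (fun a => bsf m k a (Sum.inr (Sum.inr γ))) t := fun γ _ => rig_01 (h _)
    refine (Finset.sum_eq_zero_iff_of_nonneg h1).1 ?_ γ (Finset.mem_univ γ)
    rw [Finset.sum_congr rfl (fun γ _ => rig_M t γ), rig_sumγ, h0]

theorem rig_one (t : W m × Gm k → ℝ) (h1 : ∑ x, t x = 1)
    (h : ∀ i, msum (fun x => bsf m k x i) t = 0 ∨ msum (fun x => bsf m k x i) t = 1) :
    ∃ x₀, ∀ i, msum (fun x => bsf m k x i) t = if bsf m k x₀ i = true then 1 else 0 := by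
  have hsum : ∀ x (δ : Rt k), msum (fun a => bsf m k a (Sum.inr (Sum.inl (x, δ, true)))) t +
      msum (fun a => bsf m k a (Sum.inr (Sum.inl (x, δ, false)))) t = ∑ γ, t (x, γ) := by
    intro x δ
    rw [(rig_E t x δ).1, (rig_E t x δ).2]
    ring
  obtain ⟨x₀, hx1, hx0⟩ := rig_pick (fun x => ∑ γ, t (x, γ)) (by
    intro x
    show ∑ γ, t (x, γ) = 0 ∨ 1 ≤ ∑ γ, t (x, γ)
    rw [← hsum x (rigδ k)]
    rcases h (Sum.inr (Sum.inl (x, rigδ k, true))) with h2 | h2 <;>
      rcases h (Sum.inr (Sum.inl (x, rigδ k, false))) with h3 | h3 <;>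
      rw [h2, h3] <;> norm_num) (by rw [rig_sumx, h1])
  obtain ⟨γ₀, hγ1, hγ0⟩ := rig_pick (fun γ => ∑ x, t (x, γ)) (by
    intro γ
    show ∑ x, t (x, γ) = 0 ∨ 1 ≤ ∑ x, t (x, γ)
    rw [← rig_M t γ]
    rcases h (Sum.inr (Sum.inr γ)) with h2 | h2 <;> rw [h2] <;> norm_num) (by rw [rig_sumγ, h1])
  have hE0 : ∀ x, x ≠ x₀ → ∀ (δ : Rt k) (s : Bool),
      msum (fun a => bsf m k a (Sum.inr (Sum.inl (x, δ, s)))) t = 0 := by
    intro x hx δ s
    have h2 := hsum x δ
    rw [hx0 x hx] at h2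
    have h3 := rig_01 (h (Sum.inr (Sum.inl (x, δ, true))))
    have h4 := rig_01 (h (Sum.inr (Sum.inl (x, δ, false))))
    rcases s with _ | _
    · linarith
    · linarith
  have hT0 : ∀ x, x ≠ x₀ → ∀ δ : Rt k, Tt t δ.1 x = 0 := by
    intro x hx δ
    have h2 := (rig_E t x δ).1
    rw [hE0 x hx, hx0 x hx] at h2
    linarith
  have hT1 : ∀ δ : Rt k, Tt t δ.1 x₀ = chi δ.1 γ₀ := by
    intro δ
    have h2 : ∑ x, Tt t δ.1 x = Tt t δ.1 x₀ := by
      rw [Finset.sum_eq_single x₀]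
      · exact fun x _ hx => hT0 x hx δ
      · exact fun hx => absurd (Finset.mem_univ _) hx
    rw [← h2]
    unfold Tt
    rw [Finset.sum_comm, Finset.sum_eq_single γ₀]
    · rw [← Finset.mul_sum, hγ1, mul_one]
    · intro γ _ hγ
      rw [← Finset.mul_sum, hγ0 γ hγ, mul_zero]
    · exact fun hx => absurd (Finset.mem_univ _) hx
  refine ⟨(x₀, γ₀), ?_⟩
  rintro (⟨i, β⟩ | ⟨x, δ, s⟩ | γ)
  · -- rows
    have hY : ∀ β : Gm k, (∑ a, rowf i.1 β a * t a) = 1 ∨ (∑ a, rowf i.1 β a * t a) = -1 := by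
      intro β
      have h2 := rig_R t i β
      rw [h1] at h2
      rcases h (Sum.inl (i, β)) with h3 | h3
      · right
        rw [h3] at h2
        linarith
      · left
        rw [h3] at h2
        linarith
    have hkey : ∀ δ : Rt k, ∑ β : Gm k, chi δ.1 β *
        ((∑ a, rowf i.1 β a * t a) - rowf i.1 β (x₀, γ₀)) = 0 := by
      intro δ
      have h2 := sum_rowf (m := m) (k := k) i.1 δ.1 t
      have h3 := sum_rowf (m := m) (k := k) i.1 δ.1 (fun a => if a = (x₀, γ₀) then (1 : ℝ) else 0)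
      have h4 : ∀ β : Gm k, (∑ a, rowf i.1 β a * (if a = (x₀, γ₀) then (1 : ℝ) else 0)) =
          rowf i.1 β (x₀, γ₀) := by
        intro β
        rw [Finset.sum_eq_single (x₀, γ₀)]
        · rw [if_pos rfl, mul_one]
        · intro a _ ha
          rw [if_neg ha, mul_zero]
        · exact fun hx => absurd (Finset.mem_univ _) hx
      have h5 : ∀ x, Tt (fun a : W m × Gm k => if a = (x₀, γ₀) then (1 : ℝ) else 0) δ.1 x =
          Tt t δ.1 x := by
        intro x
        by_cases hx : x = x₀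
        · rw [hx, hT1]
          unfold Tt
          rw [Finset.sum_eq_single γ₀]
          · beta_reduce
            rw [if_pos rfl, mul_one]
          · intro γ _ hγ
            beta_reduce
            rw [if_neg (fun h6 => hγ (Prod.mk.inj h6).2), mul_zero]
          · exact fun hx => absurd (Finset.mem_univ _) hx
        · rw [hT0 x hx]
          unfold Tt
          refine Finset.sum_eq_zero (fun γ _ => ?_)
          beta_reduce
          rw [if_neg (fun h6 => hx (Prod.mk.inj h6).1), mul_zero]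
      simp only [h4, h5] at h3
      rw [← h2] at h3
      simp only [mul_sub, Finset.sum_sub_distrib]
      rw [h3, sub_self]
    obtain ⟨w, hw⟩ := rig_row (k := k) i.1 x₀ γ₀
    have hsum0 : ∑ β : Gm k, (∑ δ : Rt k, w δ * chi δ.1 β) *
        ((∑ a, rowf i.1 β a * t a) - rowf i.1 β (x₀, γ₀)) = 0 := by
      have h2 : ∀ β : Gm k, (∑ δ : Rt k, w δ * chi δ.1 β) *
          ((∑ a, rowf i.1 β a * t a) - rowf i.1 β (x₀, γ₀)) =
          ∑ δ : Rt k, w δ * (chi δ.1 β *
          ((∑ a, rowf i.1 β a * t a) - rowf i.1 β (x₀, γ₀))) := by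
        intro β
        rw [Finset.sum_mul]
        exact Finset.sum_congr rfl (fun δ _ => by ring)
      rw [Finset.sum_congr rfl (fun β _ => h2 β), Finset.sum_comm]
      refine Finset.sum_eq_zero (fun δ _ => ?_)
      rw [← Finset.mul_sum, hkey δ, mul_zero]
    have hneg : ∀ β ∈ (Finset.univ : Finset (Gm k)), (∑ δ : Rt k, w δ * chi δ.1 β) *
        ((∑ a, rowf i.1 β a * t a) - rowf i.1 β (x₀, γ₀)) ≤ 0 := by
      intro β _
      have h2 := hw β
      rcases hY β with h3 | h3 <;> rcases rowf_sign i.1 β (x₀, γ₀) with h4 | h4 <;>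
        rw [h3, h4] <;> rw [h4] at h2 <;> linarith
    have h2 := (Finset.sum_eq_zero_iff_of_nonpos hneg).1 hsum0 β (Finset.mem_univ β)
    have h3 : (∑ a, rowf i.1 β a * t a) = rowf i.1 β (x₀, γ₀) := by
      have h4 : (∑ δ : Rt k, w δ * chi δ.1 β) ≠ 0 := by
        intro h5
        have h6 := hw β
        rw [h5, zero_mul] at h6
        exact lt_irrefl _ h6
      have h5 := (mul_eq_zero.1 h2).resolve_left h4
      linarith
    rw [rig_R, h1, h3]
    show _ = if pos (rowf i.1 β (x₀, γ₀)) = true then (1 : ℝ) else 0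
    rcases rowf_sign i.1 β (x₀, γ₀) with h4 | h4
    · rw [h4]
      simp [pos]
    · rw [h4]
      have h5 : ¬ ((-1 : ℝ) = 1) := by norm_num
      simp [pos, h5]
  · by_cases hx : x = x₀
    · subst hx
      have h2 := rig_E t x δ
      rw [hx1, hT1] at h2
      have h5 : ¬ ((-1 : ℝ) = 1) := by norm_num
      rcases s with _ | _
      · rw [h2.2]
        rcases chi_sign δ.1 γ₀ with h4 | h4
        · simp [bsf, pos, h4]
        · simp [bsf, pos, h4, h5]
      · rw [h2.1]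
        rcases chi_sign δ.1 γ₀ with h4 | h4
        · simp [bsf, pos, h4]
        · simp [bsf, pos, h4, h5]
    · rw [hE0 x hx]
      have hx' : ¬ (x₀ = x) := fun h6 => hx h6.symm
      simp [bsf, hx']
  · rw [rig_M]
    by_cases hγ : γ = γ₀
    · rw [hγ, hγ1]
      simp [bsf]
    · rw [hγ0 γ hγ]
      have hγ' : ¬ (γ₀ = γ) := fun h6 => hγ h6.symm
      simp [bsf, hγ']

end Pool.Agent.MN
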