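import Pool.Agent.MN.BlkDefs
import Pool.Agent.MN.Gam

/-!
# MN-RowSum: elementary sums of the block

* `msum_pos`: `if pos (F x) = true then κ x else 0 = (κ x + F x * κ x) / 2` if `F x = 1` or `F x = -1`
  (`pos` is `decide (F x = 1)`).
* `rowf_sign`: `sg` is `1` or `-1`, `Hh_sign`.
* `sum_rowf`: `rowf i β (x, γ) = sg (wb m (i-1) x) * Hh β γ - 2 * (if γ = β then τ x else 0)` with
  `τ x = (sg (rr m i x) + sg (wb m (i-1) x)) / 2` (use `Hh_self`).  Then exchange the sums over `β` and `(x, γ)`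
  (`Fintype.sum_prod_type`, `Finset.sum_comm`), `sum_chi_Hh`, and the definition of `Tt`.
* `sum_rowf_one`: the special case `δ = 0` (`chi_zero`), `β`-sum of the rows (only used to read off the form).
-/

namespace Pool.Agent.MN

open Finset Pool.Agent.Helper42.Asum

variable {m k : ℕ}

theorem msum_pos {B : Type*} [Fintype B] (F : B → ℝ) (hF : ∀ x, F x = 1 ∨ F x = -1) (κ : B → ℝ) :
    msum (fun x => pos (F x)) κ = (∑ x, κ x + ∑ x, F x * κ x) / 2 := by
  unfold msum
  rw [← Finset.sum_add_distrib, Finset.sum_div]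
  refine Finset.sum_congr rfl (fun x _ => ?_)
  unfold pos
  rcases hF x with h | h
  · simp [h]
  · have h1 : ¬ ((-1 : ℝ) = 1) := by norm_num
    simp [h, h1]

private theorem sg_pm (b : Bool) : sg b = 1 ∨ sg b = -1 := by
  cases b <;> simp [sg]

theorem rowf_sign (i : ℕ) (β : Gm k) (a : W m × Gm k) : rowf i β a = 1 ∨ rowf i β a = -1 := by
  unfold rowf
  split_ifs with h
  · rcases sg_pm (rr m i a.1) with h1 | h1 <;> rw [h1] <;> simp
  · rcases sg_pm (wb m (i - 1) a.1) with h1 | h1 <;> rcases Hh_sign β a.2 with h2 | h2 <;>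
      rw [h1, h2] <;> simp

/-- the transform of the rows in the word variable -/
theorem sum_rowf (i : ℕ) (δ : Gm k) (t : W m × Gm k → ℝ) :
    ∑ β : Gm k, chi δ β * (∑ a, rowf i β a * t a) =
      ∑ x : W m, (lam δ * sg (wb m (i - 1) x) - (sg (rr m i x) + sg (wb m (i - 1) x))) * Tt t δ x := by
  have hrow : ∀ (β : Gm k) (x : W m) (γ : Gm k), rowf i β (x, γ) =
      sg (wb m (i - 1) x) * Hh β γ -
        (if γ = β then sg (rr m i x) + sg (wb m (i - 1) x) else 0) := by
    intro β x γ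
    unfold rowf
    by_cases h : γ = β
    · subst h
      simp [Hh_self]
    · simp [h]
  have h1 : ∀ β : Gm k, chi δ β * (∑ a, rowf i β a * t a) =
      ∑ x : W m, ∑ γ : Gm k, chi δ β * (rowf i β (x, γ) * t (x, γ)) := by
    intro β
    rw [Fintype.sum_prod_type, Finset.mul_sum]
    exact Finset.sum_congr rfl (fun x _ => Finset.mul_sum _ _ _)
  simp_rw [h1]
  rw [Finset.sum_comm]
  refine Finset.sum_congr rfl (fun x _ => ?_)
  rw [Finset.sum_comm]
  unfold Tt
  rw [Finset.mul_sum]
  refine Finset.sum_congr rfl (fun γ _ => ?_)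
  have h2 : ∀ β : Gm k, chi δ β * (rowf i β (x, γ) * t (x, γ)) =
      (sg (wb m (i - 1) x) * t (x, γ)) * (chi δ β * Hh β γ) -
        (if γ = β then (sg (rr m i x) + sg (wb m (i - 1) x)) * chi δ β * t (x, γ) else 0) := by
    intro β
    rw [hrow]
    split_ifs <;> ring
  simp_rw [h2]
  rw [Finset.sum_sub_distrib, ← Finset.mul_sum, sum_chi_Hh, Finset.sum_ite_eq]
  simp only [Finset.mem_univ, if_true]
  ring

end Pool.Agent.MN
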