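import Pool.Agent.MN.XDens
import Pool.Agent.MN.Cnt

/-!
# Project MN, exact version: numerical lemmas
-/

namespace Pool.Agent.MN

theorem core2 (n q N P₂ l m₀ ρ e₁ f : ℝ) (hn0 : 0 < n) (hq : 1 ≤ q) (hN : 0 < N) (hP : 0 < P₂)
    (hl : Real.logb 2 N = 2 * l) (hm : Real.logb 2 P₂ = m₀) (he0 : 0 ≤ e₁)
    (hρ0 : 0 ≤ ρ) (hρ1 : ρ ≤ 1) (hn : n ≤ (q + 2) * (N * P₂ * (1 + e₁))) (hf : 0 ≤ f)
    (hD : 0 ≤ 1 / 2 * Real.logb 2 n - 1 - (2 / q + e₁ + f)) :
    n * (1 / 2 * Real.logb 2 n - 1) - n * (2 / q + e₁ + f) - n * (2 / q + e₁ + ρ) * (Real.logb 2 n / 2) ≤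
      (1 - ρ) * N * P₂ * q * (1 / 2 * (m₀ + 2 * l + Real.logb 2 q) - 1 - f) := by
  have hq0 : 0 < q := by linarith
  have hl2 : 0 < Real.log 2 := Real.log_pos (by norm_num)
  have hl2' := Real.log_two_gt_d9
  set X := Real.logb 2 n with hX
  -- (a)
  have a1 : X ≤ Real.logb 2 (q + 2) + (2 * l + m₀ + Real.logb 2 (1 + e₁)) := by
    have h1 : Real.logb 2 n ≤ Real.logb 2 ((q + 2) * (N * P₂ * (1 + e₁))) :=
      Real.logb_le_logb_of_le (by norm_num) hn0 hn
    rw [Real.logb_mul (by positivity) (by positivity), Real.logb_mul (by positivity) (by positivity),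
      Real.logb_mul hN.ne' hP.ne', hl, hm] at h1
    exact h1
  have a2 : Real.logb 2 (q + 2) ≤ Real.logb 2 q + 4 / q := by
    have h1 : q + 2 = q * (1 + 2 / q) := by field_simp
    rw [h1, Real.logb_mul hq0.ne' (by positivity)]
    have h2 := Real.log_le_sub_one_of_pos (show 0 < 1 + 2 / q by positivity)
    have h3 : Real.logb 2 (1 + 2 / q) ≤ 4 / q := by
      rw [Real.logb, div_le_iff₀ hl2]
      have h4 : (0 : ℝ) < 2 / q := by positivity
      have h5 : 4 / q = 2 * (2 / q) := by ring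
      rw [h5]
      nlinarith
    linarith
  have a3 : Real.logb 2 (1 + e₁) ≤ 2 * e₁ := by
    have h2 := Real.log_le_sub_one_of_pos (show 0 < 1 + e₁ by positivity)
    rw [Real.logb, div_le_iff₀ hl2]
    nlinarith
  have hB : 1 / 2 * X - 1 - (2 / q + e₁ + f) ≤ 1 / 2 * (m₀ + 2 * l + Real.logb 2 q) - 1 - f := by
    have : 4 / q = 2 * (2 / q) := by ring
    linarith
  -- (c)
  have c1 : n * (1 - 2 / q - e₁) ≤ N * P₂ * q := by
    set a := 2 / q with ha
    have ha0 : 0 < a := by positivity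
    have h1 : q + 2 = q * (1 + a) := by rw [ha]; field_simp
    rw [h1] at hn
    by_cases hs : 1 - a - e₁ ≤ 0
    · have : n * (1 - a - e₁) ≤ 0 := by nlinarith
      have : 0 < N * P₂ * q := by positivity
      linarith
    · push Not at hs
      have h2 := mul_le_mul_of_nonneg_right hn hs.le
      have h3 : (1 + a) * (1 + e₁) * (1 - a - e₁) ≤ 1 := by
        have h4 : 0 ≤ a * e₁ := by positivity
        nlinarith [sq_nonneg a, sq_nonneg e₁, mul_nonneg h4 ha0.le, mul_nonneg h4 he0]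
      have h5 : 0 ≤ N * P₂ * q := by positivity
      have h6 := mul_le_mul_of_nonneg_left h3 h5
      have h7 : q * (1 + a) * (N * P₂ * (1 + e₁)) * (1 - a - e₁) =
          N * P₂ * q * ((1 + a) * (1 + e₁) * (1 - a - e₁)) := by ring
      rw [h7] at h2
      linarith
  have c2 : n * (1 - (2 / q + e₁ + ρ)) ≤ (1 - ρ) * N * P₂ * q := by
    have h1 := mul_le_mul_of_nonneg_left c1 (sub_nonneg.2 hρ1)
    have h2 : 0 ≤ n * (ρ * (2 / q + e₁)) := by positivity
    have h3 : (1 - ρ) * (n * (1 - 2 / q - e₁)) = n * (1 - (2 / q + e₁ + ρ)) + n * (ρ * (2 / q + e₁)) := by ring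
    rw [h3] at h1
    calc n * (1 - (2 / q + e₁ + ρ)) ≤ (1 - ρ) * (N * P₂ * q) := by linarith
      _ = _ := by ring
  set D := 1 / 2 * X - 1 - (2 / q + e₁ + f) with hDdef
  have d1 : n * (1 - (2 / q + e₁ + ρ)) * D ≤ (1 - ρ) * N * P₂ * q * D :=
    mul_le_mul_of_nonneg_right c2 hD
  have d0 : 0 ≤ (1 - ρ) * N * P₂ * q := by
    have : 0 ≤ 1 - ρ := sub_nonneg.2 hρ1
    positivity
  have d2 : (1 - ρ) * N * P₂ * q * D ≤ (1 - ρ) * N * P₂ * q *
      (1 / 2 * (m₀ + 2 * l + Real.logb 2 q) - 1 - f) := mul_le_mul_of_nonneg_left hB d0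
  have d3 : n * (2 / q + e₁ + ρ) * D ≤ n * (2 / q + e₁ + ρ) * (X / 2) := by
    apply mul_le_mul_of_nonneg_left _ (by positivity)
    rw [hDdef]
    have : 0 < 2 / q := by positivity
    linarith
  refine le_trans ?_ (le_trans d1 d2)
  have d4 : n * (1 - (2 / q + e₁ + ρ)) * D = n * D - n * (2 / q + e₁ + ρ) * D := by ring
  rw [d4]
  have d5 : n * D = n * (1 / 2 * X - 1) - n * (2 / q + e₁ + f) := by rw [hDdef]; ring
  linarith

private lemma sixteen (l : ℕ) (hl : 7 ≤ l) : 16 * l ≤ 2 ^ l := by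
  induction l, hl using Nat.le_induction with
  | base => norm_num
  | succ n hn ih => rw [pow_succ]; omega

theorem rho_le (l : ℕ) (hl : 7 ≤ l) : (Fintype.card (Rt (8 * l)) + 1) * 4 ^ l ≤ 4 ^ (8 * l) := by
  have h1 := card_Rt_le (8 * l) (by omega)
  have h2 : 3 * 3 ^ (8 * l - 1) = 3 ^ (8 * l) := by
    rw [← pow_succ']; congr 1; omega
  have h3 : Fintype.card (Rt (8 * l)) + 1 ≤ 16 * l * 3 ^ (8 * l) := by
    have h4 : 1 ≤ 3 ^ (8 * l - 1) := Nat.one_le_pow _ _ (by norm_num)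
    rw [← h2]
    nlinarith [Nat.mul_le_mul hl h4]
  calc (Fintype.card (Rt (8 * l)) + 1) * 4 ^ l ≤ (16 * l * 3 ^ (8 * l)) * 4 ^ l :=
        Nat.mul_le_mul_right _ h3
    _ ≤ (2 ^ l * 3 ^ (8 * l)) * 4 ^ l := by
        apply Nat.mul_le_mul_right
        apply Nat.mul_le_mul_right
        exact sixteen l hl
    _ = 52488 ^ l := by
        rw [pow_mul, ← mul_pow, ← mul_pow]; norm_num
    _ ≤ 65536 ^ l := Nat.pow_le_pow_left (by norm_num) l
    _ = 4 ^ (8 * l) := by rw [pow_mul]; norm_num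

theorem choose_tau (η : ℝ) (hη : 0 < η) : ∃ (J : ℕ) (d : ℝ), 0 < d ∧ ∀ x : ℝ, 0 < x →
    ∃ j ≤ J, ∃ (z : ℤ) (τ : ℝ), x = τ * 36 ^ j * (2 : ℝ) ^ z ∧ 1 + d ≤ τ ∧ τ ≤ 1 + η := by
  set d₀ := (2 / 5 : ℝ) * Real.logb 2 (1 + η) with hd₀
  have hd₀p : 0 < d₀ := by
    have : 0 < Real.logb 2 (1 + η) := Real.logb_pos (by norm_num) (by linarith)
    positivity
  obtain ⟨J, hJ⟩ := dens d₀ hd₀p
  refine ⟨J, 2 ^ (d₀ / 2) - 1, ?_, ?_⟩
  · have := Real.one_lt_rpow (show (1 : ℝ) < 2 by norm_num) (show 0 < d₀ / 2 by positivity)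
    linarith
  · intro x hx
    obtain ⟨j, hj, z, h1, h2⟩ := hJ (Real.logb 2 x)
    refine ⟨j, hj, z, 2 ^ (Real.logb 2 x - j * Real.logb 2 36 - z), ?_, ?_, ?_⟩
    · have e1 : ((36 : ℝ) ^ j) = 2 ^ ((j : ℝ) * Real.logb 2 36) := by
        rw [mul_comm, Real.rpow_mul (by norm_num), Real.rpow_logb (by norm_num) (by norm_num) (by norm_num),
          Real.rpow_natCast]
      rw [e1, ← Real.rpow_intCast, ← Real.rpow_add (by norm_num), ← Real.rpow_add (by norm_num)]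
      have e2 : Real.logb 2 x - j * Real.logb 2 36 - z + j * Real.logb 2 36 + z = Real.logb 2 x := by ring
      rw [e2, Real.rpow_logb (by norm_num) (by norm_num) hx]
    · have := Real.rpow_le_rpow_of_exponent_le (show (1 : ℝ) ≤ 2 by norm_num) h1
      linarith
    · have := Real.rpow_le_rpow_of_exponent_le (show (1 : ℝ) ≤ 2 by norm_num) h2
      have e3 : (5 / 2 : ℝ) * d₀ = Real.logb 2 (1 + η) := by rw [hd₀]; ring
      rw [e3, Real.rpow_logb (by norm_num) (by norm_num) (by linarith)] at this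
      exact this

end Pool.Agent.MN
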