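import Pool.Agent.MN.XCore
import Pool.Agent.MN.XNum

/-!
# Project MN, exact version: asymptotic lower bound
-/

namespace Pool.Agent.MN

open Finset Filter Pool.Agent.Helper42.Asum

private lemma log_bounds (n : ℕ) (hX : 128 ≤ Real.logb 2 n) :
    ∃ l : ℕ, Real.logb 2 n ≤ 2 ^ l ∧ (2 : ℝ) ^ l ≤ 2 * Real.logb 2 n ∧ 7 ≤ l := by
  have hn0 : 0 < n := by
    rcases Nat.eq_zero_or_pos n with h | h
    · rw [h] at hX; simp at hX; norm_num at hX
    · exact h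
  have hnR : (0 : ℝ) < n := by exact_mod_cast hn0
  set N := Nat.log 2 n with hN
  have h1 : n < 2 ^ (N + 1) := Nat.lt_pow_succ_log_self (by norm_num) n
  have h2 : 2 ^ N ≤ n := Nat.pow_log_le_self 2 hn0.ne'
  have h3 : Real.logb 2 n ≤ N + 1 := by
    have h4 : (n : ℝ) ≤ 2 ^ (N + 1) := by exact_mod_cast h1.le
    have h5 := Real.logb_le_logb_of_le (b := 2) (by norm_num) hnR h4
    rw [Real.logb_pow, Real.logb_self_eq_one (by norm_num)] at h5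
    push_cast at h5
    linarith
  have h4 : (N : ℝ) ≤ Real.logb 2 n := by
    have h4 : (2 : ℝ) ^ N ≤ n := by exact_mod_cast h2
    have h5 := Real.logb_le_logb_of_le (b := 2) (by norm_num) (by positivity) h4
    rw [Real.logb_pow, Real.logb_self_eq_one (by norm_num)] at h5
    linarith
  have hN1 : 127 ≤ N := by
    have : (127 : ℝ) ≤ N := by linarith
    exact_mod_cast this
  refine ⟨Nat.log 2 N + 1, ?_, ?_, ?_⟩
  · have h5 : N < 2 ^ (Nat.log 2 N + 1) := Nat.lt_pow_succ_log_self (by norm_num) N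
    have h6 : (N : ℝ) + 1 ≤ 2 ^ (Nat.log 2 N + 1) := by exact_mod_cast h5
    linarith
  · have h5 : 2 ^ (Nat.log 2 N) ≤ N := Nat.pow_log_le_self 2 (by omega)
    have h6 : (2 : ℝ) ^ (Nat.log 2 N) ≤ N := by exact_mod_cast h5
    rw [pow_succ]; linarith
  · by_contra h
    have h5 : N < 2 ^ (Nat.log 2 N + 1) := Nat.lt_pow_succ_log_self (by norm_num) N
    have h6 : 2 ^ (Nat.log 2 N + 1) ≤ 2 ^ 6 := Nat.pow_le_pow_right (by norm_num) (by omega)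
    omega

private lemma sq_lem (k j : ℕ) : (4 : ℝ) ^ k * 36 ^ j = (2 ^ k * 6 ^ j) ^ 2 := by
  have h1 : (4 : ℝ) ^ k = (2 ^ k) ^ 2 := by
    rw [← pow_mul, mul_comm, pow_mul]; norm_num
  have h2 : (36 : ℝ) ^ j = (6 ^ j) ^ 2 := by
    rw [← pow_mul, mul_comm, pow_mul]; norm_num
  rw [h1, h2, mul_pow]

theorem final_point (n J : ℕ) (d η ε : ℝ) (hη0 : 0 < η) (hη : η ≤ 1) (hε : 0 < ε)
    (hηε : 7 / 2 * Real.sqrt η ≤ ε / 4) (hd : 0 < d)
    (hch : ∀ x : ℝ, 0 < x → ∃ j ≤ J, ∃ (z : ℤ) (τ : ℝ), x = τ * 36 ^ j * (2 : ℝ) ^ z ∧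
      1 + d ≤ τ ∧ τ ≤ 1 + η)
    (hX : 128 ≤ Real.logb 2 n) (hX1 : 48 / ε ≤ Real.logb 2 n) (hX2 : 3 / d ≤ Real.logb 2 n)
    (hn1 : 4 * 36 ^ J * 2 ^ 18 * (Real.logb 2 n) ^ 20 ≤ n)
    (hn2 : (2 * 36 ^ J * 2 ^ 16 * 6 * (16 + 3 * J) + 2) * (Real.logb 2 n) ^ 18 ≤ ε / 2 * n)
    (M' : ℕ) (hM : Certifies n M') :
    (1 / 2 : ℝ) * n * Real.logb 2 n - (1 + ε) * n ≤ Real.logb 2 M' := by
  obtain ⟨ℓ, hl1, hl2, hl7⟩ := log_bounds n hX
  set X := Real.logb 2 n with hXdef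
  have hXpos : 0 < X := by linarith
  have hn0 : (0 : ℝ) < n := by
    refine lt_of_lt_of_le ?_ hn1
    positivity
  set k := 8 * ℓ with hk
  set A := 2 * ℓ with hA
  set R := Fintype.card (Rt k) with hR
  have hrho : (R + 1) * 4 ^ ℓ ≤ 4 ^ k := rho_le ℓ hl7
  have h4l : X ^ 2 ≤ 4 ^ ℓ := by
    calc X ^ 2 ≤ (2 ^ ℓ) ^ 2 := by gcongr
      _ = 4 ^ ℓ := by rw [← pow_mul, mul_comm, pow_mul]; norm_num
  have h2A : (2 : ℝ) ^ A = 4 ^ ℓ := by rw [hA, pow_mul]; norm_num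
  have hrhoR : ((R : ℝ) + 1) * X ^ 2 ≤ 4 ^ k := by
    calc ((R : ℝ) + 1) * X ^ 2 ≤ ((R : ℝ) + 1) * 4 ^ ℓ := by gcongr
      _ ≤ 4 ^ k := by exact_mod_cast hrho
  have h4k0 : (0 : ℝ) < 4 ^ k := by positivity
  have hX2' : (2 : ℝ) ≤ X ^ 2 := by
    have := pow_le_pow_left₀ (by norm_num) hX 2
    linarith
  have hR0 : (0 : ℝ) ≤ R := by positivity
  have h2R : 2 * (R : ℝ) ≤ 4 ^ k := by
    have h1 := mul_le_mul_of_nonneg_left hX2' (show (0 : ℝ) ≤ R + 1 by positivity)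
    linarith
  -- the choice of j, z
  set c₀ : ℝ := 4 ^ k + 2 * R with hc₀
  have hc₀p : 0 < c₀ := by positivity
  have hc₀2 : c₀ ≤ 2 * 4 ^ k := by rw [hc₀]; linarith
  obtain ⟨j, hj, z, τ, hx, hτ1, hτ2⟩ := hch (n / c₀) (by positivity)
  have hτ0 : 0 < τ := by linarith
  have hnz : (n : ℝ) = τ * 36 ^ j * ((2 : ℝ) ^ z) * c₀ := by
    rw [← hx]; field_simp
  have h36 : (36 : ℝ) ^ j ≤ 36 ^ J := pow_le_pow_right₀ (by norm_num) hj
  set b : ℝ := (2 : ℝ) ^ (z - A) with hb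
  have hb0 : 0 < b := by positivity
  have hzb : (2 : ℝ) ^ z = b * 2 ^ A := by
    rw [hb, zpow_sub₀ (by norm_num), zpow_natCast]; field_simp
  rw [hzb, h2A] at hnz
  have h36' : (0 : ℝ) < 36 ^ j := by positivity
  have hbX : X ^ 2 ≤ b := by
    have h1 : (n : ℝ) ≤ 4 * 36 ^ J * 2 ^ 18 * X ^ 18 * b := by
      have h2 : (4 : ℝ) ^ ℓ * 4 ^ k ≤ 2 ^ 18 * X ^ 18 := by
        calc (4 : ℝ) ^ ℓ * 4 ^ k = (2 ^ ℓ) ^ 18 := by
              rw [hk, ← pow_add, ← pow_mul, show (4 : ℝ) = 2 ^ 2 by norm_num, ← pow_mul]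
              congr 1; ring
          _ ≤ (2 * X) ^ 18 := by gcongr
          _ = 2 ^ 18 * X ^ 18 := by rw [mul_pow]
      calc (n : ℝ) = τ * 36 ^ j * (b * 4 ^ ℓ) * c₀ := hnz
        _ ≤ 2 * 36 ^ J * (b * 4 ^ ℓ) * (2 * 4 ^ k) := by
            have : τ ≤ 2 := by linarith
            gcongr
        _ = 4 * 36 ^ J * b * (4 ^ ℓ * 4 ^ k) := by ring
        _ ≤ 4 * 36 ^ J * b * (2 ^ 18 * X ^ 18) := by gcongr
        _ = _ := by ring
    have h3 := le_trans hn1 h1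
    have h4 : 4 * 36 ^ J * 2 ^ 18 * X ^ 20 = (4 * 36 ^ J * 2 ^ 18 * X ^ 18) * X ^ 2 := by ring
    rw [h4] at h3
    exact le_of_mul_le_mul_left h3 (by positivity)
  obtain ⟨m₀, hm₀⟩ : ∃ m₀ : ℕ, z - A = m₀ := by
    refine ⟨(z - A).toNat, ?_⟩
    rw [Int.toNat_of_nonneg]
    by_contra h
    push Not at h
    have : b ≤ 1 := by
      rw [hb]; exact zpow_le_one_of_nonpos₀ (by norm_num) h.le
    linarith
  have hbm : b = 2 ^ m₀ := by rw [hb, hm₀, zpow_natCast]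
  have hm1 : 1 ≤ m₀ := by
    by_contra h
    have : m₀ = 0 := by omega
    rw [this, pow_zero] at hbm
    linarith
  -- T, q
  have hcost : ((cost k m₀ : ℕ) : ℝ) = 2 ^ m₀ * c₀ + 4 ^ k := by
    unfold cost; push_cast; rw [hc₀]
  have hTpos : 0 < 36 ^ j * cost k m₀ := by
    apply Nat.mul_pos (by positivity)
    unfold cost
    have : 0 < 4 ^ k := by positivity
    omega
  have hTR : ((36 ^ j * cost k m₀ : ℕ) : ℝ) = 36 ^ j * (b * c₀ + 4 ^ k) := by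
    push_cast; rw [hcost, hbm]
  have h3d : 3 ≤ d * X := by
    rw [div_le_iff₀ hd] at hX2; linarith
  have hQ : 2 ^ A + 1 ≤ n / (36 ^ j * cost k m₀) := by
    rw [Nat.le_div_iff_mul_le hTpos]
    have h1 : (((2 ^ A + 1) * (36 ^ j * cost k m₀) : ℕ) : ℝ) ≤ n := by
      rw [Nat.cast_mul, hTR]
      push_cast
      rw [h2A, hnz]
      have hXX : X ≤ X ^ 2 := le_self_pow₀ (by linarith) (by norm_num)
      have ha3 : 3 ≤ d * 4 ^ ℓ := le_trans h3d (by gcongr; linarith)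
      have hb3 : 3 ≤ d * b := le_trans h3d (by gcongr; linarith)
      have ha1 : (2 : ℝ) ≤ 4 ^ ℓ := by linarith
      have hb1 : (2 : ℝ) ≤ b := by linarith
      have h5 : (4 ^ ℓ + 1) * (b + 1) ≤ (1 + d) * (4 ^ ℓ * b) := by
        have e1 : 3 * b ≤ d * 4 ^ ℓ * b := mul_le_mul_of_nonneg_right ha3 hb0.le
        have e2 : 3 * 4 ^ ℓ ≤ d * b * 4 ^ ℓ := mul_le_mul_of_nonneg_right hb3 (by positivity)
        have e3 : (4 ^ ℓ + 1) * (b + 1) = 4 ^ ℓ * b + 4 ^ ℓ + b + 1 := by ring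
        have e4 : (1 + d) * (4 ^ ℓ * b) = 4 ^ ℓ * b + d * 4 ^ ℓ * b := by ring
        have e5 : d * b * 4 ^ ℓ = d * 4 ^ ℓ * b := by ring
        rw [e3, e4]
        linarith
      have h6 : (1 + d) * (4 ^ ℓ * b) ≤ τ * (4 ^ ℓ * b) := by gcongr
      have h7 : b * c₀ + 4 ^ k ≤ (b + 1) * c₀ := by
        rw [add_mul, one_mul, hc₀]; linarith
      calc ((4 : ℝ) ^ ℓ + 1) * (36 ^ j * (b * c₀ + 4 ^ k)) ≤ (4 ^ ℓ + 1) * (36 ^ j * ((b + 1) * c₀)) := by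
            gcongr
        _ = 36 ^ j * c₀ * ((4 ^ ℓ + 1) * (b + 1)) := by ring
        _ ≤ 36 ^ j * c₀ * (τ * (4 ^ ℓ * b)) := by
            apply mul_le_mul_of_nonneg_left (le_trans h5 h6) (by positivity)
        _ = _ := by ring
    exact_mod_cast h1
  set Q := n / (36 ^ j * cost k m₀) with hQdef
  have h2A1 : 1 ≤ 2 ^ A := Nat.one_le_two_pow
  obtain ⟨q, hq⟩ : ∃ q, Q = q + 1 := ⟨Q - 1, by omega⟩
  have hqA : 2 ^ A ≤ q := by omega
  have hqT : (q + 1) * (36 ^ j * cost k m₀) ≤ n := by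
    rw [← hq]; exact Nat.div_mul_le_self _ _
  have hnq : n < (q + 2) * (36 ^ j * cost k m₀) := by
    have h1 := Nat.lt_div_mul_add (a := n) hTpos
    rw [← hQdef, hq] at h1
    linarith
  have hqle : (q : ℝ) ≤ (1 + η) * 2 ^ A := by
    rw [h2A]
    have h1 : ((q : ℝ) + 1) * (36 ^ j * (b * c₀ + 4 ^ k)) ≤ n := by
      rw [← hTR]; exact_mod_cast hqT
    have h2 : (q : ℝ) * (36 ^ j * (b * c₀)) ≤ (1 + η) * 4 ^ ℓ * (36 ^ j * (b * c₀)) := by
      calc (q : ℝ) * (36 ^ j * (b * c₀)) ≤ ((q : ℝ) + 1) * (36 ^ j * (b * c₀ + 4 ^ k)) := by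
            gcongr
            · linarith
            · linarith
        _ ≤ n := h1
        _ = τ * 4 ^ ℓ * (36 ^ j * (b * c₀)) := by rw [hnz]; ring
        _ ≤ _ := by gcongr
    exact le_of_mul_le_mul_right h2 (by positivity)
  obtain ⟨S, hS1, hS2, hS3, hS4, _⟩ := bits3 A q η hη hqA hqle
  have hk3 : 3 ≤ k := by omega
  have hc1 := core1 k j m₀ A q n η hk3 hm1 S hS1 hS2 hS3 hS4 (by linarith) M' hM
  -- core2
  have hq1 : (1 : ℝ) ≤ q := by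
    have : 1 ≤ q := le_trans Nat.one_le_two_pow hqA
    exact_mod_cast this
  have hqX : X ^ 2 ≤ q := by
    have h1 : (2 : ℝ) ^ A ≤ q := by exact_mod_cast hqA
    rw [h2A] at h1; linarith
  set L₀ : ℝ := 2 ^ k * 6 ^ j with hL₀
  have hL₀p : 0 < L₀ := by positivity
  have hLN : (4 : ℝ) ^ k * 36 ^ j = L₀ ^ 2 := sq_lem k j
  set N : ℝ := 4 ^ k * 36 ^ j with hN
  have hNp : 0 < N := by positivity
  set l := Real.logb 2 L₀ with hl
  have hlN : Real.logb 2 N = 2 * l := by rw [hLN, Real.logb_pow]; push_cast; ring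
  have hmm : Real.logb 2 ((2 : ℝ) ^ m₀) = m₀ := by
    rw [Real.logb_pow, Real.logb_self_eq_one (by norm_num), mul_one]
  set ρ : ℝ := (R + 1) / 4 ^ k with hρ
  set e₁ : ℝ := 2 * R / 4 ^ k + 1 / 2 ^ m₀ with he₁
  set f : ℝ := 4 / L₀ + 7 / 2 * Real.sqrt η with hf
  have hρ0 : 0 ≤ ρ := by positivity
  have hρX : ρ ≤ 1 / X ^ 2 := by
    rw [hρ, div_le_div_iff₀ (by positivity) (by positivity)]
    linarith
  have hX2inv : 1 / X ^ 2 ≤ 1 / X := by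
    apply one_div_le_one_div_of_le hXpos; exact le_self_pow₀ (by linarith) (by norm_num)
  have hXinv : 1 / X ≤ 1 / 128 := one_div_le_one_div_of_le (by norm_num) hX
  have hρ1 : ρ ≤ 1 := by linarith
  have he0 : 0 ≤ e₁ := by positivity
  have heX : e₁ ≤ 3 * (1 / X ^ 2) := by
    have h1 : 2 * (R : ℝ) / 4 ^ k ≤ 2 * (1 / X ^ 2) := by
      have : 2 * (R : ℝ) / 4 ^ k ≤ 2 * ρ := by
        rw [hρ, mul_div_assoc']
        gcongr
        linarith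
      linarith
    have h2 : 1 / (2 : ℝ) ^ m₀ ≤ 1 / X ^ 2 := by
      rw [← hbm]; exact one_div_le_one_div_of_le (by positivity) hbX
    rw [he₁]; linarith
  have hqinv : 2 / (q : ℝ) ≤ 2 * (1 / X ^ 2) := by
    have : 1 / (q : ℝ) ≤ 1 / X ^ 2 := one_div_le_one_div_of_le (by positivity) hqX
    have h2 : 2 / (q : ℝ) = 2 * (1 / q) := by ring
    linarith
  have hLX : 4 / L₀ ≤ 4 * (1 / X ^ 2) := by
    have h1 : X ^ 2 ≤ L₀ := by
      have h2 : (4 : ℝ) ^ ℓ ≤ 2 ^ k := by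
        rw [show (4 : ℝ) = 2 ^ 2 by norm_num, ← pow_mul]
        exact pow_le_pow_right₀ (by norm_num) (by omega)
      have h3 : (1 : ℝ) ≤ 6 ^ j := one_le_pow₀ (by norm_num)
      have h4 : (2 : ℝ) ^ k ≤ L₀ := by
        rw [hL₀]; exact le_mul_of_one_le_right (by positivity) h3
      linarith
    have : 1 / L₀ ≤ 1 / X ^ 2 := one_div_le_one_div_of_le (by positivity) h1
    have h2 : 4 / L₀ = 4 * (1 / L₀) := by ring
    linarith
  have hf0 : 0 ≤ f := by positivity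
  have hsum1 : 2 / (q : ℝ) + e₁ + f ≤ 9 * (1 / X) + 7 / 2 * Real.sqrt η := by
    rw [hf]; linarith
  have hsη : Real.sqrt η ≤ 1 := Real.sqrt_le_one.2 hη
  have hnle : (n : ℝ) ≤ (q + 2) * (N * 2 ^ m₀ * (1 + e₁)) := by
    have h1 : (n : ℝ) ≤ ((q : ℝ) + 2) * (36 ^ j * (b * c₀ + 4 ^ k)) := by
      rw [← hTR]; exact_mod_cast hnq.le
    have h2 : (36 : ℝ) ^ j * (b * c₀ + 4 ^ k) = N * 2 ^ m₀ * (1 + e₁) := by
      rw [hN, he₁, hc₀, hbm]; field_simp; ring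
    rw [h2] at h1; exact h1
  have hc2 := core2 n q N (2 ^ m₀) l m₀ ρ e₁ f hn0 hq1 hNp (by positivity) hlN hmm he0 hρ0 hρ1 hnle hf0
    (by linarith)
  rw [← hXdef] at hc2
  have hKeq : (Fintype.card (Ct k) * 36 ^ j : ℝ) = (1 - ρ) * N := by
    have h1 := card_Ct k (by omega)
    have h2 : (Fintype.card (Ct k) : ℝ) + R + 1 = 4 ^ k := by exact_mod_cast h1
    have h3 : (Fintype.card (Ct k) : ℝ) = 4 ^ k - (R + 1) := by linarith
    rw [h3, hρ, hN]; field_simp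
  rw [hKeq] at hc1
  -- error terms
  have hℓX : (ℓ : ℝ) ≤ 2 * X := by
    have h1 : ℓ < 2 ^ ℓ := Nat.lt_two_pow_self
    have h2 : (ℓ : ℝ) ≤ 2 ^ ℓ := by exact_mod_cast h1.le
    linarith
  have hlle : l ≤ (16 + 3 * J) * X := by
    have h1 : l = k + j * Real.logb 2 6 := by
      rw [hl, hL₀, Real.logb_mul (by positivity) (by positivity), Real.logb_pow, Real.logb_pow,
        Real.logb_self_eq_one (by norm_num), mul_one]
    have h2 : Real.logb 2 6 ≤ 3 := by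
      rw [Real.logb_le_iff_le_rpow (by norm_num) (by norm_num)]; norm_num
    have h3 : (k : ℝ) = 8 * ℓ := by rw [hk]; push_cast; ring
    have h4 : (j : ℝ) ≤ J := by exact_mod_cast hj
    have h5 : (j : ℝ) * Real.logb 2 6 ≤ J * 3 :=
      mul_le_mul h4 h2 (Real.logb_nonneg (by norm_num) (by norm_num)) (by positivity)
    have h6 : (J : ℝ) * 3 ≤ 3 * J * X := by
      have h7 : (0 : ℝ) ≤ 3 * J := by positivity
      have h8 := mul_le_mul_of_nonneg_left (show 1 ≤ X by linarith) h7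
      linarith
    rw [h1, h3]
    linarith
  have hl0 : 0 ≤ l := by
    rw [hl]; apply Real.logb_nonneg (by norm_num)
    have h3 : (1 : ℝ) ≤ 6 ^ j := one_le_pow₀ (by norm_num)
    have h4 : (1 : ℝ) ≤ 2 ^ k := one_le_pow₀ (by norm_num)
    rw [hL₀]; exact one_le_mul_of_one_le_of_one_le h4 h3
  have hNle : N ≤ 36 ^ J * (2 ^ 16 * X ^ 16) := by
    have h1 : (4 : ℝ) ^ k ≤ 2 ^ 16 * X ^ 16 := by
      calc (4 : ℝ) ^ k = (2 ^ ℓ) ^ 16 := by
            rw [hk, ← pow_mul, show (4 : ℝ) = 2 ^ 2 by norm_num, ← pow_mul]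
            congr 1; ring
        _ ≤ (2 * X) ^ 16 := by gcongr
        _ = 2 ^ 16 * X ^ 16 := by rw [mul_pow]
    rw [hN, mul_comm]
    gcongr
  have hAle : (A : ℝ) + 2 ≤ 6 * X := by
    rw [hA]; push_cast; linarith
  have hE : (1 - ρ) * N * (2 * (A + 2) * l) + X + 1 ≤ ε / 2 * n := by
    refine le_trans ?_ hn2
    have h1 : (1 - ρ) * N * (2 * (A + 2) * l) ≤ N * (2 * (A + 2) * l) := by
      have h0 : 0 ≤ ρ * (N * (2 * (A + 2) * l)) := by positivity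
      have h9 : (1 - ρ) * N * (2 * (A + 2) * l) = N * (2 * (A + 2) * l) - ρ * (N * (2 * (A + 2) * l)) := by
        ring
      linarith
    have h2 : N * (2 * (A + 2) * l) ≤ (36 ^ J * (2 ^ 16 * X ^ 16)) * (2 * (6 * X) * ((16 + 3 * J) * X)) := by
      gcongr
    have h3 : (36 ^ J * (2 ^ 16 * X ^ 16)) * (2 * (6 * X) * ((16 + 3 * J) * X)) =
        2 * 36 ^ J * 2 ^ 16 * 6 * (16 + 3 * J) * X ^ 18 := by ring
    have h4 : X ≤ X ^ 18 := le_self_pow₀ (by linarith) (by norm_num)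
    rw [h3] at h2
    have h5 : (2 * 36 ^ J * 2 ^ 16 * 6 * (16 + 3 * (J : ℝ)) + 2) * X ^ 18 =
        2 * 36 ^ J * 2 ^ 16 * 6 * (16 + 3 * (J : ℝ)) * X ^ 18 + 2 * X ^ 18 := by ring
    rw [h5]
    linarith
  have hF : n * (2 / q + e₁ + f) + n * (2 / q + e₁ + ρ) * (X / 2) ≤ ε / 2 * n := by
    have h1 : (2 / (q : ℝ) + e₁ + ρ) * (X / 2) ≤ 3 * (1 / X) := by
      have h2 : 2 / (q : ℝ) + e₁ + ρ ≤ 6 * (1 / X ^ 2) := by linarith
      have h3 := mul_le_mul_of_nonneg_right h2 (show 0 ≤ X / 2 by positivity)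
      have h4 : 6 * (1 / X ^ 2) * (X / 2) = 3 * (1 / X) := by field_simp; ring
      linarith
    have h5 : 12 * (1 / X) ≤ ε / 4 := by
      have h6 : 48 / ε ≤ X := hX1
      rw [div_le_iff₀ hε] at h6
      rw [mul_one_div, div_le_iff₀ hXpos]
      linarith
    have h7 : (2 / (q : ℝ) + e₁ + f) + (2 / (q : ℝ) + e₁ + ρ) * (X / 2) ≤ ε / 2 := by linarith
    have h8 := mul_le_mul_of_nonneg_right h7 hn0.le
    linarith
  have hfin : (1 - ρ) * N * (2 ^ m₀ * (q * (1 / 2 * (m₀ + 2 * l + Real.logb 2 q) - 1 -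
      4 / L₀ - 7 / 2 * Real.sqrt η)) - 2 * (A + 2) * l) =
      (1 - ρ) * N * 2 ^ m₀ * q * (1 / 2 * (m₀ + 2 * l + Real.logb 2 q) - 1 - f) -
        (1 - ρ) * N * (2 * (A + 2) * l) := by
    rw [hf]; ring
  rw [hfin] at hc1
  linarith

end Pool.Agent.MN
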