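import Pool.Agent.MN.XDefs
import Pool.Agent.MN.Gam

/-!
# MN-XBase: duality for the second alphabet and for pairs

* `dual'`: `P.dual` says that the matrix product `(dl)ᵀ * v = 1`; hence `v * (dl)ᵀ = 1` (`Matrix.mul_eq_one_comm`, or
  `mul_eq_one_comm` for square matrices with `Matrix.of`).
* `dualX`: product of `sum_chi_chi` (file Gam) and `P.dual` (`Fintype.sum_prod_type`, `Finset.sum_mul_sum`).
* `eq_zeroX`: multiply by `chi δ.1 β.1 * P.dl δ.2 β.2`, sum over `δ`, `dualX`.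
* `ttX_inv`: exchange the sums; `sum_chi_chi'` (file Gam) and `dual'`.
-/

namespace Pool.Agent.MN

open Finset Pool.Agent.Helper42.Asum

variable {m k : ℕ}

theorem dual' (P : Alph) (a a' : P.Λ) : ∑ b, P.v a b * P.dl a' b = if a = a' then (1 : ℝ) else 0 := by
  have h1 : (Matrix.of fun b a => P.dl a b) * (Matrix.of P.v) = (1 : Matrix P.Λ P.Λ ℝ) := by
    ext b c
    rw [Matrix.mul_apply, Matrix.one_apply]
    exact P.dual b c
  have h2 : (Matrix.of P.v) * (Matrix.of fun b a => P.dl a b) = (1 : Matrix P.Λ P.Λ ℝ) :=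
    mul_eq_one_comm.1 h1
  have h3 := congrFun (congrFun h2 a) a'
  rw [Matrix.mul_apply, Matrix.one_apply] at h3
  exact h3

private theorem sum_pair {A B : Type*} [Fintype A] [Fintype B] (f : A → ℝ) (g : B → ℝ) :
    ∑ δ : A × B, f δ.1 * g δ.2 = (∑ a, f a) * ∑ b, g b := by
  rw [Fintype.sum_prod_type, Finset.sum_mul_sum]

theorem dualX (P : Alph) (β γ : Gm k × P.Λ) :
    ∑ δ : Gm k × P.Λ, (chi δ.1 β.1 * P.dl δ.2 β.2) * (chi δ.1 γ.1 * P.v δ.2 γ.2) =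
      if β = γ then (4 : ℝ) ^ k else 0 := by
  have h1 : ∀ δ : Gm k × P.Λ, (chi δ.1 β.1 * P.dl δ.2 β.2) * (chi δ.1 γ.1 * P.v δ.2 γ.2) =
      (chi δ.1 β.1 * chi δ.1 γ.1) * (P.dl δ.2 β.2 * P.v δ.2 γ.2) := by
    intro δ
    ring
  rw [Finset.sum_congr rfl fun δ _ => h1 δ,
    sum_pair (fun a => chi a β.1 * chi a γ.1) (fun b => P.dl b β.2 * P.v b γ.2),
    sum_chi_chi, P.dual]
  by_cases h : β = γ
  · rw [h, if_pos rfl, if_pos rfl, if_pos rfl, mul_one]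
  · rw [if_neg h]
    by_cases h2 : β.1 = γ.1
    · have h3 : β.2 ≠ γ.2 := fun e => h (Prod.ext h2 e)
      rw [if_neg h3, mul_zero]
    · rw [if_neg h2, zero_mul]

theorem eq_zeroX (P : Alph) (u : Gm k × P.Λ → ℝ)
    (h : ∀ δ : Gm k × P.Λ, ∑ γ : Gm k × P.Λ, chi δ.1 γ.1 * P.v δ.2 γ.2 * u γ = 0) : u = 0 := by
  funext β
  have h1 : ∑ δ : Gm k × P.Λ, (chi δ.1 β.1 * P.dl δ.2 β.2) *
      ∑ γ : Gm k × P.Λ, chi δ.1 γ.1 * P.v δ.2 γ.2 * u γ = 0 :=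
    Finset.sum_eq_zero (fun δ _ => by rw [h δ, mul_zero])
  have h2 : ∑ δ : Gm k × P.Λ, (chi δ.1 β.1 * P.dl δ.2 β.2) *
      ∑ γ : Gm k × P.Λ, chi δ.1 γ.1 * P.v δ.2 γ.2 * u γ
      = ∑ γ : Gm k × P.Λ, (∑ δ : Gm k × P.Λ, (chi δ.1 β.1 * P.dl δ.2 β.2) *
        (chi δ.1 γ.1 * P.v δ.2 γ.2)) * u γ := by
    simp only [Finset.mul_sum, Finset.sum_mul]
    rw [Finset.sum_comm]
    refine Finset.sum_congr rfl (fun γ _ => Finset.sum_congr rfl (fun δ _ => ?_))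
    ring
  rw [h2, Finset.sum_congr rfl fun γ _ => by rw [dualX P β γ]] at h1
  simp only [ite_mul, zero_mul, Finset.sum_ite_eq, mem_univ, if_true] at h1
  have h4 : ((4 : ℝ) ^ k) ≠ 0 := by positivity
  simpa [h4] using h1

theorem ttX_inv (P : Alph) (G : Gm k × P.Λ → W m → ℝ) (ε : Gm k × P.Λ) (x : W m) :
    TtX P (fun a : W m × (Gm k × P.Λ) => (4 : ℝ)⁻¹ ^ k *
      ∑ δ : Gm k × P.Λ, chi δ.1 a.2.1 * P.dl δ.2 a.2.2 * G δ a.1) ε x = G ε x := by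
  unfold TtX
  have h1 : ∀ δ : Gm k × P.Λ, ∑ γ : Gm k × P.Λ, (chi ε.1 γ.1 * P.v ε.2 γ.2) *
      (chi δ.1 γ.1 * P.dl δ.2 γ.2) = if ε = δ then (4 : ℝ) ^ k else 0 := by
    intro δ
    have h2 : ∀ γ : Gm k × P.Λ, (chi ε.1 γ.1 * P.v ε.2 γ.2) * (chi δ.1 γ.1 * P.dl δ.2 γ.2) =
        (chi ε.1 γ.1 * chi δ.1 γ.1) * (P.v ε.2 γ.2 * P.dl δ.2 γ.2) := by
      intro γ
      ring
    rw [Finset.sum_congr rfl fun γ _ => h2 γ,
      sum_pair (fun a => chi ε.1 a * chi δ.1 a) (fun b => P.v ε.2 b * P.dl δ.2 b),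
      sum_chi_chi', dual']
    by_cases h : ε = δ
    · rw [h, if_pos rfl, if_pos rfl, if_pos rfl, mul_one]
    · rw [if_neg h]
      by_cases h2 : ε.1 = δ.1
      · have h3 : ε.2 ≠ δ.2 := fun e => h (Prod.ext h2 e)
        rw [if_neg h3, mul_zero]
      · rw [if_neg h2, zero_mul]
  have h3 : ∑ γ : Gm k × P.Λ, chi ε.1 γ.1 * P.v ε.2 γ.2 * ((4 : ℝ)⁻¹ ^ k *
      ∑ δ : Gm k × P.Λ, chi δ.1 γ.1 * P.dl δ.2 γ.2 * G δ x) =
      (4 : ℝ)⁻¹ ^ k * ∑ δ : Gm k × P.Λ, (∑ γ : Gm k × P.Λ, (chi ε.1 γ.1 * P.v ε.2 γ.2) *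
        (chi δ.1 γ.1 * P.dl δ.2 γ.2)) * G δ x := by
    simp only [Finset.mul_sum, Finset.sum_mul]
    rw [Finset.sum_comm]
    refine Finset.sum_congr rfl (fun δ _ => Finset.sum_congr rfl (fun γ _ => ?_))
    ring
  refine h3.trans ?_
  rw [Finset.sum_congr rfl fun δ _ => by rw [h1 δ]]
  simp only [ite_mul, zero_mul, Finset.sum_ite_eq, mem_univ, if_true]
  rw [← mul_assoc, ← mul_pow, inv_mul_cancel₀ (by norm_num : (4 : ℝ) ≠ 0), one_pow, one_mul]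

end Pool.Agent.MN
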