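import Mathlib

/-!
# Project MN, exact version: entropy of binary expansions
-/

namespace Pool.Agent.MN

private lemma ent_log (x y : ℝ) (hx : 0 < x) (hy : 0 < y) :
    (x + y) * Real.log (x + y) ≤ x * Real.log x + y * Real.log y + (x + y) * Real.log 2 := by
  have h1 := Real.log_le_sub_one_of_pos (show 0 < (x + y) / (2 * x) by positivity)
  have h2 := Real.log_le_sub_one_of_pos (show 0 < (x + y) / (2 * y) by positivity)
  rw [Real.log_div (by positivity) (by positivity), Real.log_mul (by norm_num) hx.ne'] at h1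
  rw [Real.log_div (by positivity) (by positivity), Real.log_mul (by norm_num) hy.ne'] at h2
  have h3 := mul_le_mul_of_nonneg_left h1 hx.le
  have h4 := mul_le_mul_of_nonneg_left h2 hy.le
  have h5 : x * ((x + y) / (2 * x) - 1) = (y - x) / 2 := by field_simp; ring
  have h6 : y * ((x + y) / (2 * y) - 1) = (x - y) / 2 := by field_simp; ring
  rw [h5] at h3
  rw [h6] at h4
  nlinarith

private lemma ent_logb (x y : ℝ) (hx : 0 < x) (hy : 0 ≤ y) (hyx : y ≤ x) :
    (x + y) * Real.logb 2 (x + y) ≤ x * Real.logb 2 x + y * Real.logb 2 y + 2 * x := by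
  rcases hy.eq_or_lt with rfl | hy
  · simp; linarith
  · have h := ent_log x y hx hy
    have hl : 0 < Real.log 2 := Real.log_pos (by norm_num)
    have h2 : (x + y) * Real.log 2 ≤ 2 * x * Real.log 2 := by
      apply mul_le_mul_of_nonneg_right _ hl.le; linarith
    have h3 : (x + y) * Real.log (x + y) ≤ x * Real.log x + y * Real.log y + 2 * x * Real.log 2 := by
      linarith
    unfold Real.logb
    have h4 : (x + y) * (Real.log (x + y) / Real.log 2) = ((x + y) * Real.log (x + y)) / Real.log 2 := by ring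
    have h5 : x * (Real.log x / Real.log 2) + y * (Real.log y / Real.log 2) + 2 * x =
        (x * Real.log x + y * Real.log y + 2 * x * Real.log 2) / Real.log 2 := by field_simp
    rw [h4, h5]
    gcongr

private lemma log_one_add_le (z : ℝ) (hz : 0 ≤ z) : Real.log (1 + z) ≤ 2 * Real.sqrt z := by
  have h1 : 1 + z ≤ (1 + Real.sqrt z) ^ 2 := by
    have := Real.sq_sqrt hz
    have := Real.sqrt_nonneg z
    nlinarith
  have h2 : Real.log (1 + z) ≤ Real.log ((1 + Real.sqrt z) ^ 2) := Real.log_le_log (by positivity) h1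
  rw [Real.log_pow] at h2
  have h3 := Real.log_le_sub_one_of_pos (show 0 < 1 + Real.sqrt z by positivity)
  push_cast at h2
  linarith

private lemma ent_small (x y η : ℝ) (hx : 0 < x) (hy : 0 ≤ y) (hη : η ≤ 1) (hyx : y ≤ η * x) :
    (x + y) * Real.logb 2 (x + y) + 2 * y ≤ x * Real.logb 2 x + y * Real.logb 2 y + 7 * Real.sqrt η * x := by
  have hη0 : 0 ≤ η := by
    by_contra h
    push Not at h
    nlinarith
  rcases hy.eq_or_lt with rfl | hy
  · simp; positivity
  · have hl : 0 < Real.log 2 := Real.log_pos (by norm_num)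
    have hl2 := Real.log_two_gt_d9
    have hsη : η ≤ Real.sqrt η := by
      have h1 := Real.sqrt_nonneg η
      have h2 := Real.sq_sqrt hη0
      have h3 : Real.sqrt η ≤ 1 := by exact Real.sqrt_le_one.2 hη
      nlinarith
    -- x log (1 + y/x) ≤ y
    have e1 : x * Real.log (x + y) ≤ x * Real.log x + y := by
      have h1 : x + y = x * (1 + y / x) := by field_simp
      rw [h1, Real.log_mul hx.ne' (by positivity)]
      have h2 := Real.log_le_sub_one_of_pos (show 0 < 1 + y / x by positivity)
      have h3 := mul_le_mul_of_nonneg_left h2 hx.le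
      have h4 : x * (1 + y / x - 1) = y := by field_simp; ring
      rw [h4] at h3
      linarith
    have e2 : y * Real.log (x + y) ≤ y * Real.log y + 2 * (Real.sqrt η * x) := by
      have h1 : x + y = y * (1 + x / y) := by field_simp; ring
      rw [h1, Real.log_mul hy.ne' (by positivity)]
      have h2 := log_one_add_le (x / y) (by positivity)
      have h3 := mul_le_mul_of_nonneg_left h2 hy.le
      have h4 : y * Real.sqrt (x / y) ≤ Real.sqrt η * x := by
        have h5 : y * Real.sqrt (x / y) = Real.sqrt (x * y) := by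
          rw [show x * y = y ^ 2 * (x / y) by field_simp, Real.sqrt_mul (by positivity), Real.sqrt_sq hy.le]
        rw [h5]
        rw [show Real.sqrt η * x = Real.sqrt (η * x ^ 2) by
          rw [Real.sqrt_mul hη0, Real.sqrt_sq hx.le]]
        apply Real.sqrt_le_sqrt
        nlinarith
      nlinarith
    have e3 : (x + y) * Real.log (x + y) ≤ x * Real.log x + y * Real.log y + (y + 2 * (Real.sqrt η * x)) := by
      nlinarith
    have e4 : y ≤ Real.sqrt η * x := le_trans hyx (by gcongr)
    have e5 : (x + y) * Real.log (x + y) + 2 * y * Real.log 2 ≤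
        x * Real.log x + y * Real.log y + 7 * Real.sqrt η * x * Real.log 2 := by
      have h0 : 0 ≤ Real.sqrt η * x := by positivity
      nlinarith
    unfold Real.logb
    have h4 : (x + y) * (Real.log (x + y) / Real.log 2) + 2 * y =
        ((x + y) * Real.log (x + y) + 2 * y * Real.log 2) / Real.log 2 := by field_simp
    have h5 : x * (Real.log x / Real.log 2) + y * (Real.log y / Real.log 2) + 7 * Real.sqrt η * x =
        (x * Real.log x + y * Real.log y + 7 * Real.sqrt η * x * Real.log 2) / Real.log 2 := by field_simp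
    rw [h4, h5]
    gcongr

theorem bits2 (A : ℕ) : ∀ q : ℕ, q < 2 ^ (A + 1) → ∃ S : List ℕ,
    (S.map (fun a => 2 ^ a)).sum = q ∧
    (q : ℝ) * Real.logb 2 q ≤ (S.map (fun a : ℕ => (a : ℝ) * 2 ^ a)).sum + 2 * q ∧
    S.length ≤ A + 1 ∧ ∀ a ∈ S, a ≤ A := by
  induction A with
  | zero =>
    intro q hq
    have h : q = 0 ∨ q = 1 := by norm_num at hq; omega
    rcases h with rfl | rfl
    · exact ⟨[], by simp⟩
    · exact ⟨[0], by simp⟩
  | succ A ih =>
    intro q hq
    by_cases h : q < 2 ^ (A + 1)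
    · obtain ⟨S, h1, h2, h3, h4⟩ := ih q h
      exact ⟨S, h1, h2, by omega, fun a ha => by have := h4 a ha; omega⟩
    · push Not at h
      obtain ⟨q', rfl⟩ : ∃ q', q = 2 ^ (A + 1) + q' := ⟨q - 2 ^ (A + 1), by omega⟩
      have hq' : q' < 2 ^ (A + 1) := by
        rw [pow_succ 2 (A + 1)] at hq; omega
      obtain ⟨S, h1, h2, h3, h4⟩ := ih q' hq'
      refine ⟨(A + 1) :: S, ?_, ?_, ?_, ?_⟩
      · rw [List.map_cons, List.sum_cons, h1]
      · rw [List.map_cons, List.sum_cons]
        have h5 := ent_logb ((2 : ℝ) ^ (A + 1)) q' (by positivity) (by positivity)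
          (by exact_mod_cast hq'.le)
        have h6 : Real.logb 2 ((2 : ℝ) ^ (A + 1)) = ((A + 1 : ℕ) : ℝ) := by
          rw [Real.logb_pow, Real.logb_self_eq_one (by norm_num), mul_one]
        rw [h6] at h5
        push_cast at h5 h2 ⊢
        linarith
      · simpa using h3
      · intro a ha
        rcases List.mem_cons.1 ha with rfl | ha
        · exact le_refl _
        · have := h4 a ha; omega

theorem bits3 (A q : ℕ) (η : ℝ) (hη : η ≤ 1) (h1 : 2 ^ A ≤ q) (h2 : (q : ℝ) ≤ (1 + η) * 2 ^ A) :
    ∃ S : List ℕ, (S.map (fun a => 2 ^ a)).sum = q ∧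
    (q : ℝ) * Real.logb 2 q ≤ (S.map (fun a : ℕ => (a : ℝ) * 2 ^ a)).sum + 7 * Real.sqrt η * q ∧
    S.length ≤ A + 2 ∧ 1 ≤ S.length ∧ ∀ a ∈ S, a ≤ A := by
  obtain ⟨q', rfl⟩ : ∃ q', q = 2 ^ A + q' := ⟨q - 2 ^ A, by omega⟩
  push_cast at h2
  have hq' : (q' : ℝ) ≤ η * 2 ^ A := by linarith
  have hlt : q' < 2 ^ (A + 1) := by
    have h3 : (q' : ℝ) < 2 ^ (A + 1) := by
      have : (0 : ℝ) < 2 ^ A := by positivity
      rw [pow_succ]; nlinarith
    exact_mod_cast h3
  obtain ⟨S, e1, e2, e3, e4⟩ := bits2 A q' hlt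
  have h5 := ent_small ((2 : ℝ) ^ A) q' η (by positivity) (by positivity) hη hq'
  have h6 : Real.logb 2 ((2 : ℝ) ^ A) = (A : ℝ) := by
    rw [Real.logb_pow, Real.logb_self_eq_one (by norm_num), mul_one]
  rw [h6] at h5
  refine ⟨A :: S, ?_, ?_, ?_, ?_, ?_⟩
  · rw [List.map_cons, List.sum_cons, e1]
  · rw [List.map_cons, List.sum_cons]
    push_cast
    have : 0 ≤ 7 * Real.sqrt η * q' := by positivity
    linarith
  · rw [List.length_cons]; omega
  · rw [List.length_cons]; omega
  · intro a ha
    rcases List.mem_cons.1 ha with rfl | ha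
    · exact le_refl _
    · exact e4 a ha

end Pool.Agent.MN
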