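import Pool.Agent.MN.XHomF

/-!
# MN-XChSum: the sums over the channel sets, second alphabet

* `sum_sq`: for `f : Gm k × P.Λ → ℝ` and homogeneous `κ`: `∑ a, f a.2 * κ a = 0` by the coordinates `Sum.inr (Sum.inr γ)`.
* `chan_fullX`: `msum_pos0` with `F = sg (wb m i x) * (chi δ.1 γ.1 * P.v δ.2 γ.2)` (values `0, 1, -1`); `F ^ 2` depends only on
  the second variable (`sg ^ 2 = 1`), and `∑ a, F a * κ a = ew m i (TtX P κ δ)`.
* `chan_halfX`: with `G = chi δ.1 γ.1 * chi (fun _ => 1) γ.1 = ±1` the indicator of `pos F && pos G` is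
  `(F^2 + F) * (1 + G) / 4`; the four sums are `0`, `ew m i (TtX P κ δ)`, `0` (`F^2 * G` depends only on the second variable) and
  `∑ F * G * κ = ew m i (TtX P κ (fun _ => 1, δ.2)) = 0` (`chi δ γ * chi δ γ = 1`; `hom_iffX`, `nz (fun _ => 1) = 0`).
See `Pool/Agent/MN/ChSum.lean` for the version without second alphabet.
-/

namespace Pool.Agent.MN

open Finset Pool.Agent.Helper42.Asum

variable {m k : ℕ}

private theorem sgY_sq (b : Bool) : sg b ^ 2 = 1 := by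
  cases b <;> simp [sg]

private theorem sgY_sign (b : Bool) : sg b = 1 ∨ sg b = -1 := by
  cases b <;> simp [sg]

private theorem chiY_sq (δ γ : Gm k) : chi δ γ ^ 2 = 1 := by
  rcases chi_sign δ γ with h | h <;> rw [h] <;> norm_num

private theorem valY (P : Alph) (i : ℕ) (δ : Gm k × P.Λ) (a : W m × (Gm k × P.Λ)) :
    sg (wb m i a.1) * (chi δ.1 a.2.1 * P.v δ.2 a.2.2) = 0 ∨
      sg (wb m i a.1) * (chi δ.1 a.2.1 * P.v δ.2 a.2.2) = 1 ∨
      sg (wb m i a.1) * (chi δ.1 a.2.1 * P.v δ.2 a.2.2) = -1 := by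
  rcases sgY_sign (wb m i a.1) with h1 | h1 <;> rcases chi_sign δ.1 a.2.1 with h2 | h2 <;>
    rcases P.v_val δ.2 a.2.2 with h3 | h3 | h3 <;> rw [h1, h2, h3] <;> simp

private theorem colY (P : Alph) (κ : W m × (Gm k × P.Λ) → ℝ) (hκ : Hom (bsfX m k P) κ)
    (γ : Gm k × P.Λ) : ∑ x, κ (x, γ) = 0 := by
  have h := hκ.2 (Sum.inr (Sum.inr γ))
  unfold msum at h
  rw [Fintype.sum_prod_type] at h
  rw [← h]
  apply sum_congr rfl
  intro x _
  rw [Finset.sum_eq_single γ]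
  · rw [if_pos]
    exact decide_eq_true (show (x, γ).2 = γ from rfl)
  · intro γ' _ hne
    rw [if_neg]
    intro h1
    exact hne (of_decide_eq_true h1)
  · intro h1
    exact absurd (mem_univ γ) h1

private theorem sumY (P : Alph) (κ : W m × (Gm k × P.Λ) → ℝ) (hκ : Hom (bsfX m k P) κ)
    (f : Gm k × P.Λ → ℝ) : ∑ a : W m × (Gm k × P.Λ), f a.2 * κ a = 0 := by
  rw [Fintype.sum_prod_type, Finset.sum_comm]
  apply Finset.sum_eq_zero
  intro γ _
  have h9 : ∀ x : W m, f (x, γ).2 * κ (x, γ) = f γ * κ (x, γ) := fun x => rfl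
  rw [Finset.sum_congr rfl (fun x _ => h9 x), ← Finset.mul_sum, colY P κ hκ γ, mul_zero]

private theorem splitY (P : Alph) (κ : W m × (Gm k × P.Λ) → ℝ) (i : ℕ) (δ : Gm k × P.Λ) :
    ∑ a : W m × (Gm k × P.Λ), sg (wb m i a.1) * (chi δ.1 a.2.1 * P.v δ.2 a.2.2) * κ a =
      ew m i (TtX P κ δ) := by
  unfold ew TtX
  rw [Fintype.sum_prod_type]
  apply sum_congr rfl
  intro x _
  rw [Finset.mul_sum]
  apply sum_congr rfl
  intro γ _
  ring

theorem chan_fullX (P : Alph) (κ : W m × (Gm k × P.Λ) → ℝ) (hκ : Hom (bsfX m k P) κ) (i : ℕ)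
    (δ : Gm k × P.Λ) :
    msum (fun a : W m × (Gm k × P.Λ) => pos (sg (wb m i a.1) * (chi δ.1 a.2.1 * P.v δ.2 a.2.2))) κ =
      ew m i (TtX P κ δ) / 2 := by
  rw [msum_pos0 (fun a : W m × (Gm k × P.Λ) => sg (wb m i a.1) * (chi δ.1 a.2.1 * P.v δ.2 a.2.2))
    (fun a => valY P i δ a) κ, splitY]
  have h1 : ∑ a : W m × (Gm k × P.Λ),
      (sg (wb m i a.1) * (chi δ.1 a.2.1 * P.v δ.2 a.2.2)) ^ 2 * κ a = 0 := by
    rw [← sumY P κ hκ (fun γ => P.v δ.2 γ.2 ^ 2)]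
    refine Finset.sum_congr rfl fun a _ => ?_
    rw [mul_pow, mul_pow, sgY_sq, chiY_sq, one_mul, one_mul]
  rw [h1, zero_add]

theorem chan_halfX (P : Alph) (κ : W m × (Gm k × P.Λ) → ℝ) (hκ : Hom (bsfX m k P) κ) (i : ℕ)
    (δ : Gm k × P.Λ) :
    msum (fun a : W m × (Gm k × P.Λ) => pos (sg (wb m i a.1) * (chi δ.1 a.2.1 * P.v δ.2 a.2.2)) &&
      pos (chi δ.1 a.2.1 * chi (fun _ => 1) a.2.1)) κ = ew m i (TtX P κ δ) / 4 := by
  have hkey : ∀ F G : ℝ, (F = 0 ∨ F = 1 ∨ F = -1) → (G = 1 ∨ G = -1) → ∀ c : ℝ,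
      (if (pos F && pos G) = true then c else 0) =
        (F ^ 2 * c + F * c + F ^ 2 * G * c + F * G * c) / 4 := by
    intro F G hF hG c
    have h1 : pos (1 : ℝ) = true := by simp [pos]
    have h2 : pos (-1 : ℝ) = false := by
      simp only [pos, decide_eq_false_iff_not]
      norm_num
    have h3 : pos (0 : ℝ) = false := by simp [pos]
    rcases hF with rfl | rfl | rfl <;> rcases hG with rfl | rfl <;>
      simp only [h1, h2, h3, Bool.and_self, Bool.and_false, if_true,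
        Bool.false_eq_true, if_false, Bool.and_true] <;> ring
  have hG : ∀ a : W m × (Gm k × P.Λ), chi δ.1 a.2.1 * chi (fun _ => 1) a.2.1 = 1 ∨
      chi δ.1 a.2.1 * chi (fun _ => 1) a.2.1 = -1 := by
    intro a
    rcases chi_sign δ.1 a.2.1 with h1 | h1 <;> rcases chi_sign (fun _ => 1) a.2.1 with h2 | h2 <;>
      rw [h1, h2] <;> norm_num
  unfold msum
  rw [Finset.sum_congr rfl (fun a _ => hkey _ _ (valY P i δ a) (hG a) (κ a)), ← Finset.sum_div,
    Finset.sum_add_distrib, Finset.sum_add_distrib, Finset.sum_add_distrib]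
  have h1 : ∑ a : W m × (Gm k × P.Λ),
      (sg (wb m i a.1) * (chi δ.1 a.2.1 * P.v δ.2 a.2.2)) ^ 2 * κ a = 0 := by
    rw [← sumY P κ hκ (fun γ => P.v δ.2 γ.2 ^ 2)]
    refine Finset.sum_congr rfl fun a _ => ?_
    rw [mul_pow, mul_pow, sgY_sq, chiY_sq, one_mul, one_mul]
  have h2 : ∑ a : W m × (Gm k × P.Λ),
      (sg (wb m i a.1) * (chi δ.1 a.2.1 * P.v δ.2 a.2.2)) ^ 2 *
        (chi δ.1 a.2.1 * chi (fun _ => 1) a.2.1) * κ a = 0 := by
    rw [← sumY P κ hκ (fun γ => P.v δ.2 γ.2 ^ 2 * (chi δ.1 γ.1 * chi (fun _ => 1) γ.1))]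
    refine Finset.sum_congr rfl fun a _ => ?_
    rw [mul_pow, mul_pow, sgY_sq, chiY_sq, one_mul, one_mul]
  have h3 : ∑ a : W m × (Gm k × P.Λ),
      (sg (wb m i a.1) * (chi δ.1 a.2.1 * P.v δ.2 a.2.2)) *
        (chi δ.1 a.2.1 * chi (fun _ => 1) a.2.1) * κ a = 0 := by
    have h4 : ew m i (TtX P κ ((fun _ => 1 : Gm k), δ.2)) = 0 := by
      have h6 : nz (fun _ => 1 : Gm k) ≤ 1 := by
        unfold nz
        rw [Finset.filter_false_of_mem]
        · rw [Finset.card_empty]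
          exact Nat.zero_le _
        · intro j _ h7
          exact absurd (show (1 : Fin 4) = 0 from h7) (by decide)
      have h8 := ((hom_iffX P κ).1 hκ).1 ((fun _ => 1 : Gm k), δ.2) (Or.inl h6)
      unfold ew
      apply Finset.sum_eq_zero
      intro x _
      rw [h8 x, mul_zero]
    rw [← h4, ← splitY]
    refine Finset.sum_congr rfl fun a _ => ?_
    have h5 := chiY_sq δ.1 a.2.1
    show _ = sg (wb m i a.1) * (chi (fun _ => 1 : Gm k) a.2.1 * P.v δ.2 a.2.2) * κ a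
    linear_combination (sg (wb m i a.1) * (chi (fun _ => 1 : Gm k) a.2.1 * P.v δ.2 a.2.2) * κ a) * h5
  rw [h1, h2, h3, splitY]
  ring

end Pool.Agent.MN
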