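import Pool.Agent.MN.XRig
import Pool.Agent.MN.XChSum
import Pool.Agent.MN.XChan

/-!
# MN-XBlkC: assembly of the concrete block with a second alphabet

Adapt `Pool/Agent/MN/BlkC.lean` (`exists_blk`): channels are the pairs `δ = (δ₁, a)` in `Ct k × P.Λ`, eigenvalue
`lam δ₁ * P.mu a`, absolute value `L₀ = 2 ^ k * P.r ≥ 4` (`abs_lam`, `P.abs_mu`, `P.hr`), `T δ` from `exists_recX`,
`cin l a = pos (sg (wb m 1 a.1) * (chi δ.1 a.2.1 * P.v δ.2 a.2.2))`, `cout` with `wb m (2^m-1)`, half versions with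
`&& pos (chi δ.1 a.2.1 * chi (fun _ => 1) a.2.1)`.
`sep`: if `(γ, b) ≠ (γ', b')` the two coordinates `Sum.inr (Sum.inr ..)`; otherwise `x ≠ x'`: `Sum.inr (Sum.inl ((x, b), δ, s))` and
`Sum.inr (Sum.inl ((x', b), δ, s))`, `δ = fun _ => 1`, `s = pos (chi δ γ)`.
`inj`: `rec_uniqueX`, `hom_iffX`, then for every `x` the function `κ (x, ·)` vanishes by `eq_zeroX`.
`ex`: `ttX_inv`.
-/

namespace Pool.Agent.MN

open Finset Pool.Agent.Helper42.Asum

private theorem ew_lin {m : ℕ} (i : ℕ) (c : ℝ) (T U : W m → ℝ) :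
    ew m i (fun x => T x - c * U x) = ew m i T - c * ew m i U := by
  unfold ew
  rw [Finset.mul_sum, ← Finset.sum_sub_distrib]
  exact Finset.sum_congr rfl fun x _ => by ring

private theorem er_lin {m : ℕ} (i : ℕ) (c : ℝ) (T U : W m → ℝ) :
    er m i (fun x => T x - c * U x) = er m i T - c * er m i U := by
  unfold er
  rw [Finset.mul_sum, ← Finset.sum_sub_distrib]
  exact Finset.sum_congr rfl fun x _ => by ring

private theorem rec_lin {m : ℕ} {L : ℝ} (c : ℝ) {T U : W m → ℝ} (hT : Rec m L T)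
    (hU : Rec m L U) : Rec m L (fun x => T x - c * U x) := by
  refine ⟨?_, fun i h1 h2 => ?_⟩
  · rw [ew_lin, hT.1, hU.1]
    ring
  · have h3 := hT.2 i h1 h2
    have h4 := hU.2 i h1 h2
    unfold nn at h3 h4 ⊢
    rw [er_lin, ew_lin]
    linear_combination h3 - c * h4

private theorem rec_zero {m : ℕ} (L : ℝ) : Rec m L (fun _ => 0) := by
  have h1 : ∀ i, ew m i (fun _ => 0) = 0 := by
    intro i
    unfold ew
    simp
  have h2 : ∀ i, er m i (fun _ => 0) = 0 := by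
    intro i
    unfold er
    simp
  refine ⟨h1 0, fun i _ _ => ?_⟩
  unfold nn
  rw [h1, h2]
  ring

private theorem rec_smul {m : ℕ} {L : ℝ} (c : ℝ) {T : W m → ℝ} (hT : Rec m L T) :
    Rec m L (fun x => c * T x) := by
  have h := rec_lin (-c) (rec_zero L) hT
  have e : (fun x => (0 : ℝ) - -c * T x) = fun x => c * T x := by
    funext x
    ring
  rwa [e] at h

private theorem ew_smul' {m : ℕ} (i : ℕ) (c : ℝ) (T : W m → ℝ) :
    ew m i (fun x => c * T x) = c * ew m i T := by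
  unfold ew
  rw [Finset.mul_sum]
  exact Finset.sum_congr rfl fun x _ => by ring

private theorem rec_prop {m : ℕ} (hm : 1 ≤ m) {L₀ L : ℝ} (hL₀ : 4 ≤ L₀) (hL : |L| = L₀)
    {T U : W m → ℝ} (hT : Rec m L T) (hU : Rec m L U) (h1 : ew m 1 U = 1) (i : ℕ) :
    ew m i T = ew m i U * ew m 1 T := by
  have h2 := rec_uniqueX hm hL₀ hL (rec_lin (ew m 1 T) hT hU) (by
    rw [ew_lin, h1]
    ring)
  have h3 : ew m i (fun x => T x - ew m 1 T * U x) = 0 := by
    rw [h2]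
    unfold ew
    simp
  rw [ew_lin] at h3
  linarith

private theorem nz_one (k : ℕ) : nz (fun _ : Fin k => (1 : Fin 4)) ≤ 1 := by
  unfold nz
  have h : (univ.filter fun j : Fin k => (fun _ : Fin k => (1 : Fin 4)) j = 0) = ∅ := by
    rw [Finset.filter_eq_empty_iff]
    intro j _
    show ¬ ((1 : Fin 4) = 0)
    decide
  rw [h]
  simp

private theorem bsfX_sep (m k : ℕ) (P : Alph) (x x' : W m × (Gm k × P.Λ)) (h : x ≠ x') :
    ∃ i i' : BIxX m k P, i ≠ i' ∧ bsfX m k P x i ≠ bsfX m k P x' i ∧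
      bsfX m k P x i' ≠ bsfX m k P x' i' := by
  by_cases h2 : x.2 = x'.2
  · have h1 : x.1 ≠ x'.1 := fun h1 => h (Prod.ext h1 h2)
    have h1' : (x.1, x.2.2) ≠ (x'.1, x'.2.2) := fun h3 => h1 (Prod.mk.inj h3).1
    obtain ⟨d, hd⟩ : ∃ d : Rt k, d = ⟨fun _ => 1, nz_one k⟩ := ⟨_, rfl⟩
    refine ⟨Sum.inr (Sum.inl ((x.1, x.2.2), d, pos (chi d.1 x.2.1))),
      Sum.inr (Sum.inl ((x'.1, x'.2.2), d, pos (chi d.1 x.2.1))), ?_, ?_, ?_⟩
    · intro h3
      apply h1'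
      have h4 := Sum.inl_injective (Sum.inr_injective h3)
      exact (Prod.mk.inj h4).1
    · show (decide ((x.1, x.2.2) = (x.1, x.2.2)) &&
          (pos (chi d.1 x.2.1) == pos (chi d.1 x.2.1))) ≠
        (decide ((x'.1, x'.2.2) = (x.1, x.2.2)) &&
          (pos (chi d.1 x'.2.1) == pos (chi d.1 x.2.1)))
      rw [decide_eq_true rfl, decide_eq_false (Ne.symm h1'), beq_self_eq_true]
      simp
    · show (decide ((x.1, x.2.2) = (x'.1, x'.2.2)) &&
          (pos (chi d.1 x.2.1) == pos (chi d.1 x.2.1))) ≠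
        (decide ((x'.1, x'.2.2) = (x'.1, x'.2.2)) &&
          (pos (chi d.1 x'.2.1) == pos (chi d.1 x.2.1)))
      rw [decide_eq_true (rfl : (x'.1, x'.2.2) = (x'.1, x'.2.2)), decide_eq_false h1', ← h2,
        beq_self_eq_true]
      simp
  · refine ⟨Sum.inr (Sum.inr x.2), Sum.inr (Sum.inr x'.2), ?_, ?_, ?_⟩
    · intro h3
      exact h2 (Sum.inr_injective (Sum.inr_injective h3))
    · show decide (x.2 = x.2) ≠ decide (x'.2 = x.2)
      rw [decide_eq_true rfl, decide_eq_false (Ne.symm h2)]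
      simp
    · show decide (x.2 = x'.2) ≠ decide (x'.2 = x'.2)
      rw [decide_eq_true (rfl : x'.2 = x'.2), decide_eq_false h2]
      simp

private theorem abs_LX {k : ℕ} (P : Alph) (δ : Gm k × P.Λ) :
    |lam δ.1 * P.mu δ.2| = 2 ^ k * P.r := by
  rw [abs_mul, abs_lam, P.abs_mu]

private theorem neX (P : Alph) : Nonempty P.Λ := by
  rw [← Fintype.card_pos_iff]
  have h1 := P.card_r
  have h2 := P.hr
  have h3 : (0 : ℝ) < (Fintype.card P.Λ : ℝ) := by
    rw [h1]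
    positivity
  exact_mod_cast h3

theorem exists_blkX (m k : ℕ) (P : Alph) (hm : 1 ≤ m) (hk : 2 ≤ k) :
    ∃ S : Blk (Fintype.card (Ct k × P.Λ)),
      Fintype.card S.B = 2 ^ m * (4 ^ k * Fintype.card P.Λ) ∧
      Fintype.card S.I = (2 ^ m - 2) * (4 ^ k * Fintype.card P.Λ) +
        ((2 ^ m * Fintype.card P.Λ) * (Fintype.card (Rt k) * 2) + 4 ^ k * Fintype.card P.Λ) ∧
      ∀ l < Fintype.card (Ct k × P.Λ), grX m (2 ^ k * P.r) ≤ |S.g l| := by
  have hL₀ : (4 : ℝ) ≤ 2 ^ k * P.r := by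
    have h1 : (2 : ℝ) ^ 2 ≤ 2 ^ k := pow_le_pow_right₀ (by norm_num) hk
    have h2 := P.hr
    nlinarith
  obtain ⟨b₀⟩ := neX P
  have hneW : Nonempty (W m) := by
    rw [← Fintype.card_pos_iff, card_W]
    positivity
  have hneΛ : Nonempty P.Λ := ⟨b₀⟩
  obtain ⟨en, -⟩ : ∃ en : Ct k × P.Λ ≃ Fin (Fintype.card (Ct k × P.Λ)), en = en :=
    ⟨Fintype.equivFin _, rfl⟩
  obtain ⟨ch, hch⟩ : ∃ ch : ℕ → Gm k × P.Λ, ∀ δ : Ct k × P.Λ, ch (en δ).val = (δ.1.1, δ.2) := by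
    refine ⟨fun l => if h : l < Fintype.card (Ct k × P.Λ) then
      ((en.symm ⟨l, h⟩).1.1, (en.symm ⟨l, h⟩).2) else (0, b₀), fun δ => ?_⟩
    show (if h : (en δ).val < Fintype.card (Ct k × P.Λ) then
      ((en.symm ⟨(en δ).val, h⟩).1.1, (en.symm ⟨(en δ).val, h⟩).2) else (0, b₀)) = (δ.1.1, δ.2)
    rw [dif_pos (en δ).2]
    have h1 : en.symm ⟨(en δ).val, (en δ).2⟩ = δ := en.symm_apply_apply δ
    rw [h1]
  have hsurj : ∀ l < Fintype.card (Ct k × P.Λ), ∃ δ : Ct k × P.Λ, (en δ).val = l := by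
    intro l hl
    refine ⟨en.symm ⟨l, hl⟩, ?_⟩
    rw [en.apply_symm_apply]
  choose T hT hT1 using fun l : ℕ => exists_recX hm hL₀ (abs_LX P (ch l))
  have hTt : ∀ κ : W m × (Gm k × P.Λ) → ℝ, Hom (bsfX m k P) κ →
      ∀ δ, Rec m (lam δ.1 * P.mu δ.2) (TtX P κ δ) :=
    fun κ hκ δ => ((hom_iffX P κ).1 hκ).2 δ
  refine ⟨{
    B := W m × (Gm k × P.Λ)
    I := BIxX m k P
    bs := bsfX m k P
    cin := fun l a => pos (sg (wb m 1 a.1) * (chi (ch l).1 a.2.1 * P.v (ch l).2 a.2.2))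
    cout := fun l a =>
      pos (sg (wb m (2 ^ m - 1) a.1) * (chi (ch l).1 a.2.1 * P.v (ch l).2 a.2.2))
    cin' := fun l a => pos (sg (wb m 1 a.1) * (chi (ch l).1 a.2.1 * P.v (ch l).2 a.2.2)) &&
      pos (chi (ch l).1 a.2.1 * chi (fun _ => 1) a.2.1)
    cout' := fun l a =>
      pos (sg (wb m (2 ^ m - 1) a.1) * (chi (ch l).1 a.2.1 * P.v (ch l).2 a.2.2)) &&
      pos (chi (ch l).1 a.2.1 * chi (fun _ => 1) a.2.1)
    g := fun l => ew m (2 ^ m - 1) (T l)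
    fB := inferInstance
    fI := inferInstance
    dB := Classical.decEq _
    dI := Classical.decEq _
    ne := inferInstance
    sep := bsfX_sep m k P
    rig1 := fun t => rig_oneX P t
    rig0 := fun t => rig_zeroX P t
    hout := ?_
    hin' := ?_
    hout' := ?_
    inj := ?_
    ex := ?_ }, ?_, ?_, ?_⟩
  · intro κ hκ l _
    rw [chan_fullX P κ hκ, chan_fullX P κ hκ,
      rec_prop hm hL₀ (abs_LX P (ch l)) (hTt κ hκ (ch l)) (hT l) (hT1 l) (2 ^ m - 1)]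
    ring
  · intro κ hκ l _
    rw [chan_fullX P κ hκ, chan_halfX P κ hκ]
    ring
  · intro κ hκ l _
    rw [chan_fullX P κ hκ, chan_halfX P κ hκ]
    ring
  · intro κ hκ h
    have h0 : ∀ δ : Gm k × P.Λ, ∀ x, TtX P κ δ x = 0 := by
      intro δ x
      by_cases hδ : nz δ.1 ≤ 1 ∨ δ.1 = 0
      · exact ((hom_iffX P κ).1 hκ).1 δ hδ x
      · rw [not_or, not_le] at hδ
        have h1 := h (en (⟨δ.1, hδ.1, hδ.2⟩, δ.2)).val (en (⟨δ.1, hδ.1, hδ.2⟩, δ.2)).2
        rw [chan_fullX P κ hκ, hch] at h1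
        have h2 : ew m 1 (TtX P κ δ) = 0 := by
          have h3 : ew m 1 (TtX P κ δ) / 2 = 0 := h1
          linarith
        have h3 := rec_uniqueX hm hL₀ (abs_LX P δ) (hTt κ hκ δ) h2
        rw [h3]
        rfl
    funext a
    obtain ⟨x, γ⟩ := a
    have h1 := eq_zeroX P (fun γ => κ (x, γ)) (fun δ => h0 δ x)
    exact congrFun h1 γ
  · intro z
    obtain ⟨G, hG⟩ : ∃ G : Gm k × P.Λ → W m → ℝ, ∀ δ x, G δ x =
        if h : 2 ≤ nz δ.1 ∧ δ.1 ≠ 0 then
        2 * z (en (⟨δ.1, h⟩, δ.2)).val * T (en (⟨δ.1, h⟩, δ.2)).val x else 0 := ⟨_, fun _ _ => rfl⟩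
    have hGpos : ∀ δ : Ct k × P.Λ, G (δ.1.1, δ.2) =
        fun x => 2 * z (en δ).val * T (en δ).val x := by
      intro δ
      funext x
      rw [hG, dif_pos δ.1.2]
    have hGneg : ∀ δ : Gm k × P.Λ, ¬ (2 ≤ nz δ.1 ∧ δ.1 ≠ 0) → G δ = fun _ => 0 := by
      intro δ hδ
      funext x
      rw [hG, dif_neg hδ]
    obtain ⟨κ, hκ⟩ : ∃ κ : W m × (Gm k × P.Λ) → ℝ,
        κ = fun a : W m × (Gm k × P.Λ) => (4 : ℝ)⁻¹ ^ k *
          ∑ δ : Gm k × P.Λ, chi δ.1 a.2.1 * P.dl δ.2 a.2.2 * G δ a.1 := ⟨_, rfl⟩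
    have hTG : ∀ δ, TtX P κ δ = G δ := by
      intro δ
      funext x
      rw [hκ]
      exact ttX_inv P G δ x
    have hHom : Hom (bsfX m k P) κ := by
      rw [hom_iffX]
      refine ⟨fun δ hδ x => ?_, fun δ => ?_⟩
      · rw [hTG, hGneg δ]
        rintro ⟨h1, h2⟩
        rcases hδ with h3 | h3
        · omega
        · exact h2 h3
      · rw [hTG]
        by_cases h : 2 ≤ nz δ.1 ∧ δ.1 ≠ 0
        · have h1 := hT (en (⟨δ.1, h⟩, δ.2)).val
          rw [hch] at h1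
          have h2 := hGpos (⟨δ.1, h⟩, δ.2)
          have h3 : G δ = fun x => 2 * z (en (⟨δ.1, h⟩, δ.2)).val *
            T (en (⟨δ.1, h⟩, δ.2)).val x := h2
          rw [h3]
          exact rec_smul _ h1
        · rw [hGneg δ h]
          exact rec_zero _
    refine ⟨κ, hHom, fun l hl => ?_⟩
    obtain ⟨δ, rfl⟩ := hsurj l hl
    rw [chan_fullX P κ hHom, hch, hTG, hGpos, ew_smul', hT1]
    ring
  · show Fintype.card (W m × (Gm k × P.Λ)) = 2 ^ m * (4 ^ k * Fintype.card P.Λ)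
    rw [Fintype.card_prod, Fintype.card_prod, card_W]
    simp
  · show Fintype.card (BIxX m k P) = _
    rw [Fintype.card_sum, Fintype.card_sum, Fintype.card_prod, Fintype.card_prod,
      Fintype.card_prod, Fintype.card_prod, Fintype.card_prod, card_W]
    simp
  · intro l _
    have h := growthX hm hL₀ (abs_LX P (ch l)) (hT l)
    rw [hT1, abs_one, mul_one] at h
    exact h

end Pool.Agent.MN
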