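import Pool.Agent.MN.XDefs

/-!
# MN-XPow: powers of a second alphabet

Induction on `j`.  `j = 0`: `Λ = Unit`, everything `1` (`v = H = mu = dl = 1`, `r = 1`).
Step: the product of `P` and `Q`: `Λ = P.Λ × Q.Λ`, `v a b = P.v a.1 b.1 * Q.v a.2 b.2`, the same for `H`, `dl`, `mu`,
`r = P.r * Q.r`.  Sums: `Fintype.sum_prod_type` and `Finset.sum_mul_sum`.
-/

namespace Pool.Agent.MN

open Finset

private theorem sum_pairP {A B : Type*} [Fintype A] [Fintype B] (f : A → ℝ) (g : B → ℝ) :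
    ∑ δ : A × B, f δ.1 * g δ.2 = (∑ a, f a) * ∑ b, g b := by
  rw [Fintype.sum_prod_type, Finset.sum_mul_sum]

/-- the trivial alphabet -/
private noncomputable def unitAlph : Alph where
  Λ := Unit
  v := fun _ _ => 1
  H := fun _ _ => 1
  mu := fun _ => 1
  r := 1
  dl := fun _ _ => 1
  v_val := fun _ _ => Or.inr (Or.inl rfl)
  H_sign := fun _ _ => Or.inl rfl
  H_self := fun _ => rfl
  hr := le_rfl
  card_r := by simp
  abs_mu := fun _ => abs_one
  eig := fun _ _ => by simp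
  dual := fun _ _ => by simp

/-- the product of two alphabets -/
private noncomputable def prodAlph (P Q : Alph) : Alph where
  Λ := P.Λ × Q.Λ
  v := fun a b => P.v a.1 b.1 * Q.v a.2 b.2
  H := fun a b => P.H a.1 b.1 * Q.H a.2 b.2
  mu := fun a => P.mu a.1 * Q.mu a.2
  r := P.r * Q.r
  dl := fun a b => P.dl a.1 b.1 * Q.dl a.2 b.2
  v_val := fun a b => by
    rcases P.v_val a.1 b.1 with h | h | h <;> rcases Q.v_val a.2 b.2 with h' | h' | h' <;>
      rw [h, h'] <;> norm_num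
  H_sign := fun a b => by
    rcases P.H_sign a.1 b.1 with h | h <;> rcases Q.H_sign a.2 b.2 with h' | h' <;>
      rw [h, h'] <;> norm_num
  H_self := fun a => by rw [P.H_self, Q.H_self, one_mul]
  hr := one_le_mul_of_one_le_of_one_le P.hr Q.hr
  card_r := by
    rw [Fintype.card_prod, Nat.cast_mul, P.card_r, Q.card_r]
    ring
  abs_mu := fun a => by rw [abs_mul, P.abs_mu, Q.abs_mu]
  eig := fun a c => by
    have h1 : ∀ b : P.Λ × Q.Λ, P.v a.1 b.1 * Q.v a.2 b.2 * (P.H b.1 c.1 * Q.H b.2 c.2) =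
        (P.v a.1 b.1 * P.H b.1 c.1) * (Q.v a.2 b.2 * Q.H b.2 c.2) := fun b => by ring
    rw [Finset.sum_congr rfl fun b _ => h1 b,
      sum_pairP (fun b => P.v a.1 b * P.H b c.1) (fun b => Q.v a.2 b * Q.H b c.2), P.eig, Q.eig]
    ring
  dual := fun b c => by
    have h1 : ∀ a : P.Λ × Q.Λ, P.dl a.1 b.1 * Q.dl a.2 b.2 * (P.v a.1 c.1 * Q.v a.2 c.2) =
        (P.dl a.1 b.1 * P.v a.1 c.1) * (Q.dl a.2 b.2 * Q.v a.2 c.2) := fun a => by ring
    rw [Finset.sum_congr rfl fun a _ => h1 a,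
      sum_pairP (fun a => P.dl a b.1 * P.v a c.1) (fun a => Q.dl a b.2 * Q.v a c.2), P.dual,
      Q.dual]
    by_cases h : b = c
    · rw [h, if_pos rfl, if_pos rfl, if_pos rfl, mul_one]
    · rw [if_neg h]
      by_cases h2 : b.1 = c.1
      · have h3 : b.2 ≠ c.2 := fun e => h (Prod.ext h2 e)
        rw [if_neg h3, mul_zero]
      · rw [if_neg h2, zero_mul]

theorem exists_pow (P : Alph) (j : ℕ) : ∃ Q : Alph, Fintype.card Q.Λ = Fintype.card P.Λ ^ j ∧ Q.r = P.r ^ j := by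
  induction j with
  | zero => exact ⟨unitAlph, Fintype.card_unit, (pow_zero _).symm⟩
  | succ j ih =>
    obtain ⟨Q, h1, h2⟩ := ih
    refine ⟨prodAlph Q P, ?_, ?_⟩
    · have h3 : Fintype.card (prodAlph Q P).Λ = Fintype.card Q.Λ * Fintype.card P.Λ :=
        Fintype.card_prod _ _
      rw [h3, h1, pow_succ]
    · show Q.r * P.r = _
      rw [h2, pow_succ]

end Pool.Agent.MN
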