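import Pool.Agent.MN.XLow
import Pool.Agent.MN.XPow
import Pool.Agent.MN.XAlph36
import Pool.Agent.MN.XBits

/-!
# Project MN, exact version: lower bound for one list of blocks
-/

namespace Pool.Agent.MN

open Finset Pool.Agent.Helper42.Asum

private lemma cost_add (k m a : ℕ) : cost k (m + a) ≤ 2 ^ a * cost k m := by
  unfold cost
  have h1 : 1 ≤ 2 ^ a := Nat.one_le_two_pow
  rw [pow_add]
  have h2 : 4 ^ k ≤ 2 ^ a * 4 ^ k := Nat.le_mul_of_pos_left _ h1
  nlinarith

private lemma cost_one (k m : ℕ) (hm : 1 ≤ m) : cost k 1 ≤ cost k m := by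
  unfold cost
  have h1 : 2 ^ 1 ≤ 2 ^ m := Nat.pow_le_pow_right (by norm_num) hm
  nlinarith [Nat.mul_le_mul_right (4 ^ k + 2 * Fintype.card (Rt k)) h1]

private lemma sum_cost (k m : ℕ) (S : List ℕ) :
    ((S.map (fun a => m + a)).map (cost k)).sum ≤ (S.map (fun a => 2 ^ a)).sum * cost k m := by
  induction S with
  | nil => simp
  | cons a S ih =>
    simp only [List.map_cons, List.sum_cons]
    have := cost_add k m a
    rw [Nat.add_mul]
    exact Nat.add_le_add this ih

private lemma sum_real (S : List ℕ) (f g : ℕ → ℝ) (h : ∀ a ∈ S, f a ≤ g a) :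
    (S.map f).sum ≤ (S.map g).sum := by
  induction S with
  | nil => simp
  | cons a S ih =>
    simp only [List.map_cons, List.sum_cons]
    exact add_le_add (h a (by simp)) (ih (fun b hb => h b (by simp [hb])))

private lemma sum_lin (S : List ℕ) (u v w : ℝ) :
    (S.map (fun a : ℕ => u * 2 ^ a + v * ((a : ℝ) * 2 ^ a) - w)).sum =
      u * (((S.map (fun a => 2 ^ a)).sum : ℕ) : ℝ) + v * (S.map (fun a : ℕ => (a : ℝ) * 2 ^ a)).sum -
        w * S.length := by
  induction S with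
  | nil => simp
  | cons a S ih =>
    simp only [List.map_cons, List.sum_cons, List.length_cons]
    rw [ih]
    push_cast
    ring

theorem core1 (k j m₀ A q n : ℕ) (η : ℝ) (hk : 3 ≤ k) (hm : 1 ≤ m₀)
    (S : List ℕ) (h1 : (S.map (fun a => 2 ^ a)).sum = q)
    (h2 : (q : ℝ) * Real.logb 2 q ≤ (S.map (fun a : ℕ => (a : ℝ) * 2 ^ a)).sum + 7 * Real.sqrt η * q)
    (h3 : S.length ≤ A + 2) (h3' : 1 ≤ S.length)
    (hn : 36 ^ j * ((q + 1) * cost k m₀) ≤ n) (M' : ℕ) (hM : Certifies n M') :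
    (Fintype.card (Ct k) * 36 ^ j : ℝ) *
      (2 ^ m₀ * (q * (1 / 2 * (m₀ + 2 * Real.logb 2 (2 ^ k * 6 ^ j) + Real.logb 2 q) - 1 -
        4 / (2 ^ k * 6 ^ j) - 7 / 2 * Real.sqrt η)) - 2 * (A + 2) * Real.logb 2 (2 ^ k * 6 ^ j)) -
      Real.logb 2 n - 1 ≤ Real.logb 2 M' := by
  obtain ⟨P, hP1, hP2⟩ := exists_pow alph36 j
  rw [card_alph36] at hP1
  rw [r_alph36] at hP2
  set L := S.map (fun a => m₀ + a) ++ [1] with hL
  have hlen : 2 ≤ L.length := by
    rw [hL, List.length_append, List.length_map]; simp; omega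
  have hL1 : ∀ m ∈ L, 1 ≤ m := by
    intro m hmL
    rw [hL, List.mem_append] at hmL
    rcases hmL with h | h
    · obtain ⟨a, _, rfl⟩ := List.mem_map.1 h; omega
    · have : m = 1 := by simpa using h
      omega
  have hsum : Fintype.card P.Λ * (L.map (cost k)).sum ≤ n := by
    refine le_trans ?_ hn
    rw [hP1]
    apply Nat.mul_le_mul_left
    rw [hL, List.map_append, List.sum_append, Nat.add_mul]
    apply Nat.add_le_add
    · rw [← h1]; exact sum_cost k m₀ S
    · simpa using cost_one k m₀ hm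
  have hlow := low_logX P k n hk L hlen hL1 hsum M' hM
  rw [hP1, hP2] at hlow
  push_cast at hlow
  set L₀ : ℝ := 2 ^ k * 6 ^ j with hL₀
  have h8 : (8 : ℝ) ≤ L₀ := by
    have e1 : (2 : ℝ) ^ 3 ≤ 2 ^ k := pow_le_pow_right₀ (by norm_num) hk
    have e2 : (1 : ℝ) ≤ 6 ^ j := one_le_pow₀ (by norm_num)
    nlinarith
  set l := Real.logb 2 L₀ with hl
  have hl0 : 0 ≤ l := Real.logb_nonneg (by norm_num) (by linarith)
  have hgr1 : grX 1 L₀ = 1 := by
    unfold grX; simp
  have key : 2 ^ m₀ * (q * (1 / 2 * (m₀ + 2 * l + Real.logb 2 q) - 1 -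
        4 / L₀ - 7 / 2 * Real.sqrt η)) - 2 * (A + 2) * l ≤
      (L.map (fun m => Real.logb 2 (grX m L₀))).sum := by
    rw [hL, List.map_append, List.sum_append, List.map_map]
    have e0 : (List.map (fun m => Real.logb 2 (grX m L₀)) [1]).sum = 0 := by
      simp [hgr1]
    rw [e0, add_zero]
    have e1 : (S.map (fun a : ℕ => (2 ^ m₀ * ((m₀ : ℝ) / 2 + l - 1 - 4 / L₀)) * 2 ^ a +
        (2 ^ m₀ / 2) * ((a : ℝ) * 2 ^ a) - 2 * l)).sum ≤
        (S.map ((fun m => Real.logb 2 (grX m L₀)) ∘ fun a => m₀ + a)).sum := by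
      apply sum_real
      intro a _
      have e2 := log_grX (m₀ + a) (by omega) h8
      simp only [Function.comp]
      refine le_trans (le_of_eq ?_) e2
      rw [← hl]
      push_cast
      rw [pow_add]
      ring
    refine le_trans ?_ e1
    rw [sum_lin, h1]
    have e3 : (S.length : ℝ) ≤ A + 2 := by exact_mod_cast h3
    have e4 : 2 * l * S.length ≤ 2 * (A + 2) * l := by nlinarith
    have e5 : (0 : ℝ) < 2 ^ m₀ := by positivity
    have e6 := mul_le_mul_of_nonneg_left h2 e5.le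
    nlinarith
  have hK : (0 : ℝ) ≤ Fintype.card (Ct k) * 36 ^ j := by positivity
  have := mul_le_mul_of_nonneg_left key hK
  linarith

end Pool.Agent.MN
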