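import Pool.Agent.MN.Defs

/-!
# Project MN, exact version: definitions

A second alphabet (symmetric Hadamard matrix with constant diagonal and a basis of eigenvectors with values 0, 1, -1).
The atoms of a block are `W m × (Gm k × P.Λ)`.
-/

namespace Pool.Agent.MN

open Finset Pool.Agent.Helper42.Asum

/-- a second alphabet -/
structure Alph where
  Λ : Type
  [fL : Fintype Λ]
  [dL : DecidableEq Λ]
  v : Λ → Λ → ℝ
  H : Λ → Λ → ℝ
  mu : Λ → ℝ
  r : ℝ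
  dl : Λ → Λ → ℝ
  v_val : ∀ a b, v a b = 0 ∨ v a b = 1 ∨ v a b = -1
  H_sign : ∀ a b, H a b = 1 ∨ H a b = -1
  H_self : ∀ a, H a a = 1
  hr : 1 ≤ r
  card_r : (Fintype.card Λ : ℝ) = r ^ 2
  abs_mu : ∀ a, |mu a| = r
  eig : ∀ a c, ∑ b, v a b * H b c = mu a * v a c
  dual : ∀ b c, ∑ a, dl a b * v a c = if b = c then (1 : ℝ) else 0

attribute [instance] Alph.fL Alph.dL

/-- lower bound for the growth of one channel -/
noncomputable def grX (m : ℕ) (L : ℝ) : ℝ :=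
  ∏ i ∈ Finset.Ico 2 (2 ^ m), ((2 : ℝ) ^ (pc m i) * L / 2 - 2)

/-- the sign function of the row `(i, β)` -/
noncomputable def rowfX {m k : ℕ} (P : Alph) (i : ℕ) (β : Gm k × P.Λ) (a : W m × (Gm k × P.Λ)) : ℝ :=
  if a.2 = β then - sg (rr m i a.1) else sg (wb m (i - 1) a.1) * (Hh β.1 a.2.1 * P.H β.2 a.2.2)

/-- the coordinates of the block -/
abbrev BIxX (m k : ℕ) (P : Alph) : Type :=
  (↥(Finset.Ico 2 (2 ^ m)) × (Gm k × P.Λ)) ⊕ ((W m × P.Λ) × Rt k × Bool) ⊕ (Gm k × P.Λ)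

/-- the incidences of the block -/
noncomputable def bsfX (m k : ℕ) (P : Alph) : W m × (Gm k × P.Λ) → BIxX m k P → Bool
  | a, Sum.inl (i, β) => pos (rowfX P i.1 β a)
  | a, Sum.inr (Sum.inl (x, δ, s)) => decide ((a.1, a.2.2) = x) && (pos (chi δ.1 a.2.1) == s)
  | a, Sum.inr (Sum.inr γ) => decide (a.2 = γ)

/-- transform in the second variable -/
noncomputable def TtX {m k : ℕ} (P : Alph) (κ : W m × (Gm k × P.Λ) → ℝ) (δ : Gm k × P.Λ) (x : W m) : ℝ :=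
  ∑ γ : Gm k × P.Λ, chi δ.1 γ.1 * P.v δ.2 γ.2 * κ (x, γ)

end Pool.Agent.MN
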