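import Mathlib

/-!
# MN-XDens: the multiples of `log₂ 36` are dense modulo one, uniformly

`α = Real.logb 2 36` is irrational: if `α = a / b` then `36 ^ b = 2 ^ a`, divisible by `3`; note `α > 0`.
By Dirichlet (`Real.exists_int_int_abs_mul_sub_le` or `Real.exists_nat_abs_mul_sub_round_le`) there are `q ≥ 1` and `p` with
`β = q * α - p`, `0 < |β| < d`.  Put `I = ⌈1 / |β|⌉ + 1` and `J = q * I`.  Given `y`, the numbers `y - i * β`, `i = 0, …, I`, move by
steps `|β| < d` through an interval of length `≥ 1`, so one of them has distance in `[d, 2 d]` above an integer `z'`: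
let `t = y - 3/2 * d`; if `β > 0` take `i = ⌊fract t / β⌋`, then `t - i * β - ⌊t⌋ ∈ [0, β)`; if `β < 0` take
`i = ⌊(1 - fract t) / |β|⌋`, then `t + i * |β| - (⌊t⌋ + 1) ∈ (-|β|, 0]`.  `j = q * i`, `z = z' - p * i`.
-/

namespace Pool.Agent.MN

private theorem dens_ne (q : ℕ) (hq : 0 < q) (p : ℤ) : (q : ℝ) * Real.logb 2 36 - p ≠ 0 := by
  intro h
  have h1 : (q : ℝ) * Real.logb 2 36 = p := by linarith
  have h2 : (0 : ℝ) ≤ Real.logb 2 36 := Real.logb_nonneg (by norm_num) (by norm_num)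
  have h3 : (0 : ℝ) ≤ (p : ℝ) := by
    rw [← h1]
    positivity
  have h4 : (0 : ℤ) ≤ p := by exact_mod_cast h3
  obtain ⟨n, rfl⟩ := Int.eq_ofNat_of_zero_le h4
  have h5 : ((2 : ℝ) ^ (((n : ℕ) : ℤ) : ℝ)) = 36 ^ q := by
    rw [← h1, mul_comm, Real.rpow_mul (by norm_num), Real.rpow_logb (by norm_num) (by norm_num)
      (by norm_num), Real.rpow_natCast]
  rw [Int.cast_natCast, Real.rpow_natCast] at h5
  have h6 : (2 : ℕ) ^ n = 36 ^ q := by exact_mod_cast h5
  have h7 : 3 ∣ (2 : ℕ) ^ n := by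
    rw [h6]
    exact dvd_pow (by norm_num) hq.ne'
  have h8 : 3 ∣ 2 := Nat.Prime.dvd_of_dvd_pow (by norm_num) h7
  omega

private theorem dens_step (b : ℝ) (hb : b ≠ 0) (t : ℝ) :
    ∃ i ≤ ⌈1 / |b|⌉₊, ∃ z : ℤ, |t - i * b - z| < |b| := by
  have hf0 := Int.fract_nonneg t
  have hf1 := Int.fract_lt_one t
  have hft : t = ⌊t⌋ + Int.fract t := (Int.floor_add_fract t).symm
  rcases lt_or_gt_of_ne hb with h | h
  · have hab : |b| = -b := abs_of_neg h
    have hpos : 0 < -b := by linarith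
    have h0 : 0 ≤ (1 - Int.fract t) / (-b) := div_nonneg (by linarith) hpos.le
    refine ⟨⌊(1 - Int.fract t) / (-b)⌋₊, ?_, ⌊t⌋ + 1, ?_⟩
    · rw [hab]
      have h9 : (1 - Int.fract t) / (-b) ≤ 1 / (-b) :=
        div_le_div_of_nonneg_right (by linarith) hpos.le
      exact (Nat.floor_le_floor h9).trans (Nat.floor_le_ceil _)
    · have h1 := Nat.floor_le h0
      have h2 := Nat.lt_floor_add_one ((1 - Int.fract t) / (-b))
      rw [le_div_iff₀ hpos] at h1
      rw [div_lt_iff₀ hpos] at h2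
      rw [hab, abs_lt]
      push_cast
      constructor <;> nlinarith
  · have hab : |b| = b := abs_of_pos h
    have h0 : 0 ≤ Int.fract t / b := div_nonneg hf0 h.le
    refine ⟨⌊Int.fract t / b⌋₊, ?_, ⌊t⌋, ?_⟩
    · rw [hab]
      have h9 : Int.fract t / b ≤ 1 / b := div_le_div_of_nonneg_right hf1.le h.le
      exact (Nat.floor_le_floor h9).trans (Nat.floor_le_ceil _)
    · have h1 := Nat.floor_le h0
      have h2 := Nat.lt_floor_add_one (Int.fract t / b)
      rw [le_div_iff₀ h] at h1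
      rw [div_lt_iff₀ h] at h2
      rw [hab, abs_lt]
      constructor <;> nlinarith

theorem dens (d : ℝ) (hd : 0 < d) : ∃ J : ℕ, ∀ y : ℝ, ∃ j ≤ J, ∃ z : ℤ,
    d / 2 ≤ y - j * Real.logb 2 36 - z ∧ y - j * Real.logb 2 36 - z ≤ 5 / 2 * d := by
  obtain ⟨n, hn⟩ := exists_nat_one_div_lt hd
  obtain ⟨q, hq0, hqn, hq⟩ := Real.exists_nat_abs_mul_sub_round_le (Real.logb 2 36)
    (Nat.succ_pos n)
  set p : ℤ := round ((q : ℝ) * Real.logb 2 36) with hp
  set b : ℝ := (q : ℝ) * Real.logb 2 36 - p with hb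
  have hb0 : b ≠ 0 := dens_ne q hq0 p
  have hbd : |b| < d := by
    refine lt_of_le_of_lt hq (lt_of_le_of_lt ?_ hn)
    apply one_div_le_one_div_of_le (by positivity)
    push_cast
    linarith
  refine ⟨q * ⌈1 / |b|⌉₊, fun y => ?_⟩
  obtain ⟨i, hi, z, hz⟩ := dens_step b hb0 (y - 3 / 2 * d)
  refine ⟨q * i, Nat.mul_le_mul_left _ hi, z - p * i, ?_⟩
  rw [abs_lt] at hz
  have e : y - ((q * i : ℕ) : ℝ) * Real.logb 2 36 - ((z - p * i : ℤ) : ℝ) =
      (y - 3 / 2 * d - i * b - z) + 3 / 2 * d := by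
    rw [hb]
    push_cast
    ring
  rw [e]
  constructor <;> linarith [hz.1, hz.2]

end Pool.Agent.MN
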