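import Pool.Agent.MN.XAsym
import Pool.Agent.Helper42.Asum.Final

/-!
# Project MN, exact version: the theorem
-/

namespace Pool.Agent.MN

open Finset Filter Topology Pool.Agent.Helper42.Asum

theorem lowerX (ε : ℝ) (hε : 0 < ε) : ∀ᶠ n : ℕ in atTop, ∀ M', Certifies n M' →
    (1 / 2 : ℝ) * n * Real.logb 2 n - (1 + ε) * n ≤ Real.logb 2 M' := by
  set η : ℝ := min 1 ((ε / 14) ^ 2) with hη
  have hη0 : 0 < η := lt_min (by norm_num) (by positivity)
  have hη1 : η ≤ 1 := min_le_left _ _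
  have hη2 : 7 / 2 * Real.sqrt η ≤ ε / 4 := by
    have h1 : Real.sqrt η ≤ ε / 14 := by
      rw [← Real.sqrt_sq (show 0 ≤ ε / 14 by positivity)]
      exact Real.sqrt_le_sqrt (min_le_right _ _)
    linarith
  obtain ⟨J, d, hd, hch⟩ := choose_tau η hη0
  have hlog2 : 0 < Real.log 2 := Real.log_pos (by norm_num)
  have hX_tend : Tendsto (fun n : ℕ => Real.logb 2 (n : ℝ)) atTop atTop :=
    (Real.tendsto_logb_atTop (by norm_num)).comp tendsto_natCast_atTop_atTop
  have hpow : ∀ (p : ℕ) (C : ℝ), 0 < C → ∀ᶠ n : ℕ in atTop, C * (Real.logb 2 (n : ℝ)) ^ p ≤ n := by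
    intro p C hC
    have h1 := (Real.isLittleO_pow_log_id_atTop (n := p)).def (show (0:ℝ) < (Real.log 2) ^ p / C by positivity)
    have h2 := tendsto_natCast_atTop_atTop.eventually h1
    filter_upwards [h2, eventually_ge_atTop 1] with n hn hn1
    have hn1' : (1:ℝ) ≤ n := by exact_mod_cast hn1
    simp only [id, Real.norm_eq_abs] at hn
    rw [abs_of_nonneg (by have := Real.log_nonneg hn1'; positivity), abs_of_nonneg (by positivity)] at hn
    unfold Real.logb
    rw [div_pow, mul_div_assoc', div_le_iff₀ (by positivity)]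
    have h3 := mul_le_mul_of_nonneg_left hn hC.le
    have h4 : C * (Real.log 2 ^ p / C * n) = n * Real.log 2 ^ p := by field_simp
    linarith
  have e1 := hpow 20 (4 * 36 ^ J * 2 ^ 18) (by positivity)
  have e2 := hpow 18 ((2 / ε) * (2 * 36 ^ J * 2 ^ 16 * 6 * (16 + 3 * J) + 2)) (by positivity)
  filter_upwards [e1, e2, hX_tend.eventually_ge_atTop 128, hX_tend.eventually_ge_atTop (48 / ε),
    hX_tend.eventually_ge_atTop (3 / d)] with n h1 h2 h3 h4 h5 M' hM
  refine final_point n J d η ε hη0 hη1 hε hη2 hd hch h3 h4 h5 h1 ?_ M' hM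
  have h6 := mul_le_mul_of_nonneg_left h2 (show 0 ≤ ε / 2 by positivity)
  have h7 : ε / 2 * (2 / ε * (2 * 36 ^ J * 2 ^ 16 * 6 * (16 + 3 * (J : ℝ)) + 2) * Real.logb 2 n ^ 18) =
      (2 * 36 ^ J * 2 ^ 16 * 6 * (16 + 3 * (J : ℝ)) + 2) * Real.logb 2 n ^ 18 := by
    field_simp
  rw [h7] at h6
  exact h6

theorem M_exact (ε : ℝ) (hε : 0 < ε) : ∀ᶠ n : ℕ in atTop,
    (1 / 2 : ℝ) * n * Real.logb 2 n - (1 + ε) * n ≤ Real.logb 2 (M n) ∧
      Real.logb 2 (M n) ≤ (1 / 2 : ℝ) * n * Real.logb 2 n - n + 9 * Real.logb 2 n := by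
  filter_upwards [lowerX ε hε, M_upper_log] with n h1 h2
  exact ⟨h1 (M n) (certifies_M n), h2⟩

theorem M_root : Tendsto (fun n : ℕ => (M n : ℝ) ^ (1 / (n : ℝ)) / Real.sqrt n) atTop (𝓝 (1 / 2)) := by
  have hlog : Tendsto (fun n : ℕ => Real.logb 2 (n : ℝ) / n) atTop (𝓝 0) := by
    have h1 : Tendsto (fun x : ℝ => Real.log x / x) atTop (𝓝 0) := by
      have := Real.isLittleO_log_id_atTop.tendsto_div_nhds_zero
      simpa using this
    have h2 := (h1.comp tendsto_natCast_atTop_atTop).div_const (Real.log 2)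
    simp only [zero_div] at h2
    refine h2.congr (fun n => ?_)
    simp only [Function.comp, Real.logb]
    ring
  have hexp : Tendsto (fun n : ℕ => Real.logb 2 (M n) / n - 1 / 2 * Real.logb 2 n) atTop (𝓝 (-1)) := by
    rw [Metric.tendsto_atTop']
    intro ε hε
    have h1 := M_exact (ε / 2) (by positivity)
    have h2 : ∀ᶠ n : ℕ in atTop, 9 * (Real.logb 2 (n : ℝ) / n) < ε := by
      have h3 := hlog.const_mul 9
      rw [mul_zero] at h3
      exact h3.eventually_lt_const hε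
    obtain ⟨N, hN⟩ := ((h1.and h2).and (eventually_ge_atTop 1)).exists_forall_of_atTop
    refine ⟨N, fun n hn => ?_⟩
    obtain ⟨⟨⟨h3, h4⟩, h5⟩, h6⟩ := hN n hn.le
    have hn0 : (0 : ℝ) < n := by exact_mod_cast h6
    rw [Real.dist_eq, abs_lt]
    have h7 : Real.logb 2 (M n) / n - 1 / 2 * Real.logb 2 n - -1 =
        (Real.logb 2 (M n) - (1 / 2 * n * Real.logb 2 n - n)) / n := by field_simp; ring
    rw [h7]
    constructor
    · rw [lt_div_iff₀ hn0]; nlinarith
    · rw [div_lt_iff₀ hn0]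
      have h8 : 9 * (Real.logb 2 (n : ℝ) / n) * n = 9 * Real.logb 2 n := by field_simp
      have h9 := mul_lt_mul_of_pos_right h5 hn0
      rw [h8] at h9
      linarith
  have hlim : Tendsto (fun n : ℕ => (2 : ℝ) ^ (Real.logb 2 (M n) / n - 1 / 2 * Real.logb 2 n)) atTop
      (𝓝 ((2 : ℝ) ^ (-1 : ℝ))) := by
    exact (Real.continuous_const_rpow (by norm_num)).continuousAt.tendsto.comp hexp
  have h2 : (2 : ℝ) ^ (-1 : ℝ) = 1 / 2 := by
    rw [Real.rpow_neg_one]; norm_num
  rw [h2] at hlim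
  refine hlim.congr' ?_
  have hpos : ∀ᶠ n : ℕ in atTop, 0 < M n := by
    have hX_tend : Tendsto (fun n : ℕ => Real.logb 2 (n : ℝ)) atTop atTop :=
      (Real.tendsto_logb_atTop (by norm_num)).comp tendsto_natCast_atTop_atTop
    filter_upwards [M_exact 1 (by norm_num), hX_tend.eventually_ge_atTop 5, eventually_ge_atTop 1]
      with n h1 h3 h4
    by_contra h
    have h5 : M n = 0 := by omega
    have h6 := h1.1
    rw [h5] at h6
    simp only [Nat.cast_zero, Real.logb_zero] at h6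
    have h7 : (1 : ℝ) ≤ n := by exact_mod_cast h4
    nlinarith
  filter_upwards [hpos, eventually_ge_atTop 1] with n h1 h3
  have hM0 : (0 : ℝ) < M n := by exact_mod_cast h1
  have hn0 : (0 : ℝ) < n := by exact_mod_cast h3
  rw [Real.rpow_sub (by norm_num)]
  congr 1
  · rw [div_eq_mul_one_div, Real.rpow_mul (by norm_num), Real.rpow_logb (by norm_num) (by norm_num) hM0]
  · rw [mul_comm, Real.rpow_mul (by norm_num), Real.rpow_logb (by norm_num) (by norm_num) hn0,
      Real.sqrt_eq_rpow]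

end Pool.Agent.MN
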