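import Pool.Agent.MN.XRowSum
import Pool.Agent.MN.XBase
import Pool.Agent.MN.Chan
import Pool.Agent.MN.RowSum

/-!
# MN-XHomF: the homogeneous solutions of the block with a second alphabet

Adapt `Pool/Agent/MN/HomF.lean` (`hom_iff`).  Put `S δ x b = ∑ γ : Gm k, chi δ γ * κ (x, (γ, b))` and
`τ x b = ∑ γ : Gm k, κ (x, (γ, b))`; `TtX P κ (δ, a) x = ∑ b, P.v a b * S δ x b`.
`(→)`: the coordinates `Sum.inr (Sum.inl ((x, b), δ, s))`, `s = true, false`, have sum `τ x b` and difference `S δ x b`, so all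
these vanish for `nz δ ≤ 1`; `S 0 x b = τ x b` (`chi_zero`, file Gam), `δ = fun _ => 1` has `nz = 0`.  `ew m 0` of the
transform vanishes by the coordinates `Sum.inr (Sum.inr γ)` (`ew_zero`).  Rows: `msum_pos` (file RowSum), `rowfX_sign`,
`sum_rowfX`.  `(←)`: `S δ x b = ∑ a, P.dl a b * TtX P κ (δ, a) x` by `P.dual`; rows and masses by `eq_zeroX`.
-/

namespace Pool.Agent.MN

open Finset Pool.Agent.Helper42.Asum

variable {m k : ℕ}

private noncomputable def Sx (P : Alph) (κ : W m × (Gm k × P.Λ) → ℝ) (δ : Gm k) (x : W m)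
    (b : P.Λ) : ℝ := ∑ γ : Gm k, chi δ γ * κ (x, (γ, b))

private theorem ttX_eq (P : Alph) (κ : W m × (Gm k × P.Λ) → ℝ) (δ : Gm k × P.Λ) (x : W m) :
    TtX P κ δ x = ∑ b, P.v δ.2 b * Sx P κ δ.1 x b := by
  unfold TtX Sx
  rw [Fintype.sum_prod_type, Finset.sum_comm]
  refine Finset.sum_congr rfl fun b _ => ?_
  rw [Finset.mul_sum]
  exact Finset.sum_congr rfl fun γ _ => by ring

private theorem sx_eq (P : Alph) (κ : W m × (Gm k × P.Λ) → ℝ) (δ : Gm k) (x : W m) (b : P.Λ) :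
    ∑ a, P.dl a b * TtX P κ (δ, a) x = Sx P κ δ x b := by
  simp only [ttX_eq, Finset.mul_sum]
  rw [Finset.sum_comm]
  have h : ∀ c, ∑ a, P.dl a b * (P.v a c * Sx P κ δ x c) = if b = c then Sx P κ δ x c else 0 := by
    intro c
    have h1 : ∀ a, P.dl a b * (P.v a c * Sx P κ δ x c) = P.dl a b * P.v a c * Sx P κ δ x c :=
      fun a => by ring
    simp only [h1]
    rw [← Finset.sum_mul, P.dual b c]
    split_ifs <;> simp
  simp only [h]
  rw [Finset.sum_ite_eq, if_pos (Finset.mem_univ _)]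

private theorem mB (P : Alph) (κ : W m × (Gm k × P.Λ) → ℝ) (x : W m) (b : P.Λ) (δ : Rt k)
    (s : Bool) :
    msum (fun a => bsfX m k P a (Sum.inr (Sum.inl ((x, b), δ, s)))) κ =
      ∑ γ : Gm k, if (pos (chi δ.1 γ) == s) = true then κ (x, (γ, b)) else 0 := by
  unfold msum
  rw [Fintype.sum_prod_type, Finset.sum_eq_single x]
  · rw [Fintype.sum_prod_type]
    refine Finset.sum_congr rfl fun γ _ => ?_
    rw [Finset.sum_eq_single b]
    · simp [bsfX]
    · intro b' _ hb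
      simp [bsfX, hb]
    · intro h
      exact absurd (Finset.mem_univ _) h
  · intro x' _ hx
    refine Finset.sum_eq_zero fun γ _ => ?_
    simp [bsfX, hx]
  · intro h
    exact absurd (Finset.mem_univ _) h

private theorem mC (P : Alph) (κ : W m × (Gm k × P.Λ) → ℝ) (γ : Gm k × P.Λ) :
    msum (fun a => bsfX m k P a (Sum.inr (Sum.inr γ))) κ = ∑ x : W m, κ (x, γ) := by
  unfold msum
  rw [Fintype.sum_prod_type]
  refine Finset.sum_congr rfl fun x _ => ?_
  rw [Finset.sum_eq_single γ]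
  · simp [bsfX]
  · intro γ' _ h
    simp [bsfX, h]
  · intro h
    exact absurd (Finset.mem_univ _) h

private theorem mA (P : Alph) (κ : W m × (Gm k × P.Λ) → ℝ) (i : ↥(Finset.Ico 2 (2 ^ m)))
    (β : Gm k × P.Λ) :
    msum (fun a => bsfX m k P a (Sum.inl (i, β))) κ =
      (∑ a, κ a + ∑ a, rowfX P i.1 β a * κ a) / 2 :=
  msum_pos (rowfX P i.1 β) (rowfX_sign P i.1 β) κ

private theorem pos_one : pos (1 : ℝ) = true := by simp [pos]

private theorem pos_neg_one : pos (-1 : ℝ) = false := by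
  simp only [pos, decide_eq_false_iff_not]
  norm_num

private theorem mB_add (P : Alph) (κ : W m × (Gm k × P.Λ) → ℝ) (x : W m) (b : P.Λ) (δ : Rt k) :
    msum (fun a => bsfX m k P a (Sum.inr (Sum.inl ((x, b), δ, true)))) κ +
      msum (fun a => bsfX m k P a (Sum.inr (Sum.inl ((x, b), δ, false)))) κ = Sx P κ 0 x b := by
  rw [mB, mB, Sx, ← Finset.sum_add_distrib]
  refine Finset.sum_congr rfl fun γ _ => ?_
  rw [chi_zero]
  rcases chi_sign δ.1 γ with h | h
  · rw [h, pos_one]; simp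
  · rw [h, pos_neg_one]; simp

private theorem mB_sub (P : Alph) (κ : W m × (Gm k × P.Λ) → ℝ) (x : W m) (b : P.Λ) (δ : Rt k) :
    msum (fun a => bsfX m k P a (Sum.inr (Sum.inl ((x, b), δ, true)))) κ -
      msum (fun a => bsfX m k P a (Sum.inr (Sum.inl ((x, b), δ, false)))) κ = Sx P κ δ.1 x b := by
  rw [mB, mB, Sx, ← Finset.sum_sub_distrib]
  refine Finset.sum_congr rfl fun γ _ => ?_
  rcases chi_sign δ.1 γ with h | h
  · rw [h, pos_one]; simp
  · rw [h, pos_neg_one]; simp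

private theorem sum_Tt (P : Alph) (κ : W m × (Gm k × P.Λ) → ℝ) (δ : Gm k × P.Λ) :
    ew m 0 (TtX P κ δ) =
      ∑ γ : Gm k × P.Λ, chi δ.1 γ.1 * P.v δ.2 γ.2 * ∑ x : W m, κ (x, γ) := by
  rw [ew_zero]
  unfold TtX
  rw [Finset.sum_comm]
  exact Finset.sum_congr rfl fun γ _ => (Finset.mul_sum _ _ _).symm

private theorem sum_row (P : Alph) (κ : W m × (Gm k × P.Λ) → ℝ) (i : ℕ) (δ : Gm k × P.Λ) :
    ∑ β : Gm k × P.Λ, chi δ.1 β.1 * P.v δ.2 β.2 * (∑ a, rowfX P i β a * κ a) =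
      lam δ.1 * P.mu δ.2 * ew m (i - 1) (TtX P κ δ) - 2 * nn m i (TtX P κ δ) := by
  rw [sum_rowfX]
  unfold nn er ew
  rw [mul_div_cancel₀ _ (two_ne_zero), ← Finset.sum_add_distrib, Finset.mul_sum,
    ← Finset.sum_sub_distrib]
  exact Finset.sum_congr rfl fun x _ => by ring

private def oneRt (k : ℕ) : Rt k := ⟨fun _ => 1, by
  unfold nz
  rw [Finset.filter_false_of_mem]
  · simp
  · intro j _
    exact one_ne_zero⟩

theorem hom_iffX (P : Alph) (κ : W m × (Gm k × P.Λ) → ℝ) :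
    Hom (bsfX m k P) κ ↔ (∀ δ : Gm k × P.Λ, (nz δ.1 ≤ 1 ∨ δ.1 = 0) → ∀ x, TtX P κ δ x = 0) ∧
      ∀ δ : Gm k × P.Λ, Rec m (lam δ.1 * P.mu δ.2) (TtX P κ δ) := by

  constructor
  · rintro ⟨h0, h⟩
    refine ⟨?_, fun δ => ⟨?_, fun i hi1 hi2 => ?_⟩⟩
    · intro δ hδ x
      rw [ttX_eq]
      refine Finset.sum_eq_zero fun b _ => ?_
      have hs : Sx P κ δ.1 x b = 0 := by
        rcases hδ with hδ | hδ
        · rw [show δ.1 = (⟨δ.1, hδ⟩ : Rt k).1 from rfl, ← mB_sub, h, h, sub_zero]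
        · rw [hδ, ← mB_add P κ x b (oneRt k), h, h, add_zero]
      rw [hs, mul_zero]
    · rw [sum_Tt]
      refine Finset.sum_eq_zero fun γ _ => ?_
      rw [← mC, h, mul_zero]
    · have h1 := sum_row P κ i δ
      have h2 : ∀ β : Gm k × P.Λ, ∑ a, rowfX P i β a * κ a = 0 := by
        intro β
        have h3 := h (Sum.inl (⟨i, Finset.mem_Ico.2 ⟨hi1, hi2⟩⟩, β))
        rw [mA, h0] at h3
        linarith
      simp only [h2, mul_zero, Finset.sum_const_zero] at h1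
      linarith
  · rintro ⟨hz, hR⟩
    have hu : ∀ γ : Gm k × P.Λ, ∑ x : W m, κ (x, γ) = 0 := by
      intro γ
      have := eq_zeroX P (fun γ => ∑ x : W m, κ (x, γ)) (fun δ => by
        rw [← sum_Tt]
        exact (hR δ).1)
      exact congrFun this γ
    have h0 : ∑ a, κ a = 0 := by
      rw [Fintype.sum_prod_type, Finset.sum_comm]
      exact Finset.sum_eq_zero fun γ _ => hu γ
    have hS : ∀ δ : Gm k, (nz δ ≤ 1 ∨ δ = 0) → ∀ x b, Sx P κ δ x b = 0 := by
      intro δ hδ x b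
      rw [← sx_eq]
      refine Finset.sum_eq_zero fun a _ => ?_
      rw [hz (δ, a) hδ x, mul_zero]
    refine ⟨h0, ?_⟩
    rintro (⟨i, β⟩ | ⟨⟨x, b⟩, δ, s⟩ | γ)
    · have h1 : ∀ β : Gm k × P.Λ, ∑ a, rowfX P i.1 β a * κ a = 0 := by
        intro β
        have := eq_zeroX P (fun β => ∑ a, rowfX P i.1 β a * κ a) (fun δ => by
          rw [sum_row, (hR δ).2 i.1 (Finset.mem_Ico.1 i.2).1 (Finset.mem_Ico.1 i.2).2, sub_self])
        exact congrFun this β
      rw [mA, h0, h1]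
      norm_num
    · have h1 := mB_add P κ x b δ
      have h2 := mB_sub P κ x b δ
      rw [hS 0 (Or.inr rfl)] at h1
      rw [hS δ.1 (Or.inl δ.2)] at h2
      cases s
      · linarith
      · linarith
    · rw [mC]
      exact hu γ


end Pool.Agent.MN
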