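import Pool.Agent.MN.XDefs
import Pool.Agent.MN.Chan
import Pool.Agent.Helper42.Asum.BaseSys

/-!
# MN-XLogGr: lower bound for the logarithm of the growth, real eigenvalue

The proof is that of `Pool/Agent/MN/LogGr.lean` (`gr_pos`, `log_gr`) with `2 ^ k` (`k ≥ 3`) replaced by a real number `L ≥ 8`;
copy it and adapt.  (Each factor is `2^(pc) * L / 2 * (1 - x)`, `x = 4 / (2^(pc) * L) ≤ 2 / L ≤ 1/4`, its logarithm in base two
is at least `pc + logb 2 L - 1 - 4 / L`; `2^m - 2` factors, `∑ pc = m * 2^m / 2 - 1`.)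
-/

namespace Pool.Agent.MN

open Finset Pool.Agent.Helper42.Asum

private theorem fac_posX {p : ℕ} {L : ℝ} (hp : 1 ≤ p) (hL : 8 ≤ L) :
    (2 : ℝ) ^ p * L / 2 * (1 - 2 / L) ≤ (2 : ℝ) ^ p * L / 2 - 2 ∧
      (2 : ℝ) / L ≤ 1 / 4 := by
  have h1 : (2 : ℝ) ≤ 2 ^ p := by
    calc (2 : ℝ) = 2 ^ 1 := by norm_num
      _ ≤ 2 ^ p := pow_le_pow_right₀ (by norm_num) hp
  have h3 : (0 : ℝ) < L := by linarith
  constructor
  · have h4 : (2 : ℝ) ^ p * L / 2 * (1 - 2 / L) = (2 : ℝ) ^ p * L / 2 - 2 ^ p := by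
      field_simp
    rw [h4]
    linarith
  · rw [div_le_div_iff₀ h3 (by norm_num)]
    linarith

private theorem logb_auxX {x : ℝ} (hx0 : 0 < x) (hx : x ≤ 1 / 4) :
    - (2 * x) ≤ Real.logb 2 (1 - x) := by
  have h1 : 0 < 1 - x := by linarith
  have h2 := Real.one_sub_inv_le_log_of_pos h1
  have h3 := Real.log_two_gt_d9
  have h4 : (1 - x)⁻¹ ≤ 1 + 4 / 3 * x := by
    rw [inv_eq_one_div, div_le_iff₀ h1]
    nlinarith
  unfold Real.logb
  rw [le_div_iff₀ (by linarith)]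
  nlinarith

private theorem fac_logX {p : ℕ} {L : ℝ} (hp : 1 ≤ p) (hL : 8 ≤ L) :
    0 < (2 : ℝ) ^ p * L / 2 - 2 ∧
      (p : ℝ) + ((Real.logb 2 L - 1) - 4 / L) ≤ Real.logb 2 ((2 : ℝ) ^ p * L / 2 - 2) := by
  obtain ⟨h1, h2⟩ := fac_posX hp hL
  have h3 : (0 : ℝ) < L := by linarith
  have h4 : (0 : ℝ) < 2 ^ p * L / 2 := by positivity
  have hx0 : (0 : ℝ) < 2 / L := by positivity
  have h5 : (0 : ℝ) < 1 - 2 / L := by linarith
  have h6 : (0 : ℝ) < 2 ^ p * L / 2 * (1 - 2 / L) := mul_pos h4 h5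
  refine ⟨lt_of_lt_of_le h6 h1, ?_⟩
  have h7 : Real.logb 2 ((2 : ℝ) ^ p * L / 2 * (1 - 2 / L))
      ≤ Real.logb 2 ((2 : ℝ) ^ p * L / 2 - 2) :=
    Real.logb_le_logb_of_le (by norm_num) h6 h1
  have h8 : Real.logb 2 ((2 : ℝ) ^ p * L / 2 * (1 - 2 / L))
      = (p : ℝ) + (Real.logb 2 L - 1) + Real.logb 2 (1 - 2 / L) := by
    rw [Real.logb_mul h4.ne' h5.ne', Real.logb_div (by positivity) (by norm_num),
      Real.logb_mul (by positivity) (by positivity), Real.logb_pow,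
      Real.logb_self_eq_one (by norm_num)]
    ring
  have h9 := logb_auxX hx0 h2
  have h10 : 2 * ((2 : ℝ) / L) = 4 / L := by ring
  rw [h10] at h9
  linarith

theorem grX_pos (m : ℕ) {L : ℝ} (hL : 8 ≤ L) : 0 < grX m L := by

  unfold grX
  apply Finset.prod_pos
  intro i hi
  rw [Finset.mem_Ico] at hi
  exact (fac_logX (one_le_pc m i (by omega) hi.2) hL).1


theorem log_grX (m : ℕ) (hm : 1 ≤ m) {L : ℝ} (hL : 8 ≤ L) :
    (m : ℝ) / 2 * 2 ^ m + (Real.logb 2 L - 1) * 2 ^ m - 4 / L * 2 ^ m - 2 * Real.logb 2 L ≤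
      Real.logb 2 (grX m L) := by

  unfold grX
  rw [Real.logb_prod]
  · have h1 : ∑ i ∈ Finset.Ico 2 (2 ^ m), ((pc m i : ℝ) + ((Real.logb 2 L - 1) - 4 / L))
        ≤ ∑ i ∈ Finset.Ico 2 (2 ^ m), Real.logb 2 ((2 : ℝ) ^ (pc m i) * L / 2 - 2) := by
      apply Finset.sum_le_sum
      intro i hi
      rw [Finset.mem_Ico] at hi
      exact (fac_logX (one_le_pc m i (by omega) hi.2) hL).2
    refine le_trans ?_ h1
    rw [Finset.sum_add_distrib, Finset.sum_const, Nat.card_Ico, nsmul_eq_mul]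
    have h2 : (2 : ℕ) ≤ 2 ^ m := by
      calc 2 = 2 ^ 1 := by norm_num
        _ ≤ 2 ^ m := Nat.pow_le_pow_right (by norm_num) hm
    have h3 := sum_pc_Ico hm
    have h4 : 2 * (∑ s ∈ Finset.Ico 2 (2 ^ m), (pc m s : ℝ)) + 2 = m * 2 ^ m := by
      exact_mod_cast h3
    rw [Nat.cast_sub h2]
    push_cast
    have hLp : (0 : ℝ) < L := by linarith
    have h5 : (0 : ℝ) < 8 / L := by positivity
    have h6 : (8 : ℝ) / L = 2 * (4 / L) := by ring
    nlinarith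
  · intro i hi
    rw [Finset.mem_Ico] at hi
    exact (fac_logX (one_le_pc m i (by omega) hi.2) hL).1.ne'


end Pool.Agent.MN
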