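import Pool.Agent.MN.XBlkC
import Pool.Agent.MN.XLogGr
import Pool.Agent.MN.Cnt
import Pool.Agent.MN.ChRel
import Pool.Agent.MN.ChRig
import Pool.Agent.MN.ChLarge
import Pool.Agent.Helper42.Asum.Lower

/-!
# Project MN, exact version: combinatorial lower bound
-/

namespace Pool.Agent.MN

open Finset Pool.Agent.Helper42.Asum

/-- number of coordinates of a block (without second alphabet), generously -/
def cost (k m : ℕ) : ℕ := 2 ^ m * (4 ^ k + 2 * Fintype.card (Rt k)) + 4 ^ k

private lemma sum_get (L : List ℕ) (f : ℕ → ℕ) :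
    ∑ i : Fin L.length, f (L.get i) = (L.map f).sum := by
  simp

private lemma prod_get (L : List ℕ) (f : ℕ → ℝ) :
    ∏ i : Fin L.length, f (L.get i) = (L.map f).prod := by
  simp

private lemma ct_pos (k : ℕ) (hk : 3 ≤ k) : Nonempty (Ct k) := by
  classical
  refine ⟨⟨fun i => if i.val ≤ 1 then 0 else 1, ?_, ?_⟩⟩
  · unfold nz
    have h1 : ({(⟨0, by omega⟩ : Fin k), ⟨1, by omega⟩} : Finset (Fin k)) ⊆
        univ.filter (fun j : Fin k => (if j.val ≤ 1 then (0 : Fin 4) else 1) = 0) := by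
      intro j hj
      simp only [Finset.mem_insert, Finset.mem_singleton] at hj
      rcases hj with rfl | rfl <;> simp
    have h2 := Finset.card_le_card h1
    rw [Finset.card_pair (by simp)] at h2
    exact h2
  · intro h
    have := congrFun h ⟨2, by omega⟩
    simp at this

private lemma eight_le (P : Alph) (k : ℕ) (hk : 3 ≤ k) : (8 : ℝ) ≤ 2 ^ k * P.r := by
  have h1 : (2 : ℝ) ^ 3 ≤ 2 ^ k := pow_le_pow_right₀ (by norm_num) hk
  have h2 := P.hr
  nlinarith

private lemma lam_pos (P : Alph) : 0 < Fintype.card P.Λ := by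
  rw [Nat.pos_iff_ne_zero]
  intro h
  have h1 := P.card_r
  have h2 := P.hr
  rw [h] at h1
  simp only [Nat.cast_zero] at h1
  nlinarith

theorem low_numX (P : Alph) (k n : ℕ) (hk : 3 ≤ k) (L : List ℕ) (hL : 2 ≤ L.length)
    (hL1 : ∀ m ∈ L, 1 ≤ m)
    (hn : Fintype.card P.Λ * (L.map (cost k)).sum ≤ n) (Kr : ℕ)
    (hKr : (Kr : ℝ) * n ≤ (L.map (fun m => grX m (2 ^ k * P.r) ^ Fintype.card (Ct k × P.Λ))).prod)
    (M' : ℕ) (hM : Certifies n M') : Kr ≤ M' := by
  classical
  set K := Fintype.card (Ct k × P.Λ) with hKdef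
  set c := Fintype.card P.Λ with hcdef
  have hc0 : 0 < c := lam_pos P
  have h8 := eight_le P k hk
  have hKR := card_Ct k (by omega)
  have hKc : K = Fintype.card (Ct k) * c := by rw [hKdef, Fintype.card_prod]
  have hex : ∀ ω : Fin L.length, ∃ S : Blk K, Fintype.card S.B = 2 ^ (L.get ω) * (4 ^ k * c) ∧
      Fintype.card S.I = (2 ^ (L.get ω) - 2) * (4 ^ k * c) +
        ((2 ^ (L.get ω) * c) * (Fintype.card (Rt k) * 2) + 4 ^ k * c) ∧
      ∀ l < K, grX (L.get ω) (2 ^ k * P.r) ≤ |S.g l| := fun ω =>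
    exists_blkX (L.get ω) k P (hL1 _ (List.get_mem L ω)) (by omega)
  choose S hB hI hg using hex
  have hcost : ∀ ω : Fin L.length, Fintype.card (S ω).I + (1 + 2 * K) ≤ c * cost k (L.get ω) := by
    intro ω
    rw [hI ω]
    unfold cost
    have h1 := hL1 _ (List.get_mem L ω)
    obtain ⟨d, hd⟩ : ∃ d, 2 ^ (L.get ω) = d + 2 := by
      refine ⟨2 ^ (L.get ω) - 2, ?_⟩
      have : 2 ^ 1 ≤ 2 ^ (L.get ω) := Nat.pow_le_pow_right (by norm_num) h1
      omega
    rw [hd, Nat.add_sub_cancel, hKc]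
    set R := Fintype.card (Rt k)
    set C := Fintype.card (Ct k)
    have h4 : 4 ^ k = C + R + 1 := hKR.symm
    rw [h4]
    nlinarith [Nat.zero_le (R * c)]
  have hsumI : (∑ ω, (Fintype.card (S ω).I + (1 + 2 * K))) ≤ n := by
    refine le_trans (Finset.sum_le_sum (fun ω _ => hcost ω)) ?_
    rw [← Finset.mul_sum, sum_get L (cost k)]; exact hn
  have hJ : Fintype.card (CJ S) ≤ n := by
    rw [card_CJ]
    refine le_trans ?_ hsumI
    rw [Finset.sum_add_distrib]
    simp only [Finset.sum_const, Finset.card_univ, Fintype.card_fin, smul_eq_mul]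
    have : (K * L.length - 1) * 2 ≤ L.length * (2 * K) := by
      calc (K * L.length - 1) * 2 ≤ (K * L.length) * 2 := Nat.mul_le_mul_right _ (Nat.sub_le _ _)
        _ = L.length * (2 * K) := by ring
    nlinarith
  have hAt : (∑ ω, (Fintype.card (S ω).B : ℝ)) ≤ n := by
    have h1 : (∑ ω, Fintype.card (S ω).B) ≤ n := by
      refine le_trans (b := ∑ ω : Fin L.length, c * cost k (L.get ω)) ?_ (le_trans ?_ hn)
      · refine Finset.sum_le_sum (fun ω _ => ?_)
        rw [hB ω]; unfold cost; nlinarith [Nat.zero_le (c * (2 ^ L.get ω * (2 * Fintype.card (Rt k)))),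
          Nat.zero_le (c * 4 ^ k)]
      · rw [← Finset.mul_sum, sum_get L (cost k)]
    exact_mod_cast h1
  have hK1 : 1 ≤ K := by
    rw [hKc]
    have := (ct_pos k hk)
    have h2 : 0 < Fintype.card (Ct k) := Fintype.card_pos
    exact Nat.mul_pos h2 hc0
  have hprod : (Kr : ℝ) * (∑ ω, (Fintype.card (S ω).B : ℝ)) ≤ ∏ ω, ∏ l ∈ range K, |(S ω).g l| := by
    refine le_trans (mul_le_mul_of_nonneg_left hAt (by positivity)) (le_trans hKr ?_)
    rw [← prod_get L (fun m => grX m (2 ^ k * P.r) ^ K)]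
    refine Finset.prod_le_prod (fun ω _ => (pow_pos (grX_pos _ h8) _).le) (fun ω _ => ?_)
    have h2 : ∏ _l ∈ range K, grX (L.get ω) (2 ^ k * P.r) = grX (L.get ω) (2 ^ k * P.r) ^ K := by
      rw [Finset.prod_const, Finset.card_range]
    rw [← h2]
    exact Finset.prod_le_prod (fun l _ => (grX_pos _ h8).le) (fun l hl => hg ω l (Finset.mem_range.1 hl))
  obtain ⟨cf, hcf0, hcfj, hcfne⟩ := chain_rel S hL hK1
  have hne : Nonempty (CA S) := ⟨⟨⟨0, by omega⟩, (S ⟨0, by omega⟩).ne.some⟩⟩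
  obtain ⟨f, hf1, hf2, hf3⟩ := flat_main (cv S) (chain_rigid S hL) (chain_sep S) cf hcf0 hcfj hcfne Kr
    (fun κ _ hκj hκ => chain_large S hL hK1 Kr hprod κ hκj hκ)
  exact transfer hJ Kr f hf1 hf2 hf3 M' hM

theorem low_logX (P : Alph) (k n : ℕ) (hk : 3 ≤ k) (L : List ℕ) (hL : 2 ≤ L.length)
    (hL1 : ∀ m ∈ L, 1 ≤ m)
    (hn : Fintype.card P.Λ * (L.map (cost k)).sum ≤ n) (M' : ℕ) (hM : Certifies n M') :
    (Fintype.card (Ct k) * Fintype.card P.Λ : ℝ) *
      (L.map (fun m => Real.logb 2 (grX m (2 ^ k * P.r)))).sum - Real.logb 2 n - 1 ≤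
      Real.logb 2 M' := by
  set K := Fintype.card (Ct k × P.Λ) with hKdef
  have hKc : (Fintype.card (Ct k) * Fintype.card P.Λ : ℝ) = (K : ℝ) := by
    rw [hKdef, Fintype.card_prod]; push_cast; ring
  rw [hKc]
  have h8 := eight_le P k hk
  have hc0 : 0 < Fintype.card P.Λ := lam_pos P
  have hn1 : 1 ≤ n := by
    refine le_trans ?_ hn
    match L, hL with
    | a :: L', _ =>
      rw [List.map_cons, List.sum_cons]
      have : 1 ≤ cost k a := by
        unfold cost
        have := Nat.one_le_pow k 4 (by norm_num)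
        omega
      have : 1 ≤ Fintype.card P.Λ * cost k a := Nat.mul_pos hc0 this
      rw [Nat.mul_add]
      omega
  have hnR : (0 : ℝ) < n := by exact_mod_cast hn1
  have hPos : ∀ L' : List ℕ, 0 < (L'.map (fun m => grX m (2 ^ k * P.r) ^ K)).prod := by
    intro L'
    apply List.prod_pos
    intro x hx
    obtain ⟨m, _, rfl⟩ := List.mem_map.1 hx
    exact pow_pos (grX_pos m h8) _
  have hlog : ∀ L' : List ℕ, Real.logb 2 (L'.map (fun m => grX m (2 ^ k * P.r) ^ K)).prod =
      K * (L'.map (fun m => Real.logb 2 (grX m (2 ^ k * P.r)))).sum := by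
    intro L'
    induction L' with
    | nil => simp
    | cons a L' ih =>
      rw [List.map_cons, List.prod_cons, List.map_cons, List.sum_cons,
        Real.logb_mul (pow_pos (grX_pos a h8) _).ne' (hPos L').ne', ih, Real.logb_pow]
      ring
  set Q := (L.map (fun m => grX m (2 ^ k * P.r) ^ K)).prod with hQ
  have hPp : 0 < Q := hPos L
  have hfl : ((⌊Q / n⌋₊ : ℕ) : ℝ) * n ≤ Q := by
    have h1 := Nat.floor_le (show 0 ≤ Q / n by positivity)
    calc ((⌊Q / n⌋₊ : ℕ) : ℝ) * n ≤ Q / n * n := by gcongr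
      _ = Q := by field_simp
  have hle := low_numX P k n hk L hL hL1 hn ⌊Q / n⌋₊ hfl M' hM
  have h2 : Q / n < (M' : ℝ) + 1 := by
    have h3 := Nat.lt_floor_add_one (Q / n)
    have h4 : ((⌊Q / n⌋₊ : ℕ) : ℝ) ≤ M' := by exact_mod_cast hle
    linarith
  rw [← hlog L]
  have h5 : Real.logb 2 (Q / n) = Real.logb 2 Q - Real.logb 2 n := Real.logb_div hPp.ne' hnR.ne'
  have hPn : 0 < Q / n := by positivity
  rcases Nat.eq_zero_or_pos M' with h0 | hpos
  · rw [h0] at h2 ⊢
    simp only [Nat.cast_zero, zero_add, Real.logb_zero] at h2 ⊢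
    have h6 : Real.logb 2 (Q / n) < 0 := Real.logb_neg (by norm_num) hPn h2
    linarith
  · have hM1 : (1 : ℝ) ≤ M' := by exact_mod_cast hpos
    have h6 : Real.logb 2 (Q / n) ≤ Real.logb 2 (2 * M') :=
      Real.logb_le_logb_of_le (by norm_num) hPn (by linarith)
    rw [Real.logb_mul (by norm_num) (by positivity), Real.logb_self_eq_one (by norm_num)] at h6
    linarith

end Pool.Agent.MN
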