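import Pool.Agent.MN.XDefs
import Pool.Agent.MN.Pat

/-!
# MN-XPat: the sign patterns with a second alphabet

`thick γ.1` (file Pat) gives `w₀` with `P₀ β * Hh β γ.1 > 0`, `P₀ β = ∑ δ, w₀ δ * chi δ.1 β`; `thin γ.1` gives `w₁` with
`P₁ β * (if γ.1 = β then -1 else Hh β γ.1) > 0`.
`thickX`: `w b δ = P.H b γ.2 * w₀ δ`.
`thinX`: `w b δ = P.H b γ.2 * (w₁ δ + (if b = γ.2 then 0 else c * w₀ δ))` with `c > 0` and `P₁ γ.1 + c * P₀ γ.1 > 0`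
(`P₀ γ.1 > 0` since `Hh γ γ = 1`; e.g. `c = 1 + |P₁ γ.1| / P₀ γ.1`).  Cases `β.2 = γ.2` (then `P.H_self`; the pattern is `P₁ β.1`)
and `β.2 ≠ γ.2` (then the pattern times the sign is `(P₁ β.1 + c * P₀ β.1) * Hh β.1 γ.1`, positive: for `β.1 ≠ γ.1` both
summands, for `β.1 = γ.1` by the choice of `c`).
-/

namespace Pool.Agent.MN

open Finset Pool.Agent.Helper42.Asum

variable {k : ℕ}

private theorem H_sq (P : Alph) (a b : P.Λ) : P.H a b * P.H a b = 1 := by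
  rcases P.H_sign a b with h | h
  · rw [h, one_mul]
  · rw [h]
    norm_num

theorem thickX (P : Alph) (γ : Gm k × P.Λ) : ∃ w : P.Λ → Rt k → ℝ, ∀ β : Gm k × P.Λ,
    0 < (∑ δ : Rt k, w β.2 δ * chi δ.1 β.1) * (Hh β.1 γ.1 * P.H β.2 γ.2) := by
  obtain ⟨w₀, hw₀⟩ := thick γ.1
  refine ⟨fun b δ => P.H b γ.2 * w₀ δ, fun β => ?_⟩
  have h1 : ∑ δ : Rt k, P.H β.2 γ.2 * w₀ δ * chi δ.1 β.1 =
      P.H β.2 γ.2 * ∑ δ : Rt k, w₀ δ * chi δ.1 β.1 := by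
    rw [Finset.mul_sum]
    exact Finset.sum_congr rfl fun δ _ => mul_assoc _ _ _
  have h2 : (∑ δ : Rt k, P.H β.2 γ.2 * w₀ δ * chi δ.1 β.1) * (Hh β.1 γ.1 * P.H β.2 γ.2) =
      (P.H β.2 γ.2 * P.H β.2 γ.2) * ((∑ δ : Rt k, w₀ δ * chi δ.1 β.1) * Hh β.1 γ.1) := by
    rw [h1]
    ring
  show 0 < (∑ δ : Rt k, P.H β.2 γ.2 * w₀ δ * chi δ.1 β.1) * (Hh β.1 γ.1 * P.H β.2 γ.2)
  rw [h2, H_sq, one_mul]
  exact hw₀ β.1

theorem thinX (P : Alph) (γ : Gm k × P.Λ) : ∃ w : P.Λ → Rt k → ℝ, ∀ β : Gm k × P.Λ,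
    0 < (∑ δ : Rt k, w β.2 δ * chi δ.1 β.1) *
      (if γ = β then (-1 : ℝ) else Hh β.1 γ.1 * P.H β.2 γ.2) := by
  obtain ⟨w₀, hw₀⟩ := thick γ.1
  obtain ⟨w₁, hw₁⟩ := thin γ.1
  set P₀ : Gm k → ℝ := fun β => ∑ δ : Rt k, w₀ δ * chi δ.1 β with hP₀
  set P₁ : Gm k → ℝ := fun β => ∑ δ : Rt k, w₁ δ * chi δ.1 β with hP₁
  have hpos0 : 0 < P₀ γ.1 := by
    have := hw₀ γ.1
    rwa [Hh_self, mul_one] at this
  obtain ⟨c, hc0, hc⟩ : ∃ c : ℝ, 0 < c ∧ 0 < P₁ γ.1 + c * P₀ γ.1 := by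
    refine ⟨1 + |P₁ γ.1| / P₀ γ.1, by positivity, ?_⟩
    have h1 : (1 + |P₁ γ.1| / P₀ γ.1) * P₀ γ.1 = P₀ γ.1 + |P₁ γ.1| := by
      rw [add_mul, one_mul, div_mul_cancel₀ _ hpos0.ne']
    rw [h1]
    linarith [neg_abs_le (P₁ γ.1)]
  refine ⟨fun b δ => P.H b γ.2 * (w₁ δ + (if b = γ.2 then 0 else c * w₀ δ)), fun β => ?_⟩
  have h1 : ∑ δ : Rt k, P.H β.2 γ.2 * (w₁ δ + (if β.2 = γ.2 then 0 else c * w₀ δ)) *
      chi δ.1 β.1 = P.H β.2 γ.2 * (P₁ β.1 + (if β.2 = γ.2 then 0 else c * P₀ β.1)) := by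
    by_cases h : β.2 = γ.2
    · simp only [if_pos h, add_zero]
      rw [hP₁]
      simp only
      rw [Finset.mul_sum]
      exact Finset.sum_congr rfl fun δ _ => mul_assoc _ _ _
    · simp only [if_neg h]
      rw [hP₁, hP₀]
      simp only
      rw [Finset.mul_sum, ← Finset.sum_add_distrib, Finset.mul_sum]
      exact Finset.sum_congr rfl fun δ _ => by ring
  show 0 < (∑ δ : Rt k, P.H β.2 γ.2 * (w₁ δ + (if β.2 = γ.2 then 0 else c * w₀ δ)) *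
      chi δ.1 β.1) * (if γ = β then (-1 : ℝ) else Hh β.1 γ.1 * P.H β.2 γ.2)
  rw [h1]
  by_cases h : β.2 = γ.2
  · have hH : P.H β.2 γ.2 = 1 := by
      rw [h]
      exact P.H_self _
    rw [if_pos h, hH, add_zero, one_mul, mul_one]
    have h2 := hw₁ β.1
    by_cases h3 : γ.1 = β.1
    · rw [if_pos h3] at h2
      rw [if_pos (Prod.ext h3 h.symm)]
      exact h2
    · rw [if_neg h3] at h2
      rw [if_neg fun e => h3 (congrArg Prod.fst e)]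
      exact h2
  · rw [if_neg h, if_neg fun e => h (congrArg Prod.snd e).symm]
    have h2 : P.H β.2 γ.2 * (P₁ β.1 + c * P₀ β.1) * (Hh β.1 γ.1 * P.H β.2 γ.2) =
        (P.H β.2 γ.2 * P.H β.2 γ.2) * ((P₁ β.1 + c * P₀ β.1) * Hh β.1 γ.1) := by ring
    rw [h2, H_sq, one_mul]
    by_cases h3 : γ.1 = β.1
    · rw [← h3, Hh_self, mul_one]
      exact hc
    · have h4 := hw₁ β.1
      rw [if_neg h3] at h4
      have h5 := hw₀ β.1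
      have h6 : (P₁ β.1 + c * P₀ β.1) * Hh β.1 γ.1 =
          P₁ β.1 * Hh β.1 γ.1 + c * (P₀ β.1 * Hh β.1 γ.1) := by ring
      rw [h6]
      exact add_pos h4 (mul_pos hc0 h5)

end Pool.Agent.MN
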