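import Pool.Agent.MN.XRowSum
import Pool.Agent.MN.XBase
import Pool.Agent.MN.XPat
import Pool.Agent.MN.RowSum

/-!
# MN-XRig: rigidity of the block with a second alphabet

Adapt `Pool/Agent/MN/Rig.lean` (`rig_zero`, `rig_one`); the pair `(x, b)` (`b` in the second alphabet) plays the role of `x`:
`E ((x, b), δ, s) = msum over the coordinate Sum.inr (Sum.inl ((x, b), δ, s))`, in `{0, 1}`.
For `nz δ ≤ 1`: `E (.., true) + E (.., false) = τ x b := ∑ γ : Gm k, t (x, (γ, b)) ≥ 0`,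
`E (.., true) - E (.., false) = S δ x b := ∑ γ : Gm k, chi δ γ * t (x, (γ, b))`.  `∑ x, ∑ b, τ x b = ∑ t`.

`rig_zeroX` (`∑ t = 0`): all `τ x b = 0`, so all `E = 0`.  The masses are in `{0,1}` with sum `0`.  Rows: for fixed `i` let
`y β := msum (row i β) = (∑ a, rowfX P i β a * t a) / 2 ∈ {0,1}` (`msum_pos`, file RowSum); `sum_rowfX` with `δ = (0, a)` gives
`∑ β, P.v a β.2 * y β = 0` for every `a` (`TtX P t (0, a) x = ∑ b, P.v a b * τ x b = 0`, `chi_zero`), hence by `P.dual`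
`∑ β₁, y (β₁, b) = 0` for every `b`; so all `y β = 0`.

`rig_oneX` (`∑ t = 1`): there is `(x₀, b₀)` with `τ x₀ b₀ = 1` and `τ x b = 0` otherwise; `E ((x, b), δ, s) = 0` and
`S δ x b = 0` for `(x, b) ≠ (x₀, b₀)`.  The masses give `γ₀ = (γ₁, c₀)` with `∑ x, t (x, γ) = if γ = γ₀ then 1 else 0`; summing
over `γ.1` and comparing with `∑ x, τ x b`: `c₀ = b₀`.  `S δ x₀ b₀ = ∑ x, S δ x b₀ = chi δ γ₁` for `nz δ ≤ 1`.
Rows: `Y β := ∑ a, rowfX P i β a * t a` is `±1`.  For `nz δ ≤ 1` and all `a`: `TtX P t (δ, a) x = ∑ b, P.v a b * S δ x b` agrees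
with the transform of the point mass at `(x₀, γ₀)`, so by `sum_rowfX`, for `D β := Y β - rowfX P i β (x₀, γ₀)`:
`∑ β, chi δ β.1 * P.v a β.2 * D β = 0` for every `a`, hence `∑ β₁, chi δ β₁ * D (β₁, b) = 0` for every `b` (`P.dual`).  So
`∑ β, ν β * D β = 0` for all `ν β = ∑ δ : Rt k, w β.2 δ * chi δ.1 β.1`.  Choose `w` from `thickX` or `thinX` (times the sign
`sg (wb m (i-1) x₀)`) such that `0 < ν β * rowfX P i β (x₀, γ₀)` for all `β`.
Each term `ν β * D β` is `≤ 0`, with equality only if `D β = 0`.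
-/

namespace Pool.Agent.MN

open Finset Pool.Agent.Helper42.Asum

variable {m k : ℕ}

/-- transform in the word variable -/
private noncomputable def St (P : Alph) (t : W m × (Gm k × P.Λ) → ℝ) (δ : Gm k) (x : W m) (b : P.Λ) : ℝ :=
  ∑ γ : Gm k, chi δ γ * t (x, (γ, b))

private theorem rigX_E (P : Alph) (t : W m × (Gm k × P.Λ) → ℝ) (x : W m) (b : P.Λ) (δ : Rt k) :
    msum (fun a => bsfX m k P a (Sum.inr (Sum.inl ((x, b), δ, true)))) t =
      ((∑ γ : Gm k, t (x, (γ, b))) + St P t δ.1 x b) / 2 ∧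
    msum (fun a => bsfX m k P a (Sum.inr (Sum.inl ((x, b), δ, false)))) t =
      ((∑ γ : Gm k, t (x, (γ, b))) - St P t δ.1 x b) / 2 := by
  have h : ∀ s : Bool, msum (fun a => bsfX m k P a (Sum.inr (Sum.inl ((x, b), δ, s)))) t =
      ∑ γ : Gm k, if (pos (chi δ.1 γ) == s) = true then t (x, (γ, b)) else 0 := by
    intro s
    unfold msum
    rw [Fintype.sum_prod_type, Finset.sum_eq_single x]
    · rw [Fintype.sum_prod_type]
      refine Finset.sum_congr rfl (fun γ _ => ?_)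
      rw [Finset.sum_eq_single b]
      · simp only [bsfX, decide_true, Bool.true_and]
      · intro b' _ hb'
        have h1 : ¬ ((x, b') = (x, b)) := fun h2 => hb' (Prod.mk.inj h2).2
        simp only [bsfX, h1, decide_false, Bool.false_and]
        simp
      · intro hx
        exact absurd (Finset.mem_univ b) hx
    · intro x' _ hx'
      refine Finset.sum_eq_zero (fun γ _ => ?_)
      have h1 : ¬ ((x', γ.2) = (x, b)) := fun h2 => hx' (Prod.mk.inj h2).1
      simp only [bsfX, h1, decide_false, Bool.false_and]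
      simp
    · intro hx
      exact absurd (Finset.mem_univ x) hx
  constructor
  · rw [h, St, ← Finset.sum_add_distrib, Finset.sum_div]
    refine Finset.sum_congr rfl (fun γ _ => ?_)
    rcases chi_sign δ.1 γ with h1 | h1
    · rw [h1]
      simp [pos]
    · rw [h1]
      have h2 : ¬ ((-1 : ℝ) = 1) := by norm_num
      simp [pos, h2]
  · rw [h, St, ← Finset.sum_sub_distrib, Finset.sum_div]
    refine Finset.sum_congr rfl (fun γ _ => ?_)
    rcases chi_sign δ.1 γ with h1 | h1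
    · rw [h1]
      simp [pos]
    · rw [h1]
      have h2 : ¬ ((-1 : ℝ) = 1) := by norm_num
      simp [pos, h2]

private theorem rigX_M (P : Alph) (t : W m × (Gm k × P.Λ) → ℝ) (γ : Gm k × P.Λ) :
    msum (fun a => bsfX m k P a (Sum.inr (Sum.inr γ))) t = ∑ x, t (x, γ) := by
  unfold msum
  rw [Fintype.sum_prod_type]
  refine Finset.sum_congr rfl (fun x _ => ?_)
  rw [Finset.sum_eq_single γ]
  · simp [bsfX]
  · intro γ' _ hγ'
    simp [bsfX, hγ']
  · intro hx
    exact absurd (Finset.mem_univ γ) hx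

private theorem rigX_R (P : Alph) (t : W m × (Gm k × P.Λ) → ℝ) (i : ↥(Finset.Ico 2 (2 ^ m)))
    (β : Gm k × P.Λ) :
    msum (fun a => bsfX m k P a (Sum.inl (i, β))) t =
      (∑ a, t a + ∑ a, rowfX P i.1 β a * t a) / 2 :=
  msum_pos (rowfX P i.1 β) (rowfX_sign P i.1 β) t

private def rigXδ (k : ℕ) : Rt k := ⟨fun _ => 1, by
  unfold nz
  rw [Finset.filter_false_of_mem]
  · simp
  · intro j _
    exact Fin.zero_ne_one.symm⟩

private theorem rigX_sumx (P : Alph) (t : W m × (Gm k × P.Λ) → ℝ) :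
    ∑ e : W m × P.Λ, ∑ γ : Gm k, t (e.1, (γ, e.2)) = ∑ a, t a := by
  rw [Fintype.sum_prod_type, Fintype.sum_prod_type]
  refine Finset.sum_congr rfl (fun x _ => ?_)
  rw [Fintype.sum_prod_type, Finset.sum_comm]

private theorem rigX_sumγ (P : Alph) (t : W m × (Gm k × P.Λ) → ℝ) :
    ∑ γ : Gm k × P.Λ, ∑ x, t (x, γ) = ∑ a, t a := by
  rw [Finset.sum_comm, Fintype.sum_prod_type]

private theorem rigX_pick {ι : Type*} [Fintype ι] [DecidableEq ι] (f : ι → ℝ)
    (hf : ∀ i, f i = 0 ∨ 1 ≤ f i) (hs : ∑ i, f i = 1) :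
    ∃ i0, f i0 = 1 ∧ ∀ i, i ≠ i0 → f i = 0 := by
  have h0 : ∃ i0, f i0 ≠ 0 := by
    by_contra hcon
    push Not at hcon
    rw [Finset.sum_eq_zero (fun i _ => hcon i)] at hs
    exact one_ne_zero hs.symm
  obtain ⟨i0, hi0⟩ := h0
  have h1 : 1 ≤ f i0 := (hf i0).resolve_left hi0
  have hnn : ∀ i, 0 ≤ f i := fun i => by
    rcases hf i with h | h <;> linarith
  have h2 := Finset.add_sum_erase Finset.univ f (Finset.mem_univ i0)
  rw [hs] at h2
  have h3 : 0 ≤ ∑ i ∈ Finset.univ.erase i0, f i := Finset.sum_nonneg (fun i _ => hnn i)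
  have h4 : ∑ i ∈ Finset.univ.erase i0, f i = 0 := by linarith
  refine ⟨i0, by linarith, fun i hi => ?_⟩
  exact (Finset.sum_eq_zero_iff_of_nonneg (fun i _ => hnn i)).1 h4 i
    (Finset.mem_erase.2 ⟨hi, Finset.mem_univ i⟩)

private theorem rigX_01 {a : ℝ} (h : a = 0 ∨ a = 1) : 0 ≤ a := by
  rcases h with h | h <;> rw [h] <;> norm_num

private theorem TtX_St (P : Alph) (t : W m × (Gm k × P.Λ) → ℝ) (δ : Gm k) (a : P.Λ) (x : W m) :
    TtX P t (δ, a) x = ∑ b, P.v a b * St P t δ x b := by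
  unfold TtX St
  rw [Fintype.sum_prod_type, Finset.sum_comm]
  refine Finset.sum_congr rfl (fun b _ => ?_)
  rw [Finset.mul_sum]
  exact Finset.sum_congr rfl (fun γ _ => by ring)

private theorem St0 (P : Alph) (t : W m × (Gm k × P.Λ) → ℝ) (x : W m) (b : P.Λ) :
    St P t 0 x b = ∑ γ : Gm k, t (x, (γ, b)) := by
  unfold St
  refine Finset.sum_congr rfl (fun γ _ => ?_)
  rw [chi_zero, one_mul]

/-- separation of the second letter -/
private theorem dual_zero (P : Alph) (u : P.Λ → ℝ) (h : ∀ a, ∑ b, P.v a b * u b = 0) (b : P.Λ) :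
    u b = 0 := by
  have h1 : ∑ a, P.dl a b * ∑ c, P.v a c * u c = u b := by
    have h2 : ∀ a, P.dl a b * ∑ c, P.v a c * u c = ∑ c, P.dl a b * P.v a c * u c := by
      intro a
      rw [Finset.mul_sum]
      exact Finset.sum_congr rfl (fun c _ => by ring)
    rw [Finset.sum_congr rfl (fun a _ => h2 a), Finset.sum_comm]
    rw [Finset.sum_eq_single b]
    · rw [← Finset.sum_mul, P.dual b b, if_pos rfl, one_mul]
    · intro c _ hc
      rw [← Finset.sum_mul, P.dual b c, if_neg (fun h3 => hc h3.symm), zero_mul]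
    · intro hx
      exact absurd (Finset.mem_univ b) hx
  rw [← h1]
  refine Finset.sum_eq_zero (fun a _ => ?_)
  rw [h a, mul_zero]

/-- the row sums against a word and a letter of the second alphabet -/
private theorem row_zero (P : Alph) (δ : Gm k) (D : Gm k × P.Λ → ℝ)
    (h : ∀ a, ∑ β : Gm k × P.Λ, chi δ β.1 * P.v a β.2 * D β = 0) (b : P.Λ) :
    ∑ β₁ : Gm k, chi δ β₁ * D (β₁, b) = 0 := by
  refine dual_zero P (fun b => ∑ β₁ : Gm k, chi δ β₁ * D (β₁, b)) (fun a => ?_) b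
  rw [← h a, Fintype.sum_prod_type, Finset.sum_comm]
  refine Finset.sum_congr rfl (fun b _ => ?_)
  rw [Finset.mul_sum]
  exact Finset.sum_congr rfl (fun γ _ => by ring)

private theorem rigX_row (P : Alph) (i : ℕ) (x₀ : W m) (γ₀ : Gm k × P.Λ) :
    ∃ w : P.Λ → Rt k → ℝ, ∀ β : Gm k × P.Λ,
    0 < (∑ δ : Rt k, w β.2 δ * chi δ.1 β.1) * rowfX P i β (x₀, γ₀) := by
  have hA : sg (wb m (i - 1) x₀) = 1 ∨ sg (wb m (i - 1) x₀) = -1 := by
    unfold sg
    split_ifs
    · exact Or.inl rfl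
    · exact Or.inr rfl
  have hR : sg (rr m i x₀) = 1 ∨ sg (rr m i x₀) = -1 := by
    unfold sg
    split_ifs
    · exact Or.inl rfl
    · exact Or.inr rfl
  have hAA : sg (wb m (i - 1) x₀) * sg (wb m (i - 1) x₀) = 1 := by
    rcases hA with h | h <;> rw [h] <;> norm_num
  have hcase : - sg (rr m i x₀) = sg (wb m (i - 1) x₀) ∨
      - sg (rr m i x₀) = - sg (wb m (i - 1) x₀) := by
    rcases hA with h | h <;> rcases hR with h' | h' <;> rw [h, h'] <;> norm_num
  rcases hcase with hc | hc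
  · obtain ⟨w, hw⟩ := thickX (k := k) P γ₀
    refine ⟨fun b δ => sg (wb m (i - 1) x₀) * w b δ, fun β => ?_⟩
    have h1 : rowfX P i β (x₀, γ₀) =
        sg (wb m (i - 1) x₀) * (Hh β.1 γ₀.1 * P.H β.2 γ₀.2) := by
      unfold rowfX
      split_ifs with h
      · have h' : γ₀ = β := h
        rw [← h', Hh_self, P.H_self, mul_one, mul_one]
        exact hc
      · rfl
    have h2 : ∑ δ : Rt k, sg (wb m (i - 1) x₀) * w β.2 δ * chi δ.1 β.1 =
        sg (wb m (i - 1) x₀) * ∑ δ : Rt k, w β.2 δ * chi δ.1 β.1 := by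
      rw [Finset.mul_sum]
      exact Finset.sum_congr rfl (fun δ _ => by ring)
    beta_reduce
    rw [h1, h2]
    have h3 : sg (wb m (i - 1) x₀) * (∑ δ : Rt k, w β.2 δ * chi δ.1 β.1) *
        (sg (wb m (i - 1) x₀) * (Hh β.1 γ₀.1 * P.H β.2 γ₀.2)) =
        (sg (wb m (i - 1) x₀) * sg (wb m (i - 1) x₀)) *
        ((∑ δ : Rt k, w β.2 δ * chi δ.1 β.1) * (Hh β.1 γ₀.1 * P.H β.2 γ₀.2)) := by ring
    rw [h3, hAA, one_mul]
    exact hw β
  · obtain ⟨w, hw⟩ := thinX (k := k) P γ₀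
    refine ⟨fun b δ => sg (wb m (i - 1) x₀) * w b δ, fun β => ?_⟩
    have h1 : rowfX P i β (x₀, γ₀) =
        sg (wb m (i - 1) x₀) * (if γ₀ = β then (-1 : ℝ) else Hh β.1 γ₀.1 * P.H β.2 γ₀.2) := by
      unfold rowfX
      by_cases h : γ₀ = β
      · rw [if_pos h, if_pos h]
        show - sg (rr m i x₀) = _
        rw [hc]
        ring
      · rw [if_neg h, if_neg h]
    have h2 : ∑ δ : Rt k, sg (wb m (i - 1) x₀) * w β.2 δ * chi δ.1 β.1 =
        sg (wb m (i - 1) x₀) * ∑ δ : Rt k, w β.2 δ * chi δ.1 β.1 := by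
      rw [Finset.mul_sum]
      exact Finset.sum_congr rfl (fun δ _ => by ring)
    beta_reduce
    rw [h1, h2]
    have h3 : sg (wb m (i - 1) x₀) * (∑ δ : Rt k, w β.2 δ * chi δ.1 β.1) *
        (sg (wb m (i - 1) x₀) * (if γ₀ = β then (-1 : ℝ) else Hh β.1 γ₀.1 * P.H β.2 γ₀.2)) =
        (sg (wb m (i - 1) x₀) * sg (wb m (i - 1) x₀)) *
        ((∑ δ : Rt k, w β.2 δ * chi δ.1 β.1) *
        (if γ₀ = β then (-1 : ℝ) else Hh β.1 γ₀.1 * P.H β.2 γ₀.2)) := by ring
    rw [h3, hAA, one_mul]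
    exact hw β

theorem rig_zeroX (P : Alph) (t : W m × (Gm k × P.Λ) → ℝ) (h0 : ∑ x, t x = 0)
    (h : ∀ i, msum (fun x => bsfX m k P x i) t = 0 ∨ msum (fun x => bsfX m k P x i) t = 1) :
    Hom (bsfX m k P) t := by
  have hE : ∀ x b (δ : Rt k) s,
      0 ≤ msum (fun a => bsfX m k P a (Sum.inr (Sum.inl ((x, b), δ, s)))) t :=
    fun x b δ s => rigX_01 (h _)
  have hsum : ∀ x b (δ : Rt k),
      msum (fun a => bsfX m k P a (Sum.inr (Sum.inl ((x, b), δ, true)))) t +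
      msum (fun a => bsfX m k P a (Sum.inr (Sum.inl ((x, b), δ, false)))) t =
      ∑ γ : Gm k, t (x, (γ, b)) := by
    intro x b δ
    rw [(rigX_E P t x b δ).1, (rigX_E P t x b δ).2]
    ring
  have hτ : ∀ e : W m × P.Λ, ∑ γ : Gm k, t (e.1, (γ, e.2)) = 0 := by
    intro e
    have h1 : ∀ e ∈ (Finset.univ : Finset (W m × P.Λ)), 0 ≤ ∑ γ : Gm k, t (e.1, (γ, e.2)) := by
      intro e _
      rw [← hsum e.1 e.2 (rigXδ k)]
      exact add_nonneg (hE _ _ _ _) (hE _ _ _ _)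
    refine (Finset.sum_eq_zero_iff_of_nonneg h1).1 ?_ e (Finset.mem_univ e)
    rw [rigX_sumx, h0]
  refine ⟨h0, ?_⟩
  rintro (⟨i, β⟩ | ⟨⟨x, b⟩, δ, s⟩ | γ)
  · have h3 : ∀ β : Gm k × P.Λ, msum (fun a => bsfX m k P a (Sum.inl (i, β))) t =
        (∑ a, rowfX P i.1 β a * t a) / 2 := by
      intro β
      rw [rigX_R, h0, zero_add]
    have h2 : ∀ a, ∑ β : Gm k × P.Λ, chi 0 β.1 * P.v a β.2 *
        (∑ c, rowfX P i.1 β c * t c) = 0 := by
      intro a
      have h4 := sum_rowfX (m := m) (k := k) P i.1 (0, a) t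
      refine h4.trans (Finset.sum_eq_zero (fun x _ => ?_))
      rw [TtX_St, Finset.sum_eq_zero, mul_zero]
      intro b _
      rw [St0, hτ (x, b), mul_zero]
    have h5 := row_zero P 0 (fun β => ∑ c, rowfX P i.1 β c * t c) h2 β.2
    have h1 : ∀ β₁ ∈ (Finset.univ : Finset (Gm k)),
        0 ≤ msum (fun a => bsfX m k P a (Sum.inl (i, (β₁, β.2)))) t := fun β _ => rigX_01 (h _)
    have h6 := (Finset.sum_eq_zero_iff_of_nonneg h1).1 ?_ β.1 (Finset.mem_univ β.1)
    · exact h6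
    · rw [Finset.sum_congr rfl (fun β₁ _ => h3 (β₁, β.2)), ← Finset.sum_div]
      rw [← h5.symm.trans (Finset.sum_congr rfl (fun β₁ _ => by rw [chi_zero, one_mul])), zero_div]
  · have h1 := hsum x b δ
    rw [hτ (x, b)] at h1
    have h2 := hE x b δ true
    have h3 := hE x b δ false
    rcases s with _ | _
    · linarith
    · linarith
  · have h1 : ∀ γ ∈ (Finset.univ : Finset (Gm k × P.Λ)),
        0 ≤ msum (fun a => bsfX m k P a (Sum.inr (Sum.inr γ))) t := fun γ _ => rigX_01 (h _)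
    refine (Finset.sum_eq_zero_iff_of_nonneg h1).1 ?_ γ (Finset.mem_univ γ)
    rw [Finset.sum_congr rfl (fun γ _ => rigX_M P t γ), rigX_sumγ, h0]

theorem rig_oneX (P : Alph) (t : W m × (Gm k × P.Λ) → ℝ) (h1 : ∑ x, t x = 1)
    (h : ∀ i, msum (fun x => bsfX m k P x i) t = 0 ∨ msum (fun x => bsfX m k P x i) t = 1) :
    ∃ x₀, ∀ i, msum (fun x => bsfX m k P x i) t = if bsfX m k P x₀ i = true then 1 else 0 := by
  have hsum : ∀ x b (δ : Rt k),
      msum (fun a => bsfX m k P a (Sum.inr (Sum.inl ((x, b), δ, true)))) t +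
      msum (fun a => bsfX m k P a (Sum.inr (Sum.inl ((x, b), δ, false)))) t =
      ∑ γ : Gm k, t (x, (γ, b)) := by
    intro x b δ
    rw [(rigX_E P t x b δ).1, (rigX_E P t x b δ).2]
    ring
  obtain ⟨⟨x₀, b₀⟩, hx1, hx0⟩ := rigX_pick
    (fun e : W m × P.Λ => ∑ γ : Gm k, t (e.1, (γ, e.2))) (by
    intro e
    show ∑ γ : Gm k, t (e.1, (γ, e.2)) = 0 ∨ 1 ≤ ∑ γ : Gm k, t (e.1, (γ, e.2))
    rw [← hsum e.1 e.2 (rigXδ k)]
    rcases h (Sum.inr (Sum.inl ((e.1, e.2), rigXδ k, true))) with h2 | h2 <;>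
      rcases h (Sum.inr (Sum.inl ((e.1, e.2), rigXδ k, false))) with h3 | h3 <;>
      rw [h2, h3] <;> norm_num) (by rw [rigX_sumx, h1])
  obtain ⟨⟨γ₁, c₀⟩, hγ1, hγ0⟩ := rigX_pick (fun γ : Gm k × P.Λ => ∑ x, t (x, γ)) (by
    intro γ
    show ∑ x, t (x, γ) = 0 ∨ 1 ≤ ∑ x, t (x, γ)
    rw [← rigX_M P t γ]
    rcases h (Sum.inr (Sum.inr γ)) with h2 | h2 <;> rw [h2] <;> norm_num)
    (by rw [rigX_sumγ, h1])
  have hcb : c₀ = b₀ := by
    by_contra hne
    have h2 : ∑ x, ∑ γ : Gm k, t (x, (γ, c₀)) = 0 := by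
      refine Finset.sum_eq_zero (fun x _ => ?_)
      exact hx0 (x, c₀) (fun h3 => hne (Prod.mk.inj h3).2)
    rw [Finset.sum_comm, Finset.sum_eq_single γ₁] at h2
    · rw [hγ1] at h2
      exact one_ne_zero h2
    · intro γ _ hγ
      exact hγ0 (γ, c₀) (fun h3 => hγ (Prod.mk.inj h3).1)
    · exact fun hx => absurd (Finset.mem_univ _) hx
  subst hcb
  have hE0 : ∀ x b, (x, b) ≠ (x₀, c₀) → ∀ (δ : Rt k) (s : Bool),
      msum (fun a => bsfX m k P a (Sum.inr (Sum.inl ((x, b), δ, s)))) t = 0 := by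
    intro x b hx δ s
    have h2 := hsum x b δ
    rw [hx0 (x, b) hx] at h2
    have h3 := rigX_01 (h (Sum.inr (Sum.inl ((x, b), δ, true))))
    have h4 := rigX_01 (h (Sum.inr (Sum.inl ((x, b), δ, false))))
    rcases s with _ | _
    · linarith
    · linarith
  have hT0 : ∀ x b, (x, b) ≠ (x₀, c₀) → ∀ δ : Rt k, St P t δ.1 x b = 0 := by
    intro x b hx δ
    have h2 := (rigX_E P t x b δ).1
    rw [hE0 x b hx, hx0 (x, b) hx] at h2
    linarith
  have hT1 : ∀ δ : Rt k, St P t δ.1 x₀ c₀ = chi δ.1 γ₁ := by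
    intro δ
    have h2 : ∑ x, St P t δ.1 x c₀ = St P t δ.1 x₀ c₀ := by
      rw [Finset.sum_eq_single x₀]
      · exact fun x _ hx => hT0 x c₀ (fun h3 => hx (Prod.mk.inj h3).1) δ
      · exact fun hx => absurd (Finset.mem_univ _) hx
    rw [← h2]
    unfold St
    rw [Finset.sum_comm, Finset.sum_eq_single γ₁]
    · rw [← Finset.mul_sum, hγ1, mul_one]
    · intro γ _ hγ
      rw [← Finset.mul_sum, hγ0 (γ, c₀) (fun h3 => hγ (Prod.mk.inj h3).1), mul_zero]
    · exact fun hx => absurd (Finset.mem_univ _) hx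
  refine ⟨(x₀, (γ₁, c₀)), ?_⟩
  rintro (⟨i, β⟩ | ⟨⟨x, b⟩, δ, s⟩ | γ)
  · -- rows
    have hY : ∀ β : Gm k × P.Λ,
        (∑ a, rowfX P i.1 β a * t a) = 1 ∨ (∑ a, rowfX P i.1 β a * t a) = -1 := by
      intro β
      have h2 := rigX_R P t i β
      rw [h1] at h2
      rcases h (Sum.inl (i, β)) with h3 | h3
      · right
        rw [h3] at h2
        linarith
      · left
        rw [h3] at h2
        linarith
    have hkey : ∀ (δ : Rt k) (c : P.Λ), ∑ β : Gm k × P.Λ, chi δ.1 β.1 * P.v c β.2 *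
        ((∑ a, rowfX P i.1 β a * t a) - rowfX P i.1 β (x₀, (γ₁, c₀))) = 0 := by
      intro δ c
      have h2 := sum_rowfX (m := m) (k := k) P i.1 (δ.1, c) t
      have h3 := sum_rowfX (m := m) (k := k) P i.1 (δ.1, c)
        (fun a => if a = (x₀, (γ₁, c₀)) then (1 : ℝ) else 0)
      have h4 : ∀ β : Gm k × P.Λ,
          (∑ a, rowfX P i.1 β a * (if a = (x₀, (γ₁, c₀)) then (1 : ℝ) else 0)) =
          rowfX P i.1 β (x₀, (γ₁, c₀)) := by
        intro β
        rw [Finset.sum_eq_single (x₀, (γ₁, c₀))]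
        · rw [if_pos rfl, mul_one]
        · intro a _ ha
          rw [if_neg ha, mul_zero]
        · exact fun hx => absurd (Finset.mem_univ _) hx
      have h5 : ∀ x, TtX P (fun a : W m × (Gm k × P.Λ) =>
          if a = (x₀, (γ₁, c₀)) then (1 : ℝ) else 0) (δ.1, c) x = TtX P t (δ.1, c) x := by
        intro x
        rw [TtX_St, TtX_St]
        refine Finset.sum_congr rfl (fun b _ => ?_)
        congr 1
        by_cases hx : (x, b) = (x₀, c₀)
        · obtain ⟨hx1', hx2'⟩ := Prod.mk.inj hx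
          subst hx1'
          subst hx2'
          rw [hT1]
          unfold St
          rw [Finset.sum_eq_single γ₁]
          · beta_reduce
            rw [if_pos rfl, mul_one]
          · intro γ _ hγ
            beta_reduce
            rw [if_neg (fun h6 => hγ (Prod.mk.inj (Prod.mk.inj h6).2).1), mul_zero]
          · exact fun hx => absurd (Finset.mem_univ _) hx
        · rw [hT0 x b hx]
          unfold St
          refine Finset.sum_eq_zero (fun γ _ => ?_)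
          beta_reduce
          rw [if_neg (fun h6 => hx (by
            rw [(Prod.mk.inj h6).1, (Prod.mk.inj (Prod.mk.inj h6).2).2])), mul_zero]
      simp only [h4, h5] at h3
      rw [← h2] at h3
      simp only [mul_sub, Finset.sum_sub_distrib]
      rw [← h3, sub_self]
    obtain ⟨w, hw⟩ := rigX_row (k := k) P i.1 x₀ (γ₁, c₀)
    have hsum0 : ∀ b : P.Λ, ∑ β₁ : Gm k, (∑ δ : Rt k, w b δ * chi δ.1 β₁) *
        ((∑ a, rowfX P i.1 (β₁, b) a * t a) - rowfX P i.1 (β₁, b) (x₀, (γ₁, c₀))) = 0 := by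
      intro b
      have h2 : ∀ β₁ : Gm k, (∑ δ : Rt k, w b δ * chi δ.1 β₁) *
          ((∑ a, rowfX P i.1 (β₁, b) a * t a) - rowfX P i.1 (β₁, b) (x₀, (γ₁, c₀))) =
          ∑ δ : Rt k, w b δ * (chi δ.1 β₁ *
          ((∑ a, rowfX P i.1 (β₁, b) a * t a) - rowfX P i.1 (β₁, b) (x₀, (γ₁, c₀)))) := by
        intro β₁
        rw [Finset.sum_mul]
        exact Finset.sum_congr rfl (fun δ _ => by ring)
      rw [Finset.sum_congr rfl (fun β₁ _ => h2 β₁), Finset.sum_comm]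
      refine Finset.sum_eq_zero (fun δ _ => ?_)
      rw [← Finset.mul_sum, row_zero P δ.1 (fun β => (∑ a, rowfX P i.1 β a * t a) -
        rowfX P i.1 β (x₀, (γ₁, c₀))) (hkey δ) b, mul_zero]
    have hneg : ∀ β₁ ∈ (Finset.univ : Finset (Gm k)), (∑ δ : Rt k, w β.2 δ * chi δ.1 β₁) *
        ((∑ a, rowfX P i.1 (β₁, β.2) a * t a) - rowfX P i.1 (β₁, β.2) (x₀, (γ₁, c₀))) ≤ 0 := by
      intro β₁ _
      have h2 := hw (β₁, β.2)
      beta_reduce at h2
      rcases hY (β₁, β.2) with h3 | h3 <;>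
        rcases rowfX_sign P i.1 (β₁, β.2) (x₀, (γ₁, c₀)) with h4 | h4 <;>
        rw [h3, h4] <;> rw [h4] at h2 <;> linarith
    have h2 := (Finset.sum_eq_zero_iff_of_nonpos hneg).1 (hsum0 β.2) β.1 (Finset.mem_univ β.1)
    have h3 : (∑ a, rowfX P i.1 β a * t a) = rowfX P i.1 β (x₀, (γ₁, c₀)) := by
      have h4 : (∑ δ : Rt k, w β.2 δ * chi δ.1 β.1) ≠ 0 := by
        intro h5
        have h6 := hw β
        rw [h5, zero_mul] at h6
        exact lt_irrefl _ h6
      have h5 := (mul_eq_zero.1 h2).resolve_left h4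
      exact sub_eq_zero.1 h5
    rw [rigX_R, h1, h3]
    show _ = if pos (rowfX P i.1 β (x₀, (γ₁, c₀))) = true then (1 : ℝ) else 0
    rcases rowfX_sign P i.1 β (x₀, (γ₁, c₀)) with h4 | h4
    · rw [h4]
      simp [pos]
    · rw [h4]
      have h5 : ¬ ((-1 : ℝ) = 1) := by norm_num
      simp [pos, h5]
  · by_cases hx : (x, b) = (x₀, c₀)
    · obtain ⟨hx1', hx2'⟩ := Prod.mk.inj hx
      subst hx1'
      subst hx2'
      have h2 := rigX_E P t x b δ
      rw [hx1, hT1] at h2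
      have h5 : ¬ ((-1 : ℝ) = 1) := by norm_num
      rcases s with _ | _
      · rw [h2.2]
        rcases chi_sign δ.1 γ₁ with h4 | h4
        · simp [bsfX, pos, h4]
        · simp [bsfX, pos, h4, h5]
      · rw [h2.1]
        rcases chi_sign δ.1 γ₁ with h4 | h4
        · simp [bsfX, pos, h4]
        · simp [bsfX, pos, h4, h5]
    · rw [hE0 x b hx]
      have hx' : ¬ ((x₀, c₀) = (x, b)) := fun h6 => hx h6.symm
      have h7 : bsfX m k P (x₀, (γ₁, c₀)) (Sum.inr (Sum.inl ((x, b), δ, s))) = false := by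
        simp only [bsfX, hx', decide_false, Bool.false_and]
      rw [h7]
      simp
  · rw [rigX_M]
    by_cases hγ : γ = (γ₁, c₀)
    · rw [hγ, hγ1]
      simp [bsfX]
    · rw [hγ0 γ hγ]
      have hγ' : ¬ ((γ₁, c₀) = γ) := fun h6 => hγ h6.symm
      simp [bsfX, hγ']

end Pool.Agent.MN
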