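import Pool.Agent.MN.XDefs
import Pool.Agent.MN.Gam

/-!
# MN-XRowSum: elementary sums of the block with a second alphabet

Adapt `Pool/Agent/MN/RowSum.lean`.
* `msum_pos0`: `if pos (F x) = true then κ x else 0 = (F x ^ 2 * κ x + F x * κ x) / 2` if `F x` is `0`, `1` or `-1`.
* `rowfX_sign`: `sg` is `1` or `-1`, `Hh_sign`, `P.H_sign`.
* `sum_rowfX`: `rowfX P i β (x, γ) = sg (wb m (i-1) x) * (Hh β.1 γ.1 * P.H β.2 γ.2) - 2 * (if γ = β then τ x else 0)` with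
  `τ x = (sg (rr m i x) + sg (wb m (i-1) x)) / 2` (`Hh_self`, `P.H_self`).  Exchange the sums over `β` and `(x, γ)`;
  `∑ β, chi δ.1 β.1 * P.v δ.2 β.2 * (Hh β.1 γ.1 * P.H β.2 γ.2) = lam δ.1 * P.mu δ.2 * (chi δ.1 γ.1 * P.v δ.2 γ.2)` from
  `sum_chi_Hh` and `P.eig` (`Fintype.sum_prod_type`, `Finset.sum_mul_sum`).
-/

namespace Pool.Agent.MN

open Finset Pool.Agent.Helper42.Asum

variable {m k : ℕ}

theorem msum_pos0 {B : Type*} [Fintype B] (F : B → ℝ) (hF : ∀ x, F x = 0 ∨ F x = 1 ∨ F x = -1)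
    (κ : B → ℝ) :
    msum (fun x => pos (F x)) κ = (∑ x, F x ^ 2 * κ x + ∑ x, F x * κ x) / 2 := by
  unfold msum
  rw [← Finset.sum_add_distrib, Finset.sum_div]
  refine Finset.sum_congr rfl (fun x _ => ?_)
  unfold pos
  rcases hF x with h | h | h
  · simp [h]
  · simp [h]
  · have h1 : ¬ ((-1 : ℝ) = 1) := by norm_num
    simp [h, h1]

private theorem sgX_pm (b : Bool) : sg b = 1 ∨ sg b = -1 := by
  cases b <;> simp [sg]

theorem rowfX_sign (P : Alph) (i : ℕ) (β : Gm k × P.Λ) (a : W m × (Gm k × P.Λ)) :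
    rowfX P i β a = 1 ∨ rowfX P i β a = -1 := by
  unfold rowfX
  split_ifs with h
  · rcases sgX_pm (rr m i a.1) with h1 | h1 <;> rw [h1] <;> simp
  · rcases sgX_pm (wb m (i - 1) a.1) with h1 | h1 <;> rcases Hh_sign β.1 a.2.1 with h2 | h2 <;>
      rcases P.H_sign β.2 a.2.2 with h3 | h3 <;> rw [h1, h2, h3] <;> simp

/-- the transform of the rows in the word variable -/
theorem sum_rowfX (P : Alph) (i : ℕ) (δ : Gm k × P.Λ) (t : W m × (Gm k × P.Λ) → ℝ) :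
    ∑ β : Gm k × P.Λ, chi δ.1 β.1 * P.v δ.2 β.2 * (∑ a, rowfX P i β a * t a) =
      ∑ x : W m, (lam δ.1 * P.mu δ.2 * sg (wb m (i - 1) x) - (sg (rr m i x) + sg (wb m (i - 1) x))) *
        TtX P t δ x := by
  have hrow : ∀ (β : Gm k × P.Λ) (x : W m) (γ : Gm k × P.Λ), rowfX P i β (x, γ) =
      sg (wb m (i - 1) x) * (Hh β.1 γ.1 * P.H β.2 γ.2) -
        (if γ = β then sg (rr m i x) + sg (wb m (i - 1) x) else 0) := by
    intro β x γ
    unfold rowfX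
    by_cases h : γ = β
    · subst h
      simp [Hh_self, P.H_self]
    · simp [h]
  have h1 : ∀ β : Gm k × P.Λ, chi δ.1 β.1 * P.v δ.2 β.2 * (∑ a, rowfX P i β a * t a) =
      ∑ x : W m, ∑ γ : Gm k × P.Λ,
        chi δ.1 β.1 * P.v δ.2 β.2 * (rowfX P i β (x, γ) * t (x, γ)) := by
    intro β
    rw [Fintype.sum_prod_type, Finset.mul_sum]
    exact Finset.sum_congr rfl (fun x _ => Finset.mul_sum _ _ _)
  simp_rw [h1]
  rw [Finset.sum_comm]
  refine Finset.sum_congr rfl (fun x _ => ?_)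
  rw [Finset.sum_comm]
  unfold TtX
  rw [Finset.mul_sum]
  refine Finset.sum_congr rfl (fun γ _ => ?_)
  have h2 : ∀ β : Gm k × P.Λ,
      chi δ.1 β.1 * P.v δ.2 β.2 * (rowfX P i β (x, γ) * t (x, γ)) =
      (sg (wb m (i - 1) x) * t (x, γ)) *
        ((chi δ.1 β.1 * Hh β.1 γ.1) * (P.v δ.2 β.2 * P.H β.2 γ.2)) -
        (if γ = β then (sg (rr m i x) + sg (wb m (i - 1) x)) *
          (chi δ.1 β.1 * P.v δ.2 β.2) * t (x, γ) else 0) := by
    intro β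
    rw [hrow]
    split_ifs <;> ring
  have h3 : ∑ β : Gm k × P.Λ, (chi δ.1 β.1 * Hh β.1 γ.1) * (P.v δ.2 β.2 * P.H β.2 γ.2) =
      (lam δ.1 * chi δ.1 γ.1) * (P.mu δ.2 * P.v δ.2 γ.2) := by
    rw [← sum_chi_Hh, ← P.eig, Finset.sum_mul_sum, Fintype.sum_prod_type]
  simp_rw [h2]
  rw [Finset.sum_sub_distrib, ← Finset.mul_sum, h3, Finset.sum_ite_eq]
  simp only [Finset.mem_univ, if_true]
  ring

end Pool.Agent.MN
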